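import Pool.Agent.KBD.Targets

set_option autoImplicit false

/-!
# Smallness of the Padé remainders
-/

namespace Pool.Agent.KBD.AN_

open Finset Filter
open scoped BigOperators Topology

/-- `f w = ∑ c_k w ^ k` for `‖w‖ < ρ`, with absolute convergence -/
def Exp (ρ : ℝ) (c : PowerSeries ℂ) (f : ℂ → ℂ) : Prop :=
  ∀ w : ℂ, ‖w‖ < ρ → Summable (fun k => ‖PowerSeries.coeff k c * w ^ k‖) ∧
    HasSum (fun k => PowerSeries.coeff k c * w ^ k) (f w)

theorem Exp.congr {ρ : ℝ} {c : PowerSeries ℂ} {f g : ℂ → ℂ} (h : Exp ρ c f)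
    (hfg : ∀ w, ‖w‖ < ρ → f w = g w) : Exp ρ c g := by
  intro w hw
  rw [← hfg w hw]
  exact h w hw

theorem Exp.mono {ρ ρ' : ℝ} {c : PowerSeries ℂ} {f : ℂ → ℂ} (h : Exp ρ c f) (hr : ρ' ≤ ρ) :
    Exp ρ' c f := fun w hw => h w (hw.trans_le hr)

theorem Exp.add {ρ : ℝ} {c d : PowerSeries ℂ} {f g : ℂ → ℂ} (hf : Exp ρ c f) (hg : Exp ρ d g) :
    Exp ρ (c + d) (fun w => f w + g w) := by
  intro w hw
  obtain ⟨h1, h2⟩ := hf w hw
  obtain ⟨h3, h4⟩ := hg w hw
  have h5 : (fun k => PowerSeries.coeff k (c + d) * w ^ k) =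
      fun k => PowerSeries.coeff k c * w ^ k + PowerSeries.coeff k d * w ^ k := by
    funext k
    rw [map_add, add_mul]
  refine ⟨?_, by rw [h5]; exact h2.add h4⟩
  refine Summable.of_nonneg_of_le (fun k => norm_nonneg _) (fun k => ?_) (h1.add h3)
  have h6 := congrFun h5 k
  rw [h6]
  exact norm_add_le _ _

theorem Exp.const_mul {ρ : ℝ} {c : PowerSeries ℂ} {f : ℂ → ℂ} (hf : Exp ρ c f) (a : ℂ) :
    Exp ρ (PowerSeries.C a * c) (fun w => a * f w) := by
  intro w hw
  obtain ⟨h1, h2⟩ := hf w hw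
  have h5 : (fun k => PowerSeries.coeff k (PowerSeries.C a * c) * w ^ k) =
      fun k => a * (PowerSeries.coeff k c * w ^ k) := by
    funext k
    rw [PowerSeries.coeff_C_mul, mul_assoc]
  refine ⟨?_, by rw [h5]; exact h2.mul_left a⟩
  have h6 : (fun k => ‖PowerSeries.coeff k (PowerSeries.C a * c) * w ^ k‖) =
      fun k => ‖a‖ * ‖PowerSeries.coeff k c * w ^ k‖ := by
    funext k
    rw [← norm_mul]
    exact congrArg norm (congrFun h5 k)
  rw [h6]
  exact h1.mul_left _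

theorem Exp.neg {ρ : ℝ} {c : PowerSeries ℂ} {f : ℂ → ℂ} (hf : Exp ρ c f) :
    Exp ρ (-c) (fun w => - f w) := by
  have h := hf.const_mul (-1)
  have h1 : PowerSeries.C (-1 : ℂ) * c = -c := by
    rw [map_neg, map_one, neg_mul, one_mul]
  rw [h1] at h
  exact h.congr fun w _ => by ring

theorem Exp.sub {ρ : ℝ} {c d : PowerSeries ℂ} {f g : ℂ → ℂ} (hf : Exp ρ c f) (hg : Exp ρ d g) :
    Exp ρ (c - d) (fun w => f w - g w) := by
  have h := hf.add hg.neg
  rw [← sub_eq_add_neg] at h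
  exact h.congr fun w _ => by ring

theorem Exp.mul {ρ : ℝ} {c d : PowerSeries ℂ} {f g : ℂ → ℂ} (hf : Exp ρ c f) (hg : Exp ρ d g) :
    Exp ρ (c * d) (fun w => f w * g w) := by
  intro w hw
  obtain ⟨h1, h2⟩ := hf w hw
  obtain ⟨h3, h4⟩ := hg w hw
  have h5 : (fun k => PowerSeries.coeff k (c * d) * w ^ k) =
      fun k => ∑ kl ∈ Finset.HasAntidiagonal.antidiagonal k,
        (PowerSeries.coeff kl.1 c * w ^ kl.1) * (PowerSeries.coeff kl.2 d * w ^ kl.2) := by
    funext k
    rw [PowerSeries.coeff_mul, Finset.sum_mul]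
    apply Finset.sum_congr rfl
    intro kl hkl
    have hkl' : kl.1 + kl.2 = k := Finset.HasAntidiagonal.mem_antidiagonal.1 hkl
    rw [← hkl', pow_add]
    ring
  have h6 := summable_norm_sum_mul_antidiagonal_of_summable_norm h1 h3
  have h7 := tsum_mul_tsum_eq_tsum_sum_antidiagonal_of_summable_norm h1 h3
  refine ⟨?_, ?_⟩
  · have h8 : (fun k => ‖PowerSeries.coeff k (c * d) * w ^ k‖) =
        fun k => ‖∑ kl ∈ Finset.HasAntidiagonal.antidiagonal k,
          (PowerSeries.coeff kl.1 c * w ^ kl.1) * (PowerSeries.coeff kl.2 d * w ^ kl.2)‖ := by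
      funext k
      exact congrArg norm (congrFun h5 k)
    rw [h8]
    exact h6
  · rw [h5]
    have h9 : f w * g w = ∑' k, ∑ kl ∈ Finset.HasAntidiagonal.antidiagonal k,
        (PowerSeries.coeff kl.1 c * w ^ kl.1) * (PowerSeries.coeff kl.2 d * w ^ kl.2) := by
      rw [← h2.tsum_eq, ← h4.tsum_eq, h7]
    change HasSum _ (f w * g w)
    rw [h9]
    exact h6.of_norm.hasSum

theorem Exp.const {ρ : ℝ} (a : ℂ) : Exp ρ (PowerSeries.C a) (fun _ => a) := by
  intro w _
  have h : ∀ k, k ≠ 0 → PowerSeries.coeff k (PowerSeries.C a) * w ^ k = 0 := by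
    intro k hk
    rw [PowerSeries.coeff_C, if_neg hk, zero_mul]
  refine ⟨summable_of_ne_finset_zero (s := {0}) fun k hk => ?_, ?_⟩
  · rw [h k (by simpa using hk), norm_zero]
  · have h1 := hasSum_single 0 h
    simpa using h1

theorem Exp.one {ρ : ℝ} : Exp ρ 1 (fun _ => 1) := by
  have h := Exp.const (ρ := ρ) 1
  rwa [map_one] at h

theorem Exp.X {ρ : ℝ} : Exp ρ PowerSeries.X (fun w => w) := by
  intro w _
  have h : ∀ k, k ≠ 1 → PowerSeries.coeff k (PowerSeries.X : PowerSeries ℂ) * w ^ k = 0 := by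
    intro k hk
    rw [PowerSeries.coeff_X, if_neg hk, zero_mul]
  refine ⟨summable_of_ne_finset_zero (s := {1}) fun k hk => ?_, ?_⟩
  · rw [h k (by simpa using hk), norm_zero]
  · have h1 := hasSum_single 1 h
    simpa using h1

theorem Exp.pow {ρ : ℝ} {c : PowerSeries ℂ} {f : ℂ → ℂ} (hf : Exp ρ c f) (n : ℕ) :
    Exp ρ (c ^ n) (fun w => f w ^ n) := by
  induction n with
  | zero =>
    rw [pow_zero]
    exact Exp.one.congr fun w _ => (pow_zero _).symm
  | succ n ih =>
    rw [pow_succ]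
    exact (ih.mul hf).congr fun w _ => (pow_succ _ _).symm

theorem Exp.prod {ρ : ℝ} {ι : Type} (s : Finset ι) {c : ι → PowerSeries ℂ} {f : ι → ℂ → ℂ}
    (hf : ∀ i ∈ s, Exp ρ (c i) (f i)) : Exp ρ (∏ i ∈ s, c i) (fun w => ∏ i ∈ s, f i w) := by
  classical
  induction s using Finset.induction_on with
  | empty => simpa using Exp.one
  | insert a s ha ih =>
    rw [Finset.prod_insert ha]
    refine ((hf a (Finset.mem_insert_self _ _)).mul
      (ih fun i hi => hf i (Finset.mem_insert_of_mem hi))).congr fun w _ => ?_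
    rw [Finset.prod_insert ha]

theorem Exp.sum {ρ : ℝ} {ι : Type} (s : Finset ι) {c : ι → PowerSeries ℂ} {f : ι → ℂ → ℂ}
    (hf : ∀ i ∈ s, Exp ρ (c i) (f i)) : Exp ρ (∑ i ∈ s, c i) (fun w => ∑ i ∈ s, f i w) := by
  classical
  induction s using Finset.induction_on with
  | empty =>
    have h := Exp.const (ρ := ρ) 0
    rw [map_zero] at h
    simpa using h
  | insert a s ha ih =>
    rw [Finset.sum_insert ha]
    refine ((hf a (Finset.mem_insert_self _ _)).add
      (ih fun i hi => hf i (Finset.mem_insert_of_mem hi))).congr fun w _ => ?_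
    rw [Finset.sum_insert ha]

/-- the embedding of rational power series -/
noncomputable abbrev mp : PowerSeries ℚ →+* PowerSeries ℂ := PowerSeries.map (algebraMap ℚ ℂ)

theorem Exp.poly {ρ : ℝ} (p : Polynomial ℚ) :
    Exp ρ (mp (p : PowerSeries ℚ)) (fun w => Polynomial.aeval w p) := by
  induction p using Polynomial.induction_on' with
  | add p q hp hq =>
    rw [Polynomial.coe_add, map_add]
    exact (hp.add hq).congr fun w _ => (map_add _ _ _).symm
  | monomial n a =>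
    have h : (mp ((Polynomial.monomial n a : Polynomial ℚ) : PowerSeries ℚ)) =
        PowerSeries.C (a : ℂ) * PowerSeries.X ^ n := by
      rw [← Polynomial.C_mul_X_pow_eq_monomial, Polynomial.coe_mul, Polynomial.coe_pow,
        Polynomial.coe_X, Polynomial.coe_C, map_mul, map_pow, PowerSeries.map_X,
        PowerSeries.map_C]
      rfl
    rw [h]
    refine ((Exp.X.pow n).const_mul (a : ℂ)).congr fun w _ => ?_
    rw [Polynomial.aeval_monomial]
    rfl

theorem Exp.log {ρ : ℝ} (b : ℚ) (hb : 0 ≤ b) (hρ : ρ * b ≤ 1) :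
    Exp ρ (mp (lg b)) (fun w => Complex.log (1 + (b : ℂ) * w)) := by
  intro w hw
  have hlt : ‖(b : ℂ) * w‖ < 1 := by
    rw [norm_mul]
    have h1 : ‖(b : ℂ)‖ = (b : ℝ) := by
      have h2 : ((b : ℂ)) = (((b : ℚ) : ℝ) : ℂ) := by push_cast; rfl
      rw [h2, Complex.norm_real, Real.norm_of_nonneg (by exact_mod_cast hb)]
    rw [h1]
    rcases eq_or_lt_of_le hb with h0 | h0
    · rw [← h0]; simp
    · have h3 : (0 : ℝ) < b := by exact_mod_cast h0
      calc (b : ℝ) * ‖w‖ < b * ρ := by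
            exact mul_lt_mul_of_pos_left hw h3
        _ ≤ 1 := by linarith [mul_comm (b : ℝ) ρ]
  have h1 := Complex.hasSum_taylorSeries_log hlt
  have h2 : (fun k => PowerSeries.coeff k (mp (lg b)) * w ^ k) =
      fun n : ℕ => (-1) ^ (n + 1) * ((b : ℂ) * w) ^ n / n := by
    funext k
    rw [PowerSeries.coeff_map, lg, PowerSeries.coeff_mk]
    simp only [map_neg, map_div₀, map_pow, map_natCast, eq_ratCast]
    rw [neg_pow (b : ℂ) k, mul_pow]
    ring
  refine ⟨?_, by rw [h2]; exact h1⟩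
  have h3 : (fun k => ‖PowerSeries.coeff k (mp (lg b)) * w ^ k‖) =
      fun n : ℕ => ‖(-1) ^ (n + 1) * ((b : ℂ) * w) ^ n / n‖ := by
    funext k
    exact congrArg norm (congrFun h2 k)
  rw [h3]
  have h4 : Summable (fun n : ℕ => ‖(b : ℂ) * w‖ ^ n) :=
    summable_geometric_of_lt_one (norm_nonneg _) hlt
  refine Summable.of_nonneg_of_le (fun k => norm_nonneg _) (fun k => ?_) h4
  rw [norm_div, norm_mul, norm_pow, norm_neg, norm_one, one_pow, one_mul, norm_pow]
  rcases Nat.eq_zero_or_pos k with hk | hk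
  · subst hk
    simp
  · apply div_le_self (by positivity)
    rw [Complex.norm_natCast]
    exact_mod_cast hk

/-- Cauchy's estimate -/
theorem Exp.cauchy {ρ R M : ℝ} {c : PowerSeries ℂ} {f : ℂ → ℂ} (hf : Exp ρ c f) (hR : 0 < R)
    (hRρ : R < ρ) (hM : ∀ w, ‖w‖ = R → ‖f w‖ ≤ M) (k : ℕ) :
    ‖PowerSeries.coeff k c‖ ≤ M / R ^ k := by
  have hρ : 0 < ρ := hR.trans hRρ
  set p : FormalMultilinearSeries ℂ ℂ ℂ :=
    FormalMultilinearSeries.ofScalars ℂ (fun n => PowerSeries.coeff n c) with hp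
  have hball : HasFPowerSeriesOnBall f p 0 (ENNReal.ofReal ρ) := by
    refine ⟨?_, ?_, ?_⟩
    · apply ENNReal.le_of_forall_nnreal_lt
      intro s hs
      apply p.le_radius_of_summable
      have hs'' : (s : ℝ) < ρ := by
        rw [ENNReal.lt_ofReal_iff_toReal_lt ENNReal.coe_ne_top] at hs
        exact hs
      have hs' : ‖((s : ℝ) : ℂ)‖ < ρ := by
        rw [Complex.norm_real, Real.norm_of_nonneg s.coe_nonneg]
        exact hs''
      have h1 := (hf _ hs').1
      refine h1.congr fun n => ?_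
      rw [hp, FormalMultilinearSeries.ofScalars_norm, norm_mul, norm_pow, Complex.norm_real,
        Real.norm_of_nonneg s.coe_nonneg]
    · exact ENNReal.ofReal_pos.2 hρ
    · intro y hy
      have hy' : ‖y‖ < ρ := by
        rw [Metric.mem_eball, edist_zero_right, ← ofReal_norm] at hy
        exact (ENNReal.ofReal_lt_ofReal_iff hρ).1 hy
      have h1 := (hf y hy').2
      rw [zero_add]
      have h2 : (fun n => p n fun _ : Fin n => y) =
          fun k => PowerSeries.coeff k c * y ^ k := by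
        funext n
        rw [hp, FormalMultilinearSeries.ofScalars_apply_eq, smul_eq_mul]
      rw [h2]
      exact h1
  have hat : AnalyticAt ℂ f 0 := hball.analyticAt
  have heq := hball.hasFPowerSeriesAt.eq_formalMultilinearSeries hat.hasFPowerSeriesAt
  have hcoeff : PowerSeries.coeff k c = iteratedDeriv k f 0 / k.factorial := by
    have h1 := congrArg (fun q => FormalMultilinearSeries.coeff q k) heq
    simpa [hp, FormalMultilinearSeries.coeff_ofScalars] using h1
  have hdiff : DiffContOnCl ℂ f (Metric.ball 0 R) := by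
    apply DifferentiableOn.diffContOnCl
    have h1 : DifferentiableOn ℂ f (Metric.eball 0 (ENNReal.ofReal ρ)) := hball.differentiableOn
    apply h1.mono
    intro z hz
    have h2 := Metric.closure_ball_subset_closedBall hz
    rw [Metric.mem_closedBall, dist_zero_right] at h2
    rw [Metric.mem_eball, edist_zero_right, ← ofReal_norm]
    exact (ENNReal.ofReal_lt_ofReal_iff hρ).2 (h2.trans_lt hRρ)
  have h3 := Complex.norm_iteratedDeriv_le_of_forall_mem_sphere_norm_le k hR hdiff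
    (C := M) (fun z hz => hM z (by simpa using hz))
  rw [hcoeff, norm_div, Complex.norm_natCast]
  have hk : (0 : ℝ) < k.factorial := by exact_mod_cast Nat.factorial_pos k
  rw [div_le_iff₀ hk]
  calc ‖iteratedDeriv k f 0‖ ≤ k.factorial * M / R ^ k := h3
    _ = M / R ^ k * k.factorial := by ring

/-- binomial theorem for products -/
theorem binom_prod {r B : ℕ} (J : Bx r B) (x y : Fin r → ℂ) :
    ∑ I : Bx r B, (bin I J : ℂ) * (∏ i, y i ^ ((J i : ℕ) - (I i : ℕ))) *
      ∏ i, x i ^ (I i : ℕ) = ∏ i, (x i + y i) ^ (J i : ℕ) := by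
  have h1 : ∀ i, (x i + y i) ^ (J i : ℕ) =
      ∑ j : Fin (B + 1), (((J i : ℕ).choose (j : ℕ) : ℕ) : ℂ) * y i ^ ((J i : ℕ) - (j : ℕ)) *
        x i ^ (j : ℕ) := by
    intro i
    rw [Fin.sum_univ_eq_sum_range (fun j => (((J i : ℕ).choose j : ℕ) : ℂ) *
      y i ^ ((J i : ℕ) - j) * x i ^ j) (B + 1), add_pow]
    have hsub : Finset.range ((J i : ℕ) + 1) ⊆ Finset.range (B + 1) := by
      intro j hj
      rw [Finset.mem_range] at hj ⊢
      have := (J i).isLt
      omega
    rw [← Finset.sum_subset hsub]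
    · apply Finset.sum_congr rfl
      intro j _
      ring
    · intro j _ hj
      rw [Finset.mem_range, not_lt] at hj
      rw [Nat.choose_eq_zero_of_lt (by omega)]
      simp
  rw [Finset.prod_congr rfl fun i _ => h1 i, Finset.prod_univ_sum, Fintype.piFinset_univ]
  apply Finset.sum_congr rfl
  intro I _
  rw [Finset.prod_mul_distrib, Finset.prod_mul_distrib, bin, Nat.cast_prod]

theorem sum_bin {r B : ℕ} (J : Bx r B) :
    ∑ I : Bx r B, (bin I J : ℝ) ≤ 2 ^ (r * B) := by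
  have h := binom_prod J (fun _ => 1) (fun _ => 1)
  simp only [one_pow, Finset.prod_const_one, mul_one] at h
  have h2 : (∑ I : Bx r B, (bin I J : ℝ)) = ∏ i : Fin r, (2 : ℝ) ^ (J i : ℕ) := by
    have h3 : ((∑ I : Bx r B, (bin I J : ℝ) : ℝ) : ℂ) =
        ((∏ i : Fin r, (2 : ℝ) ^ (J i : ℕ) : ℝ) : ℂ) := by
      push_cast
      rw [h]
      norm_num
    exact_mod_cast h3
  rw [h2, mul_comm r B, pow_mul]
  calc ∏ i : Fin r, (2 : ℝ) ^ (J i : ℕ) ≤ ∏ i : Fin r, (2 : ℝ) ^ B := by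
        apply Finset.prod_le_prod
        · intro i _
          positivity
        · intro i _
          exact pow_le_pow_right₀ (by norm_num) (Nat.lt_succ_iff.1 (J i).isLt)
    _ = _ := by rw [Finset.prod_const, Finset.card_univ, Fintype.card_fin]

/-- size of the coefficients of the remainder -/
theorem coeff_bound (h : T_COEF) {r B A m σ : ℕ} {H : ℝ} {a : Fin r → ℕ}
    {P : Bx r B → Polynomial ℚ} (hA : 1 ≤ A) (ha : ∀ i, a i ≤ A) (hP : Pade a m σ P)
    (hm : m < σ) (hH : ∀ s, |((P 0).coeff s : ℝ)| ≤ H) (I : Bx r B) (k : ℕ) :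
    |((PowerSeries.coeff k ((P 0 : PowerSeries ℚ) * ff a I - (P I : PowerSeries ℚ)) : ℚ) : ℝ)| ≤
      if k < σ then 0 else (m + 1) * H * (2 * (A : ℝ)) ^ k := by
  split_ifs with hk
  · have h1 := PowerSeries.X_pow_dvd_iff.1 (hP.ord I) k hk
    rw [h1]
    simp
  · push Not at hk
    have hH0 : 0 ≤ H := (abs_nonneg _).trans (hH 0)
    have hA' : (1 : ℝ) ≤ 2 * A := by
      have : (1 : ℝ) ≤ A := by exact_mod_cast hA
      linarith
    have h1 : PowerSeries.coeff k (P I : PowerSeries ℚ) = 0 := by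
      rw [Polynomial.coeff_coe]
      apply Polynomial.coeff_eq_zero_of_natDegree_lt
      exact lt_of_le_of_lt (hP.deg I) (by omega)
    have h2 : PowerSeries.coeff k ((P 0 : PowerSeries ℚ) * ff a I) =
        ∑ i ∈ Finset.range (m + 1), (P 0).coeff i * PowerSeries.coeff (k - i) (ff a I) := by
      rw [PowerSeries.coeff_mul,
        Finset.Nat.sum_antidiagonal_eq_sum_range_succ_mk]
      have hsub : Finset.range (m + 1) ⊆ Finset.range k.succ := by
        intro j hj
        rw [Finset.mem_range] at hj ⊢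
        omega
      rw [← Finset.sum_subset hsub]
      · apply Finset.sum_congr rfl
        intro i _
        rw [Polynomial.coeff_coe]
      · intro i _ hi
        rw [Finset.mem_range, not_lt] at hi
        rw [Polynomial.coeff_coe, Polynomial.coeff_eq_zero_of_natDegree_lt, zero_mul]
        exact lt_of_le_of_lt (hP.deg 0) (by omega)
    rw [map_sub, h1, sub_zero, h2]
    push_cast
    refine (Finset.abs_sum_le_sum_abs _ _).trans ?_
    have h3 : ∀ i ∈ Finset.range (m + 1),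
        |((P 0).coeff i : ℝ) * ((PowerSeries.coeff (k - i) (ff a I) : ℚ) : ℝ)| ≤
          H * (2 * (A : ℝ)) ^ k := by
      intro i _
      rw [abs_mul]
      apply mul_le_mul (hH i) _ (abs_nonneg _) hH0
      have h4 := (h r B A a hA ha I).1 (k - i)
      have h5 : |((PowerSeries.coeff (k - i) (ff a I) : ℚ) : ℝ)| ≤ (2 * (A : ℝ)) ^ (k - i) := by
        exact_mod_cast h4
      exact h5.trans (pow_le_pow_right₀ hA' (Nat.sub_le _ _))
    refine (Finset.sum_le_sum h3).trans ?_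
    rw [Finset.sum_const, Finset.card_range, nsmul_eq_mul]
    push_cast
    linarith

/-- the remainder as a function -/
noncomputable def Rm {r B : ℕ} (a : Fin r → ℕ) (P : Bx r B → Polynomial ℚ) (I : Bx r B)
    (z : ℂ) : ℂ :=
  Polynomial.aeval z (P 0) * ∏ i, Complex.log (1 + (a i : ℂ) * z) ^ (I i : ℕ) -
    Polynomial.aeval z (P I)

theorem Rm_exp {r B A : ℕ} {a : Fin r → ℕ} (P : Bx r B → Polynomial ℚ) (hA : 1 ≤ A)
    (ha : ∀ i, a i ≤ A) (I : Bx r B) :
    Exp (1 / A) (mp ((P 0 : PowerSeries ℚ) * ff a I - (P I : PowerSeries ℚ))) (Rm a P I) := by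
  rw [map_sub, map_mul, ff, map_prod]
  simp only [map_pow]
  have hA0 : (0 : ℝ) < A := by exact_mod_cast hA
  refine ((Exp.poly (P 0)).mul (Exp.prod Finset.univ fun i _ =>
    (Exp.log (a i : ℚ) (by positivity) ?_).pow (I i : ℕ))).sub (Exp.poly (P I)) |>.congr
      fun w _ => ?_
  · have h1 : (a i : ℝ) ≤ A := by exact_mod_cast ha i
    push_cast
    rw [div_mul_eq_mul_div, one_mul, div_le_one hA0]
    exact h1
  · simp [Rm]

theorem Rm_bound (h : T_COEF) {r B A N m σ : ℕ} {H : ℝ} {a : Fin r → ℕ}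
    {P : Bx r B → Polynomial ℚ} (hA : 1 ≤ A) (ha : ∀ i, a i ≤ A) (hN : 8 * A ≤ N)
    (hP : Pade a m σ P) (hm : m < σ) (hH : ∀ s, |((P 0).coeff s : ℝ)| ≤ H) (I : Bx r B) (z : ℂ)
    (hz : ‖z‖ ≤ 2 / N) :
    ‖Rm a P I z‖ ≤ 2 * (m + 1) * H * (4 * (A : ℝ) / N) ^ σ := by
  have hA0 : (0 : ℝ) < A := by exact_mod_cast hA
  have hN0 : (0 : ℝ) < N := by
    have : 0 < N := by omega
    exact_mod_cast this
  have hN8 : 8 * (A : ℝ) ≤ N := by exact_mod_cast hN
  have hH0 : 0 ≤ H := (abs_nonneg _).trans (hH 0)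
  have hz' : ‖z‖ < 1 / A := by
    refine hz.trans_lt ?_
    rw [div_lt_div_iff₀ hN0 hA0]
    linarith
  obtain ⟨_, h2⟩ := Rm_exp P hA ha I z hz'
  set y : ℝ := 4 * (A : ℝ) / N with hy
  have hy0 : 0 ≤ y := by positivity
  have hy1 : y ≤ 1 / 2 := by
    rw [hy, div_le_div_iff₀ hN0 two_pos]
    linarith
  have hg : HasSum (fun k => if k < σ then 0 else (m + 1) * H * y ^ k)
      ((m + 1) * H * y ^ σ * (1 - y)⁻¹) := by
    have h3 : HasSum (fun k => (m + 1) * H * y ^ σ * y ^ k) ((m + 1) * H * y ^ σ * (1 - y)⁻¹) :=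
      (hasSum_geometric_of_lt_one hy0 (by linarith)).mul_left _
    rw [← hasSum_nat_add_iff' σ]
    have h4 : ∑ i ∈ Finset.range σ, (if i < σ then 0 else (m + 1) * H * y ^ i) = 0 := by
      apply Finset.sum_eq_zero
      intro i hi
      rw [if_pos (Finset.mem_range.1 hi)]
    rw [h4, sub_zero]
    have h5 : (fun k : ℕ => if k + σ < σ then 0 else (m + 1) * H * y ^ (k + σ)) =
        fun k : ℕ => (m + 1) * H * y ^ σ * y ^ k := by
      funext k
      rw [if_neg (by omega), pow_add]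
      ring
    rw [h5]
    exact h3
  have hle : ∀ k, ‖PowerSeries.coeff k (mp ((P 0 : PowerSeries ℚ) * ff a I -
      (P I : PowerSeries ℚ))) * z ^ k‖ ≤ if k < σ then 0 else (m + 1) * H * y ^ k := by
    intro k
    have h3 := coeff_bound h hA ha hP hm hH I k
    rw [PowerSeries.coeff_map, norm_mul, norm_pow, eq_ratCast, Complex.norm_ratCast]
    split_ifs at h3 ⊢ with hk
    · have h4 := abs_nonneg ((PowerSeries.coeff k ((P 0 : PowerSeries ℚ) * ff a I -
        (P I : PowerSeries ℚ)) : ℚ) : ℝ)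
      rw [le_antisymm h3 h4, zero_mul]
    · have h5 : y ^ k = (2 * (A : ℝ)) ^ k * (2 / N) ^ k := by
        rw [← mul_pow, hy]
        congr 1
        ring
      rw [h5, ← mul_assoc]
      apply mul_le_mul h3 _ (by positivity) (by positivity)
      exact pow_le_pow_left₀ (norm_nonneg _) hz k
  have h5 := hg.summable
  have h6 : ‖Rm a P I z‖ ≤ (m + 1) * H * y ^ σ * (1 - y)⁻¹ := by
    rw [← h2.tsum_eq]
    exact tsum_of_norm_bounded hg hle
  refine h6.trans ?_
  have h7 : (1 - y)⁻¹ ≤ 2 := by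
    rw [inv_le_comm₀ (by linarith) two_pos]
    linarith
  calc (m + 1) * H * y ^ σ * (1 - y)⁻¹ ≤ (m + 1) * H * y ^ σ * 2 := by
        apply mul_le_mul_of_nonneg_left h7 (by positivity)
    _ = _ := by ring

section

variable {r B A N m σ : ℕ} {H : ℝ} {a : Fin r → ℕ} {P : Bx r B → Polynomial ℚ}

/-- `log (1 + a_i z) - log (1 + a_i z0)`, `z = z0 + w` -/
noncomputable def el (a : Fin r → ℕ) (N : ℕ) (i : Fin r) (w : ℂ) : ℂ :=
  Complex.log (1 + ((sl a (1 / (N : ℚ)) i : ℚ) : ℂ) * w)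

theorem sl_nonneg (i : Fin r) : 0 ≤ sl a (1 / (N : ℚ)) i := by
  unfold sl
  positivity

theorem sl_le (i : Fin r) : ((sl a (1 / (N : ℚ)) i : ℚ) : ℝ) ≤ a i := by
  have h : sl a (1 / (N : ℚ)) i ≤ a i := by
    unfold sl
    apply div_le_self (by positivity)
    have : (0 : ℚ) ≤ a i * (1 / (N : ℚ)) := by positivity
    linarith
  exact_mod_cast h

theorem el_exp (hA : 1 ≤ A) (ha : ∀ i, a i ≤ A) (hN : 8 * A ≤ N) (i : Fin r) :
    Exp (2 / N) (mp (lg (sl a (1 / (N : ℚ)) i))) (el a N i) := by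
  have hA0 : (0 : ℝ) < A := by exact_mod_cast hA
  have hN0 : (0 : ℝ) < N := by
    have : 0 < N := by omega
    exact_mod_cast this
  have hN8 : 8 * (A : ℝ) ≤ N := by exact_mod_cast hN
  have h1 : (a i : ℝ) ≤ A := by exact_mod_cast ha i
  apply Exp.log _ (sl_nonneg i)
  rw [div_mul_eq_mul_div, div_le_one hN0]
  have h2 := sl_le (a := a) (N := N) i
  linarith

theorem sl_w_norm (hA : 1 ≤ A) (ha : ∀ i, a i ≤ A) (hN : 8 * A ≤ N) (i : Fin r) (w : ℂ)
    (hw : ‖w‖ ≤ 1 / N) : ‖((sl a (1 / (N : ℚ)) i : ℚ) : ℂ) * w‖ ≤ 1 / 8 := by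
  have hA0 : (0 : ℝ) < A := by exact_mod_cast hA
  have hN0 : (0 : ℝ) < N := by
    have : 0 < N := by omega
    exact_mod_cast this
  have hN8 : 8 * (A : ℝ) ≤ N := by exact_mod_cast hN
  have h1 : (a i : ℝ) ≤ A := by exact_mod_cast ha i
  have h2 := sl_le (a := a) (N := N) i
  have h3 : (0 : ℝ) ≤ ((sl a (1 / (N : ℚ)) i : ℚ) : ℝ) := by
    exact_mod_cast sl_nonneg (a := a) (N := N) i
  rw [norm_mul, Complex.norm_ratCast, abs_of_nonneg h3]
  calc ((sl a (1 / (N : ℚ)) i : ℚ) : ℝ) * ‖w‖ ≤ A * (1 / N) := by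
        apply mul_le_mul (h2.trans h1) hw (norm_nonneg _) hA0.le
    _ ≤ 1 / 8 := by
        rw [mul_one_div, div_le_div_iff₀ hN0 (by norm_num)]
        linarith

theorem el_norm (hA : 1 ≤ A) (ha : ∀ i, a i ≤ A) (hN : 8 * A ≤ N) (i : Fin r) (w : ℂ)
    (hw : ‖w‖ ≤ 1 / N) : ‖el a N i w‖ ≤ 1 := by
  have h1 := sl_w_norm hA ha hN i w hw
  have h2 := Complex.norm_log_one_add_half_le_self (h1.trans (by norm_num))
  unfold el
  linarith

theorem log_split (hA : 1 ≤ A) (ha : ∀ i, a i ≤ A) (hN : 8 * A ≤ N) (i : Fin r) (w : ℂ)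
    (hw : ‖w‖ ≤ 1 / N) :
    Complex.log (1 + (a i : ℂ) * (((1 / (N : ℚ) : ℚ) : ℂ) + w)) - el a N i w =
      ((Real.log (1 + (a i : ℝ) / N) : ℝ) : ℂ) := by
  have hN0 : (0 : ℝ) < N := by
    have : 0 < N := by omega
    exact_mod_cast this
  have hNc : (N : ℂ) ≠ 0 := by
    have : (N : ℝ) ≠ 0 := hN0.ne'
    exact_mod_cast this
  have h1 := sl_w_norm hA ha hN i w hw
  have hne : 1 + ((sl a (1 / (N : ℚ)) i : ℚ) : ℂ) * w ≠ 0 := by
    intro h0
    have h2 : ((sl a (1 / (N : ℚ)) i : ℚ) : ℂ) * w = -1 := by linear_combination h0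
    rw [h2] at h1
    norm_num at h1
  have hpos : 0 < 1 + (a i : ℝ) / N := by positivity
  have hposc : (1 + (a i : ℂ) / N) ≠ 0 := by
    have h2 : ((1 + (a i : ℝ) / N : ℝ) : ℂ) ≠ 0 := by
      exact_mod_cast hpos.ne'
    push_cast at h2
    exact h2
  have hfac : 1 + (a i : ℂ) * (((1 / (N : ℚ) : ℚ) : ℂ) + w) =
      ((1 + (a i : ℝ) / N : ℝ) : ℂ) * (1 + ((sl a (1 / (N : ℚ)) i : ℚ) : ℂ) * w) := by
    unfold sl
    push_cast
    have h3 : (1 + (a i : ℂ) * (1 / (N : ℂ))) ≠ 0 := by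
      rw [mul_one_div]
      exact hposc
    rw [show (1 + (a i : ℂ) / N) = 1 + (a i : ℂ) * (1 / (N : ℂ)) by ring]
    generalize (1 / (N : ℂ)) = u at h3 ⊢
    field_simp
    ring
  rw [hfac, Complex.log_ofReal_mul hpos hne]
  unfold el
  ring

/-- the function `∑_I binom(J, I) (-ell)^(J-I) P_I(z0 + w)` -/
noncomputable def Gf (a : Fin r → ℕ) (P : Bx r B → Polynomial ℚ) (N : ℕ) (J : Bx r B)
    (w : ℂ) : ℂ :=
  ∑ I : Bx r B, (bin I J : ℂ) * (∏ i, (-el a N i w) ^ ((J i : ℕ) - (I i : ℕ))) *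
    Polynomial.aeval (((1 / (N : ℚ) : ℚ) : ℂ) + w) (P I)

theorem ty_exp (ρ : ℝ) (z0 : ℚ) (p : Polynomial ℚ) :
    Exp ρ (mp (ty z0 p)) (fun w => Polynomial.aeval ((z0 : ℂ) + w) p) := by
  refine (Exp.poly (Polynomial.taylor z0 p)).congr fun w _ => ?_
  rw [Polynomial.taylor_apply, Polynomial.aeval_comp]
  simp [add_comm]

theorem Gf_exp (hA : 1 ≤ A) (ha : ∀ i, a i ≤ A) (hN : 8 * A ≤ N) (P : Bx r B → Polynomial ℚ)
    (J : Bx r B) : Exp (2 / N) (mp (g0 a (1 / (N : ℚ)) P J)) (Gf a P N J) := by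
  unfold g0 gg
  rw [map_sum]
  refine (Exp.sum Finset.univ (f := fun I w => (bin I J : ℂ) *
    (∏ i, (-el a N i w) ^ ((J i : ℕ) - (I i : ℕ))) *
    Polynomial.aeval (((1 / (N : ℚ) : ℚ) : ℂ) + w) (P I)) fun I _ => ?_).congr fun w _ => rfl
  rw [map_mul, map_mul, map_prod, map_natCast]
  have h1 : Exp (2 / N) ((bin I J : PowerSeries ℂ)) (fun _ => (bin I J : ℂ)) := by
    have h2 := Exp.const (ρ := 2 / N) (bin I J : ℂ)
    rwa [map_natCast] at h2
  refine (h1.mul (Exp.prod Finset.univ (f := fun i w =>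
    (-el a N i w) ^ ((J i : ℕ) - (I i : ℕ))) fun i _ => ?_)).mul (ty_exp _ _ _)
  rw [map_pow, map_neg]
  exact (el_exp hA ha hN i).neg.pow _

end

end Pool.Agent.KBD.AN_

namespace Pool.Agent.KBD

open AN_

theorem p_AN (h : T_COEF) : T_AN := by
  intro r B A N m σ H a P hA ha hN hP hm hH k J
  have hN0 : (0 : ℝ) < N := by
    have : 0 < N := by omega
    exact_mod_cast this
  have hH0 : 0 ≤ H := (abs_nonneg _).trans (hH 0)
  set κ : ℝ := ∏ i, Real.log (1 + (a i : ℝ) / N) ^ (J i : ℕ) with hκ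
  set M : ℝ := 2 * (m + 1) * H * (4 * (A : ℝ) / N) ^ σ with hM
  have hM0 : 0 ≤ M := by positivity
  have hE : Exp (2 / N) (PowerSeries.C (κ : ℂ) * mp (ty (1 / (N : ℚ)) (P 0)) -
      mp (g0 a (1 / (N : ℚ)) P J))
      (fun w => (κ : ℂ) * Polynomial.aeval (((1 / (N : ℚ) : ℚ) : ℂ) + w) (P 0) - Gf a P N J w) :=
    ((ty_exp _ _ _).const_mul _).sub (Gf_exp hA ha hN P J)
  have hbound : ∀ w : ℂ, ‖w‖ = 1 / N →
      ‖(κ : ℂ) * Polynomial.aeval (((1 / (N : ℚ) : ℚ) : ℂ) + w) (P 0) - Gf a P N J w‖ ≤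
        2 ^ (r * B) * M := by
    intro w hw
    set z : ℂ := ((1 / (N : ℚ) : ℚ) : ℂ) + w with hz
    have hzn : ‖z‖ ≤ 2 / N := by
      refine (norm_add_le _ _).trans ?_
      rw [hw, Complex.norm_ratCast]
      push_cast
      rw [abs_of_pos (by positivity)]
      apply le_of_eq
      ring
    have h1 : (κ : ℂ) * Polynomial.aeval z (P 0) - Gf a P N J w =
        ∑ I : Bx r B, (bin I J : ℂ) * (∏ i, (-el a N i w) ^ ((J i : ℕ) - (I i : ℕ))) *
          Rm a P I z := by
      have h2 := binom_prod J (fun i => Complex.log (1 + (a i : ℂ) * z)) (fun i => -el a N i w)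
      have h3 : ∏ i, (Complex.log (1 + (a i : ℂ) * z) + -el a N i w) ^ (J i : ℕ) = (κ : ℂ) := by
        rw [hκ]
        push_cast
        apply Finset.prod_congr rfl
        intro i _
        rw [← sub_eq_add_neg, hz, log_split hA ha hN i w hw.le]
      rw [h3] at h2
      rw [← h2, Gf, Finset.sum_mul, ← Finset.sum_sub_distrib]
      apply Finset.sum_congr rfl
      intro I _
      unfold Rm
      ring
    rw [h1]
    refine (norm_sum_le _ _).trans ?_
    have h4 : ∀ I ∈ (Finset.univ : Finset (Bx r B)),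
        ‖(bin I J : ℂ) * (∏ i, (-el a N i w) ^ ((J i : ℕ) - (I i : ℕ))) * Rm a P I z‖ ≤
          (bin I J : ℝ) * M := by
      intro I _
      rw [norm_mul, norm_mul, Complex.norm_natCast, mul_assoc]
      apply mul_le_mul_of_nonneg_left _ (by positivity)
      have h5 : ‖∏ i, (-el a N i w) ^ ((J i : ℕ) - (I i : ℕ))‖ ≤ 1 := by
        rw [norm_prod]
        apply Finset.prod_le_one
        · intro i _
          exact norm_nonneg _
        · intro i _
          rw [norm_pow, norm_neg]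
          exact pow_le_one₀ (norm_nonneg _) (el_norm hA ha hN i w hw.le)
      have h6 := Rm_bound h hA ha hN hP hm hH I z hzn
      calc ‖∏ i, (-el a N i w) ^ ((J i : ℕ) - (I i : ℕ))‖ * ‖Rm a P I z‖ ≤ 1 * M :=
            mul_le_mul h5 h6 (norm_nonneg _) zero_le_one
        _ = M := one_mul _
    refine (Finset.sum_le_sum h4).trans ?_
    rw [← Finset.sum_mul]
    exact mul_le_mul_of_nonneg_right (sum_bin J) hM0
  have hc := hE.cauchy (R := 1 / N) (by positivity) (by
    rw [div_lt_div_iff₀ hN0 hN0]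
    linarith) hbound k
  have hval : PowerSeries.coeff k (PowerSeries.C (κ : ℂ) * mp (ty (1 / (N : ℚ)) (P 0)) -
      mp (g0 a (1 / (N : ℚ)) P J)) =
      ((((Polynomial.taylor (1 / (N : ℚ)) (P 0)).coeff k : ℚ) * κ -
        ((pk a (1 / (N : ℚ)) P k J : ℚ) : ℝ) : ℝ) : ℂ) := by
    rw [map_sub, PowerSeries.coeff_C_mul, PowerSeries.coeff_map, PowerSeries.coeff_map, ty,
      Polynomial.coeff_coe, pk]
    push_cast
    simp only [eq_ratCast]
    ring
  rw [hval, Complex.norm_real, Real.norm_eq_abs] at hc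
  refine hc.trans (le_of_eq ?_)
  rw [hM, one_div, inv_pow, div_inv_eq_mul]
  ring

end Pool.Agent.KBD
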