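import Pool.Agent.KBD.Targets

set_option autoImplicit false

/-!
# KBD-COEF: coefficients of products of logarithm series
-/

namespace Pool.Agent.KBD

open Finset
open scoped BigOperators

namespace COEF_

/-- the weighted sums of the coefficients are at most one -/
def NN (ρ : ℚ) (F : PowerSeries ℚ) : Prop :=
  ∀ S : ℕ, ∑ s ∈ range (S + 1), |PowerSeries.coeff s F| * ρ ^ s ≤ 1

lemma NN_one (ρ : ℚ) : NN ρ 1 := by
  intro S
  rw [Finset.sum_eq_single 0]
  · simp
  · intro s _ hs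
    rw [PowerSeries.coeff_one, if_neg hs]
    simp
  · intro h
    exact absurd (Finset.mem_range.2 (Nat.succ_pos S)) h

lemma NN_mul {ρ : ℚ} (hρ : 0 ≤ ρ) {F G : PowerSeries ℚ} (hF : NN ρ F) (hG : NN ρ G) :
    NN ρ (F * G) := by
  intro S
  set u : ℕ → ℚ := fun i => |PowerSeries.coeff i F| * ρ ^ i with hu
  set w : ℕ → ℚ := fun i => |PowerSeries.coeff i G| * ρ ^ i with hw
  have hu0 : ∀ i, 0 ≤ u i := fun i => by positivity
  have hw0 : ∀ i, 0 ≤ w i := fun i => by positivity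
  have h1 : ∀ s, |PowerSeries.coeff s (F * G)| * ρ ^ s ≤
      ∑ p ∈ antidiagonal s, u p.1 * w p.2 := by
    intro s
    rw [PowerSeries.coeff_mul]
    calc |∑ p ∈ antidiagonal s, PowerSeries.coeff p.1 F * PowerSeries.coeff p.2 G| * ρ ^ s
        ≤ (∑ p ∈ antidiagonal s, |PowerSeries.coeff p.1 F * PowerSeries.coeff p.2 G|) * ρ ^ s :=
          mul_le_mul_of_nonneg_right (Finset.abs_sum_le_sum_abs _ _) (by positivity)
      _ = ∑ p ∈ antidiagonal s, u p.1 * w p.2 := by
          rw [Finset.sum_mul]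
          refine Finset.sum_congr rfl fun p hp => ?_
          rw [Finset.HasAntidiagonal.mem_antidiagonal] at hp
          rw [← hp, pow_add, abs_mul]
          simp only [hu, hw]
          ring
  calc ∑ s ∈ range (S + 1), |PowerSeries.coeff s (F * G)| * ρ ^ s
      ≤ ∑ s ∈ range (S + 1), ∑ p ∈ antidiagonal s, u p.1 * w p.2 :=
        Finset.sum_le_sum fun s _ => h1 s
    _ = ∑ p ∈ (range (S + 1)).biUnion fun s => antidiagonal s, u p.1 * w p.2 := by
        rw [Finset.sum_biUnion]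
        intro s _ t _ hst
        rw [Function.onFun, Finset.disjoint_left]
        intro p hp hq
        rw [Finset.HasAntidiagonal.mem_antidiagonal] at hp hq
        exact hst (hp.symm.trans hq)
    _ ≤ ∑ p ∈ range (S + 1) ×ˢ range (S + 1), u p.1 * w p.2 := by
        apply Finset.sum_le_sum_of_subset_of_nonneg
        · intro p hp
          rw [Finset.mem_biUnion] at hp
          obtain ⟨s, hs, hp⟩ := hp
          rw [Finset.HasAntidiagonal.mem_antidiagonal] at hp
          rw [Finset.mem_range] at hs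
          rw [Finset.mem_product, Finset.mem_range, Finset.mem_range]
          constructor <;> omega
        · intro p _ _
          exact mul_nonneg (hu0 _) (hw0 _)
    _ = (∑ i ∈ range (S + 1), u i) * ∑ j ∈ range (S + 1), w j := by
        rw [Finset.sum_mul_sum, Finset.sum_product]
    _ ≤ 1 * 1 := mul_le_mul (hF S) (hG S) (Finset.sum_nonneg fun i _ => hw0 i) (by norm_num)
    _ = 1 := by norm_num

lemma NN_pow {ρ : ℚ} (hρ : 0 ≤ ρ) {F : PowerSeries ℚ} (hF : NN ρ F) (n : ℕ) : NN ρ (F ^ n) := by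
  induction n with
  | zero => rw [pow_zero]; exact NN_one ρ
  | succ n ih => rw [pow_succ]; exact NN_mul hρ ih hF

lemma NN_prod {ρ : ℚ} (hρ : 0 ≤ ρ) {r : ℕ} (F : Fin r → PowerSeries ℚ) (hF : ∀ i, NN ρ (F i)) :
    NN ρ (∏ i, F i) := by
  apply Finset.prod_induction F (NN ρ) (fun _ _ h1 h2 => NN_mul hρ h1 h2) (NN_one ρ)
  intro i _
  exact hF i

lemma coeff_lg (b : ℚ) (s : ℕ) : PowerSeries.coeff s (lg b) = -((-b) ^ s / (s : ℚ)) := by
  unfold lg
  rw [PowerSeries.coeff_mk]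

lemma NN_lg {A : ℕ} (hA : 1 ≤ A) {a : ℕ} (ha : a ≤ A) : NN (1 / (2 * (A : ℚ))) (lg (a : ℚ)) := by
  intro S
  have hA0 : (0 : ℚ) < A := by exact_mod_cast hA
  have haA : (a : ℚ) ≤ A := by exact_mod_cast ha
  have hterm : ∀ s, |PowerSeries.coeff s (lg (a : ℚ))| * (1 / (2 * (A : ℚ))) ^ s ≤
      if s = 0 then 0 else (1 / 2 : ℚ) ^ s := by
    intro s
    rw [coeff_lg]
    by_cases hs : s = 0
    · rw [hs]
      simp
    · rw [if_neg hs, abs_neg, abs_div, abs_pow, abs_neg, abs_of_nonneg (by positivity : (0 : ℚ) ≤ a),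
        abs_of_nonneg (by positivity : (0 : ℚ) ≤ s)]
      have hs1 : (1 : ℚ) ≤ s := by exact_mod_cast Nat.one_le_iff_ne_zero.2 hs
      have h1 : (a : ℚ) ^ s / s ≤ (a : ℚ) ^ s := div_le_self (by positivity) hs1
      calc (a : ℚ) ^ s / s * (1 / (2 * (A : ℚ))) ^ s
          ≤ (A : ℚ) ^ s * (1 / (2 * (A : ℚ))) ^ s := by
            apply mul_le_mul_of_nonneg_right _ (by positivity)
            exact h1.trans (by gcongr)
        _ = (1 / 2 : ℚ) ^ s := by
            rw [← mul_pow]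
            congr 1
            field_simp
  refine (Finset.sum_le_sum fun s _ => hterm s).trans ?_
  have hgeo : ∀ S : ℕ, ∑ s ∈ range (S + 1), (if s = 0 then 0 else (1 / 2 : ℚ) ^ s) =
      1 - (1 / 2) ^ S := by
    intro S
    induction S with
    | zero => simp
    | succ n ih =>
      rw [Finset.sum_range_succ, ih, if_neg (Nat.succ_ne_zero n), pow_succ]
      ring
  rw [hgeo]
  have : (0 : ℚ) ≤ (1 / 2) ^ S := by positivity
  linarith

/-- bounded denominators -/
def Den (l : ℤ) (S E : ℕ) (F : PowerSeries ℚ) : Prop :=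
  ∀ s, s ≤ S → ∃ x : ℤ, (l : ℚ) ^ E * PowerSeries.coeff s F = x

lemma Den_one (l : ℤ) (S : ℕ) : Den l S 0 1 := by
  intro s _
  rw [PowerSeries.coeff_one]
  by_cases hs : s = 0
  · exact ⟨1, by simp [hs]⟩
  · exact ⟨0, by simp [hs]⟩

lemma Den_mul {l : ℤ} {S E E' : ℕ} {F G : PowerSeries ℚ} (hF : Den l S E F) (hG : Den l S E' G) :
    Den l S (E + E') (F * G) := by
  intro s hs
  rw [PowerSeries.coeff_mul, Finset.mul_sum]
  have h : ∀ p ∈ antidiagonal s, ∃ x : ℤ, (l : ℚ) ^ (E + E') *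
      (PowerSeries.coeff p.1 F * PowerSeries.coeff p.2 G) = x := by
    intro p hp
    rw [Finset.HasAntidiagonal.mem_antidiagonal] at hp
    obtain ⟨x, hx⟩ := hF p.1 (by omega)
    obtain ⟨y, hy⟩ := hG p.2 (by omega)
    refine ⟨x * y, ?_⟩
    rw [Int.cast_mul, ← hx, ← hy, pow_add]
    ring
  choose! x hx using h
  refine ⟨∑ p ∈ antidiagonal s, x p, ?_⟩
  rw [Int.cast_sum]
  exact Finset.sum_congr rfl hx

lemma Den_pow {l : ℤ} {S : ℕ} {F : PowerSeries ℚ} (hF : Den l S 1 F) (n : ℕ) :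
    Den l S n (F ^ n) := by
  induction n with
  | zero => rw [pow_zero]; exact Den_one l S
  | succ n ih => rw [pow_succ]; exact Den_mul ih hF

lemma Den_prod {l : ℤ} {S : ℕ} {ι : Type} [DecidableEq ι] (t : Finset ι) (F : ι → PowerSeries ℚ)
    (E : ι → ℕ) (hF : ∀ i, Den l S (E i) (F i)) : Den l S (∑ i ∈ t, E i) (∏ i ∈ t, F i) := by
  induction t using Finset.induction_on with
  | empty => rw [Finset.sum_empty, Finset.prod_empty]; exact Den_one l S
  | insert a t ha ih =>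
    rw [Finset.sum_insert ha, Finset.prod_insert ha]
    exact Den_mul (hF a) ih

lemma Den_mono {l : ℤ} {S E E' : ℕ} {F : PowerSeries ℚ} (h : E ≤ E') (hF : Den l S E F) :
    Den l S E' F := by
  intro s hs
  obtain ⟨x, hx⟩ := hF s hs
  refine ⟨l ^ (E' - E) * x, ?_⟩
  rw [Int.cast_mul, ← hx, Int.cast_pow, ← mul_assoc, ← pow_add, Nat.sub_add_cancel h]

lemma Den_lg (S a : ℕ) : Den (Nat.lcmUpto S : ℤ) S 1 (lg (a : ℚ)) := by
  intro s hs
  rw [coeff_lg, pow_one]
  by_cases h0 : s = 0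
  · refine ⟨0, ?_⟩
    rw [h0]
    simp
  · have hdvd : s ∣ Nat.lcmUpto S := by
      unfold Nat.lcmUpto
      exact Finset.dvd_lcm (f := id) (Finset.mem_Icc.2 ⟨Nat.one_le_iff_ne_zero.2 h0, hs⟩)
    obtain ⟨c, hc⟩ := hdvd
    refine ⟨-(c * (-(a : ℤ)) ^ s), ?_⟩
    rw [hc]
    push_cast
    have hs0 : (s : ℚ) ≠ 0 := by exact_mod_cast h0
    field_simp

end COEF_

open COEF_

theorem p_COEF : T_COEF := by
  intro r B A a hA ha J
  have hA0 : (0 : ℚ) < A := by exact_mod_cast hA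
  have hρ : (0 : ℚ) ≤ 1 / (2 * (A : ℚ)) := by positivity
  constructor
  · intro s
    have h := NN_prod hρ (fun i => lg (a i : ℚ) ^ (J i : ℕ))
      (fun i => NN_pow hρ (NN_lg hA (ha i)) _) s
    have h1 : |PowerSeries.coeff s (ff a J)| * (1 / (2 * (A : ℚ))) ^ s ≤ 1 := by
      refine le_trans ?_ h
      exact Finset.single_le_sum
        (f := fun s => |PowerSeries.coeff s (∏ i, lg (a i : ℚ) ^ (J i : ℕ))| *
          (1 / (2 * (A : ℚ))) ^ s) (fun i _ => by positivity)
        (Finset.mem_range.2 (Nat.lt_succ_self s))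
    rw [one_div, inv_pow] at h1
    rw [← div_eq_mul_inv, div_le_iff₀ (by positivity), one_mul] at h1
    exact h1
  · intro S
    have h := Den_prod (l := (Nat.lcmUpto S : ℤ)) (S := S) Finset.univ
      (fun i => lg (a i : ℚ) ^ (J i : ℕ)) (fun i => (J i : ℕ))
      (fun i => Den_pow (Den_lg S (a i)) _)
    have hle : ∑ i, (J i : ℕ) ≤ r * B := by
      calc ∑ i, (J i : ℕ) ≤ ∑ _i : Fin r, B :=
            Finset.sum_le_sum fun i _ => Nat.lt_succ_iff.1 (J i).isLt
        _ = r * B := by simp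
    have h2 := Den_mono hle h
    intro s hs
    obtain ⟨x, hx⟩ := h2 s hs
    refine ⟨x, ?_⟩
    rw [← hx]
    push_cast
    rfl

end Pool.Agent.KBD
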