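import Pool.Agent.KBD.Targets

set_option autoImplicit false

/-!
# KBD: degree of the determinant
-/

namespace Pool.Agent.KBD

open Finset Polynomial
open scoped BigOperators

namespace DEG_

lemma lin_deg (b : ℚ) : (1 + C b * X : Polynomial ℚ).natDegree ≤ 1 := by
  refine (natDegree_add_le _ _).trans ?_
  rw [natDegree_one]
  exact max_le (Nat.zero_le _) ((natDegree_C_mul_le _ _).trans natDegree_X_le)

lemma TT_deg {r : ℕ} (a : Fin r → ℕ) : (TT a).natDegree ≤ r := by
  unfold TT
  refine (natDegree_prod_le _ _).trans ?_
  refine (sum_le_sum fun i _ => lin_deg (a i : ℚ)).trans ?_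
  simp

lemma Ti_deg {r : ℕ} (a : Fin r → ℕ) (i : Fin r) : (Ti a i).natDegree ≤ r := by
  unfold Ti
  refine (natDegree_C_mul_le _ _).trans ?_
  refine (natDegree_prod_le _ _).trans ?_
  refine (sum_le_sum fun i _ => lin_deg (a i : ℚ)).trans ?_
  simp

lemma VV_deg {r B m : ℕ} (a : Fin r → ℕ) (P : Bx r B → Polynomial ℚ)
    (hP : ∀ J, (P J).natDegree ≤ m) (k : ℕ) :
    ∀ J, (VV a P k J).natDegree ≤ m + k * r := by
  induction k with
  | zero =>
    intro J
    simpa [VV] using hP J
  | succ k ih =>
    intro J
    have hTT := TT_deg a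
    simp only [VV]
    have t1 : (TT a * derivative (VV a P k J)).natDegree ≤ m + (k + 1) * r := by
      refine natDegree_mul_le.trans ?_
      have h1 := natDegree_derivative_le (VV a P k J)
      have h2 := ih J
      have h3 : (k + 1) * r = k * r + r := by ring
      omega
    have t2 : ((k : Polynomial ℚ) * derivative (TT a) * VV a P k J).natDegree ≤
        m + (k + 1) * r := by
      refine natDegree_mul_le.trans ?_
      have h0 : ((k : Polynomial ℚ) * derivative (TT a)).natDegree ≤ r := by
        refine natDegree_mul_le.trans ?_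
        rw [natDegree_natCast, zero_add]
        have h1 := natDegree_derivative_le (TT a)
        omega
      have h2 := ih J
      have h3 : (k + 1) * r = k * r + r := by ring
      omega
    have t3 : (∑ i, ((J i : ℕ) : Polynomial ℚ) * Ti a i * VV a P k (dn J i)).natDegree ≤
        m + (k + 1) * r := by
      refine natDegree_sum_le_of_forall_le _ _ fun i _ => ?_
      refine natDegree_mul_le.trans ?_
      have h0 : (((J i : ℕ) : Polynomial ℚ) * Ti a i).natDegree ≤ r := by
        refine natDegree_mul_le.trans ?_
        rw [natDegree_natCast, zero_add]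
        exact Ti_deg a i
      have h2 := ih (dn J i)
      have h3 : (k + 1) * r = k * r + r := by ring
      omega
    refine (natDegree_sub_le _ _).trans (max_le ?_ t3)
    exact (natDegree_sub_le _ _).trans (max_le t1 t2)

lemma card_Bx (r B : ℕ) : Fintype.card (Bx r B) = (B + 1) ^ r := by
  simp [Bx]

end DEG_

open DEG_ in
theorem p_DEG : T_DEG := by
  intro r B m a P hP
  have e : WW a P = ∑ σ : Equiv.Perm (Bx r B), Equiv.Perm.sign σ •
      ∏ i, VV a P (num (σ i)) i := Matrix.det_apply _
  rw [e]
  refine natDegree_sum_le_of_forall_le _ _ fun σ _ => ?_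
  refine (natDegree_smul_le _ _).trans ?_
  refine (natDegree_prod_le _ _).trans ?_
  have hnum : ∀ K : Bx r B, num K ≤ (B + 1) ^ r := by
    intro K
    have h : num K < Fintype.card (Bx r B) := (Fintype.equivFin (Bx r B) K).isLt
    rw [card_Bx] at h
    exact h.le
  have h1 : ∀ K : Bx r B, (VV a P (num (σ K)) K).natDegree ≤ m + (B + 1) ^ r * r := by
    intro K
    refine (VV_deg a P hP _ K).trans ?_
    exact Nat.add_le_add_left (Nat.mul_le_mul_right _ (hnum _)) _
  refine (sum_le_sum fun K _ => h1 K).trans ?_
  rw [sum_const, card_univ, card_Bx, smul_eq_mul]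
  apply le_of_eq
  ring

end Pool.Agent.KBD
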