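import Pool.Agent.KBD.Targets

set_option autoImplicit false

/-!
# KBD, entry DEN: denominators
-/

namespace Pool.Agent.KBD

open Finset
open scoped BigOperators

namespace DEN_

/-- integrality of the coefficients up to `k` -/
def Den (k : ℕ) (D W : ℤ) (E : ℕ) (c : ℚ) (F : PowerSeries ℚ) : Prop :=
  ∀ j ≤ k, ∃ x : ℤ, (D : ℚ) ^ E * (W : ℚ) ^ j * PowerSeries.coeff j F * c = x

variable {k : ℕ} {D W : ℤ}

theorem Den.mul {E1 E2 : ℕ} {c1 c2 : ℚ} {F1 F2 : PowerSeries ℚ} (h1 : Den k D W E1 c1 F1)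
    (h2 : Den k D W E2 c2 F2) : Den k D W (E1 + E2) (c1 * c2) (F1 * F2) := by
  intro j hj
  have h : ∀ p : ℕ × ℕ, ∃ x : ℤ, p ∈ antidiagonal j →
      (D : ℚ) ^ (E1 + E2) * (W : ℚ) ^ j * (PowerSeries.coeff p.1 F1 * PowerSeries.coeff p.2 F2) *
        (c1 * c2) = x := by
    intro p
    by_cases hp : p ∈ antidiagonal j
    · have hp' := mem_antidiagonal.1 hp
      obtain ⟨x, hx⟩ := h1 p.1 (by omega)
      obtain ⟨y, hy⟩ := h2 p.2 (by omega)
      refine ⟨x * y, fun _ => ?_⟩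
      push_cast
      rw [← hx, ← hy, ← hp']
      ring
    · exact ⟨0, fun h => absurd h hp⟩
  choose x hx using h
  refine ⟨∑ p ∈ antidiagonal j, x p, ?_⟩
  rw [PowerSeries.coeff_mul, mul_sum, sum_mul]
  push_cast
  exact sum_congr rfl hx

theorem Den.mono {E1 E2 : ℕ} {c : ℚ} {F : PowerSeries ℚ} (h : Den k D W E1 c F) (hE : E1 ≤ E2) :
    Den k D W E2 c F := by
  intro j hj
  obtain ⟨x, hx⟩ := h j hj
  refine ⟨D ^ (E2 - E1) * x, ?_⟩
  push_cast
  rw [← hx]
  have : (D : ℚ) ^ E2 = (D : ℚ) ^ (E2 - E1) * (D : ℚ) ^ E1 := by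
    rw [← pow_add]; congr 1; omega
  rw [this]
  ring

theorem Den.neg {E : ℕ} {c : ℚ} {F : PowerSeries ℚ} (h : Den k D W E c F) :
    Den k D W E c (-F) := by
  intro j hj
  obtain ⟨x, hx⟩ := h j hj
  refine ⟨-x, ?_⟩
  rw [map_neg]
  push_cast
  rw [← hx]
  ring

theorem Den.sum {ι : Type*} {s : Finset ι} {E : ℕ} {c : ℚ} {F : ι → PowerSeries ℚ}
    (h : ∀ i ∈ s, Den k D W E c (F i)) : Den k D W E c (∑ i ∈ s, F i) := by
  intro j hj
  have h' : ∀ i, ∃ x : ℤ, i ∈ s → (D : ℚ) ^ E * (W : ℚ) ^ j * PowerSeries.coeff j (F i) * c = x := by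
    intro i
    by_cases hi : i ∈ s
    · obtain ⟨x, hx⟩ := h i hi j hj
      exact ⟨x, fun _ => hx⟩
    · exact ⟨0, fun h => absurd h hi⟩
  choose x hx using h'
  refine ⟨∑ i ∈ s, x i, ?_⟩
  rw [map_sum, mul_sum, sum_mul]
  push_cast
  exact sum_congr rfl hx

theorem Den.one : Den k D W 0 1 1 := by
  intro j hj
  refine ⟨if j = 0 then 1 else 0, ?_⟩
  rw [PowerSeries.coeff_one]
  by_cases h : j = 0 <;> simp [h]

theorem Den.nat (n : ℕ) : Den k D W 0 1 (n : PowerSeries ℚ) := by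
  intro j hj
  refine ⟨if j = 0 then n else 0, ?_⟩
  rw [← map_natCast (PowerSeries.C (R := ℚ)), PowerSeries.coeff_C]
  by_cases h : j = 0 <;> simp [h]

theorem Den.pow {E : ℕ} {F : PowerSeries ℚ} (h : Den k D W E 1 F) (n : ℕ) :
    Den k D W (n * E) 1 (F ^ n) := by
  induction n with
  | zero => simpa using Den.one
  | succ n ih =>
    have := ih.mul h
    rw [mul_one] at this
    rw [pow_succ, Nat.succ_mul]
    exact this

theorem Den.prod {ι : Type*} (s : Finset ι) {E : ι → ℕ} {F : ι → PowerSeries ℚ}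
    (h : ∀ i ∈ s, Den k D W (E i) 1 (F i)) : Den k D W (∑ i ∈ s, E i) 1 (∏ i ∈ s, F i) := by
  classical
  induction s using Finset.induction_on with
  | empty => simpa using Den.one
  | insert a s ha ih =>
    rw [sum_insert ha, prod_insert ha]
    have := (h a (mem_insert_self a s)).mul (ih fun i hi => h i (mem_insert_of_mem hi))
    rwa [mul_one] at this

/-- the logarithms -/
theorem den_lg {b : ℚ} {y : ℤ} (hb : (W : ℚ) * b = y) :
    Den k (Nat.lcmUpto k : ℤ) W 1 1 (lg b) := by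
  intro j hj
  rcases Nat.eq_zero_or_pos j with rfl | hj0
  · exact ⟨0, by simp [lg]⟩
  · have hd : j ∣ Nat.lcmUpto k := by
      unfold Nat.lcmUpto
      exact Finset.dvd_lcm (f := id) (mem_Icc.2 ⟨hj0, hj⟩)
    obtain ⟨q, hq⟩ := hd
    refine ⟨-(q * (-y) ^ j), ?_⟩
    have hj' : (j : ℚ) ≠ 0 := by exact_mod_cast hj0.ne'
    rw [lg, PowerSeries.coeff_mk, hq]
    push_cast
    rw [← hb]
    field_simp
    ring

/-- the Taylor polynomials -/
theorem den_ty {m N : ℕ} {c : ℚ} (hN : 1 ≤ N) {p : Polynomial ℚ} (hp : p.natDegree ≤ m)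
    (hc : ∀ s, ∃ x : ℤ, c * p.coeff s = x) :
    Den k D W 0 ((N : ℚ) ^ m * c) (ty (1 / (N : ℚ)) p) := by
  intro j hj
  choose x hx using hc
  have hN' : (N : ℚ) ≠ 0 := by exact_mod_cast (by omega : N ≠ 0)
  rw [ty, Polynomial.coeff_coe, Polynomial.taylor_coeff, Polynomial.hasseDeriv_apply,
    Polynomial.sum_def, Polynomial.eval_finsetSum]
  refine ⟨∑ s ∈ p.support, W ^ j * (s.choose j) * x s * (N : ℤ) ^ (m - (s - j)), ?_⟩
  rw [pow_zero, one_mul, mul_sum, sum_mul]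
  push_cast
  refine sum_congr rfl fun s hs => ?_
  have hsm : s ≤ m := (Polynomial.le_natDegree_of_mem_supp s hs).trans hp
  rw [Polynomial.eval_monomial, ← hx]
  have h1 : (N : ℚ) ^ m = (N : ℚ) ^ (m - (s - j)) * (N : ℚ) ^ (s - j) := by
    rw [← pow_add]; congr 1; omega
  rw [h1, one_div, inv_pow]
  field_simp

end DEN_

open DEN_

theorem p_DEN : T_DEN := by
  intro r B m k N a P hN hdeg hint J
  set W : ℤ := ∏ i, ((N : ℤ) + a i) with hW
  have hWq : (W : ℚ) = ∏ i, ((N : ℚ) + a i) := by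
    rw [hW]; push_cast; rfl
  set c : ℚ := (Nat.lcmUpto m : ℚ) ^ (r * B) with hc
  have hl : ∀ i, Den k (Nat.lcmUpto k : ℤ) W 1 1 (lg (sl a (1 / (N : ℚ)) i)) := by
    intro i
    have hb : (W : ℚ) * sl a (1 / (N : ℚ)) i =
        ((a i * N * ∏ l ∈ univ.erase i, ((N : ℤ) + a l) : ℤ) : ℚ) := by
      rw [hWq, ← mul_prod_erase univ _ (mem_univ i), sl]
      have h1 : (N : ℚ) ≠ 0 := by exact_mod_cast (by omega : N ≠ 0)
      have h2 : (N : ℚ) + a i ≠ 0 := by positivity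
      have h3 : (1 : ℚ) + a i * (1 / N) ≠ 0 := by positivity
      push_cast
      field_simp
    exact den_lg hb
  have hg : Den k (Nat.lcmUpto k : ℤ) W (r * B) ((N : ℚ) ^ m * c)
      (g0 a (1 / (N : ℚ)) P J) := by
    rw [g0, gg]
    refine Den.sum fun I _ => ?_
    have h1 := (Den.nat (k := k) (D := (Nat.lcmUpto k : ℤ)) (W := W) (bin I J)).mul
      (Den.prod univ fun i _ => (hl i).neg.pow ((J i : ℕ) - (I i : ℕ)))
    have h2 := h1.mul (den_ty (k := k) (D := (Nat.lcmUpto k : ℤ)) (W := W) hN (hdeg I)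
      (fun s => hint I s))
    refine (Den.mono (by simpa using h2) ?_)
    calc ∑ i : Fin r, ((J i : ℕ) - (I i : ℕ)) ≤ ∑ _i : Fin r, B := by
          refine sum_le_sum fun i _ => ?_
          have := (J i).isLt
          omega
      _ = r * B := by simp
  obtain ⟨x, hx⟩ := hg k le_rfl
  refine ⟨x, ?_⟩
  rw [← hx, pk, hWq, hc]
  push_cast
  ring

end Pool.Agent.KBD
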