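import Pool.Agent.KBD.Targets

set_option autoImplicit false

/-!
# ELIM: elimination by a dimension count
-/

namespace Pool.Agent.KBD

open Finset
open scoped BigOperators

namespace ELIM_

/-- span of the monomials with exponents at most `e` -/
noncomputable def Mo {s : ℕ} (x : Fin s → ℂ) (e : Fin s → ℕ) : Submodule ℚ ℂ :=
  Submodule.span ℚ {z | ∃ α : Fin s → ℕ, (∀ i, α i ≤ e i) ∧ z = ∏ i, x i ^ α i}

variable {s : ℕ} {x : Fin s → ℂ}

theorem mono_mem {e α : Fin s → ℕ} (h : ∀ i, α i ≤ e i) : ∏ i, x i ^ α i ∈ Mo x e :=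
  Submodule.subset_span ⟨α, h, rfl⟩

theorem Mo_mono {e f : Fin s → ℕ} (h : ∀ i, e i ≤ f i) : Mo x e ≤ Mo x f := by
  apply Submodule.span_mono
  rintro z ⟨α, hα, rfl⟩
  exact ⟨α, fun i => (hα i).trans (h i), rfl⟩

theorem Mo_mul (e f : Fin s → ℕ) : Mo x e * Mo x f ≤ Mo x (fun i => e i + f i) := by
  unfold Mo
  rw [Submodule.span_mul_span]
  apply Submodule.span_mono
  rintro _ ⟨_, ⟨α, hα, rfl⟩, _, ⟨β, hβ, rfl⟩, rfl⟩
  refine ⟨fun i => α i + β i, fun i => add_le_add (hα i) (hβ i), ?_⟩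
  simp only [pow_add, Finset.prod_mul_distrib]

theorem one_mem (e : Fin s → ℕ) : (1 : ℂ) ∈ Mo x e := by
  have h := mono_mem (x := x) (e := e) (α := fun _ => 0) (fun i => Nat.zero_le _)
  simpa using h

theorem mul_mem {e f : Fin s → ℕ} {u v : ℂ} (hu : u ∈ Mo x e) (hv : v ∈ Mo x f) :
    u * v ∈ Mo x (fun i => e i + f i) :=
  Mo_mul e f (Submodule.mul_mem_mul hu hv)

theorem pow_mem {e : Fin s → ℕ} {u : ℂ} (hu : u ∈ Mo x e) (n : ℕ) :
    u ^ n ∈ Mo x (fun i => n * e i) := by
  induction n with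
  | zero => rw [pow_zero]; exact one_mem _
  | succ n ih =>
    rw [pow_succ]
    refine Mo_mono (fun i => ?_) (mul_mem ih hu)
    exact le_of_eq (by ring)

theorem prod_mem {ι : Type} (t : Finset ι) (e : ι → Fin s → ℕ) (z : ι → ℂ)
    (h : ∀ i ∈ t, z i ∈ Mo x (e i)) : ∏ i ∈ t, z i ∈ Mo x (fun l => ∑ i ∈ t, e i l) := by
  classical
  induction t using Finset.induction_on with
  | empty => rw [Finset.prod_empty]; exact one_mem _
  | insert a t ha ih =>
    rw [Finset.prod_insert ha]
    refine Mo_mono (fun l => ?_) (mul_mem (h a (Finset.mem_insert_self a t))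
      (ih fun i hi => h i (Finset.mem_insert_of_mem hi)))
    rw [Finset.sum_insert ha]

theorem mm {P P' R R' : Submodule ℚ ℂ} (h : P ≤ P') (h' : R ≤ R') {z : ℂ} (hz : z ∈ P * R) :
    z ∈ P' * R' :=
  (mul_le_mul' h h' : P * R ≤ P' * R') hz

/-- one relation -/
theorem rel_data {k D : ℕ} {θ : Fin k → ℂ} {y : ℂ} (h : Rel D θ y) :
    ∃ (A : ℕ → ℂ) (d : ℕ), 1 ≤ d ∧ d ≤ D ∧ A d ≠ 0 ∧ (∀ j, A j ∈ Mo θ (fun _ => D)) ∧
      A d * y ^ d = - ∑ j ∈ range d, A j * y ^ j := by
  classical
  obtain ⟨c, ⟨j0, hj0⟩, hsum⟩ := h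
  set a : Fin (D + 1) → ℂ := fun j => ∑ α, (c j α : ℂ) * ∏ i, θ i ^ (α i : ℕ) with ha
  set A : ℕ → ℂ := fun j => if h : j < D + 1 then a ⟨j, h⟩ else 0 with hA
  have hAfin : ∀ j : Fin (D + 1), A (j : ℕ) = a j := by
    intro j
    rw [hA]
    simp only [j.isLt, dif_pos]
  have hmem : ∀ j, A j ∈ Mo θ (fun _ => D) := by
    intro j
    rw [hA]
    dsimp only
    split_ifs with h
    · rw [ha]
      refine Submodule.sum_mem _ fun α _ => ?_
      have h1 : ∏ i, θ i ^ (α i : ℕ) ∈ Mo θ (fun _ => D) :=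
        mono_mem (fun i => Nat.lt_succ_iff.1 (α i).isLt)
      have h2 := Submodule.smul_mem (Mo θ (fun _ => D)) ((c ⟨j, h⟩ α : ℤ) : ℚ) h1
      rw [Rat.smul_def] at h2
      simpa using h2
    · exact Submodule.zero_mem _
  have hs : ∑ j ∈ range (D + 1), A j * y ^ j = 0 := by
    rw [Finset.sum_range, ← hsum]
    refine Finset.sum_congr rfl fun j _ => ?_
    rw [hAfin]
  have hj0' : A j0 ≠ 0 := by rw [hAfin]; exact hj0
  set d := Nat.findGreatest (fun j => A j ≠ 0) D with hd
  have hd1 : A d ≠ 0 := Nat.findGreatest_spec (P := fun j => A j ≠ 0)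
    (Nat.lt_succ_iff.1 j0.isLt) hj0'
  have hd2 : d ≤ D := Nat.findGreatest_le D
  have hd3 : ∀ j, d < j → j ≤ D → A j = 0 := by
    intro j h1 h2
    by_contra h3
    exact Nat.findGreatest_is_greatest h1 h2 h3
  have hs2 : ∑ j ∈ range (d + 1), A j * y ^ j = 0 := by
    rw [← hs]
    refine Finset.sum_subset (fun j hj => ?_) (fun j hj hj' => ?_)
    · rw [Finset.mem_range] at hj ⊢; omega
    · rw [Finset.mem_range] at hj hj'
      rw [hd3 j (by omega) (by omega), zero_mul]
  rw [Finset.sum_range_succ] at hs2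
  refine ⟨A, d, ?_, hd2, hd1, hmem, ?_⟩
  · by_contra h0
    have h0' : d = 0 := by omega
    rw [h0'] at hs2 hd1
    simp at hs2
    exact hd1 hs2
  · linear_combination hs2

/-- powers of the leading coefficient -/
theorem pow_red {k D d : ℕ} {θ : Fin k → ℂ} {y : ℂ} {A : ℕ → ℂ} (hd : 1 ≤ d)
    (hA : ∀ j, A j ∈ Mo θ (fun _ => D)) (hrel : A d * y ^ d = - ∑ j ∈ range d, A j * y ^ j)
    (e : ℕ) : A d ^ e * y ^ e ∈
      Mo θ (fun _ => e * D) * Submodule.span ℚ {z : ℂ | ∃ β < d, z = y ^ β} := by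
  set Y : Submodule ℚ ℂ := Submodule.span ℚ {z : ℂ | ∃ β < d, z = y ^ β} with hY
  have hy : ∀ β, β < d → y ^ β ∈ Y := fun β hβ => Submodule.subset_span ⟨β, hβ, rfl⟩
  have step : ∀ u ∈ Y, (A d * y) * u ∈ Mo θ (fun _ => D) * Y := by
    intro u hu
    rw [hY] at hu
    induction hu using Submodule.span_induction with
    | mem z hz =>
      obtain ⟨β, hβ, rfl⟩ := hz
      by_cases h1 : β + 1 < d
      · have : A d * y * y ^ β = A d * y ^ (β + 1) := by ring
        rw [this]
        exact Submodule.mul_mem_mul (hA d) (hy _ h1)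
      · have h2 : β + 1 = d := by omega
        have : A d * y * y ^ β = A d * y ^ d := by rw [← h2]; ring
        rw [this, hrel]
        refine Submodule.neg_mem _ (Submodule.sum_mem _ fun j hj => ?_)
        exact Submodule.mul_mem_mul (hA j) (hy j (Finset.mem_range.1 hj))
    | zero => rw [mul_zero]; exact Submodule.zero_mem _
    | add z z' _ _ h1 h2 => rw [mul_add]; exact Submodule.add_mem _ h1 h2
    | smul r z _ h1 =>
      rw [mul_smul_comm]
      exact Submodule.smul_mem _ r h1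
  induction e with
  | zero =>
    rw [pow_zero, pow_zero]
    exact Submodule.mul_mem_mul (one_mem _) (by simpa using hy 0 hd)
  | succ e ih =>
    have key : ∀ w ∈ Mo θ (fun _ => e * D) * Y,
        (A d * y) * w ∈ Mo θ (fun _ => (e + 1) * D) * Y := by
      intro w hw
      induction hw using Submodule.mul_induction_on' with
      | mem_mul_mem m hm n hn =>
        have h1 : (A d * y) * (m * n) = m * ((A d * y) * n) := by ring
        rw [h1]
        have h2 := Submodule.mul_mem_mul hm (step n hn)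
        rw [← mul_assoc] at h2
        refine mm ?_ le_rfl h2
        refine (Mo_mul _ _).trans (Mo_mono fun i => ?_)
        exact le_of_eq (by ring)
      | add m _ n _ h1 h2 => rw [mul_add]; exact Submodule.add_mem _ h1 h2
    have h3 := key _ ih
    have h4 : A d ^ (e + 1) * y ^ (e + 1) = A d * y * (A d ^ e * y ^ e) := by ring
    rw [h4]
    exact h3

theorem pow_red' {k s D d q e : ℕ} {θ : Fin k → ℂ} {y : Fin s → ℂ} {i : Fin s} {A : ℕ → ℂ}
    (hd : 1 ≤ d) (hdD : d ≤ D)
    (hA : ∀ j, A j ∈ Mo θ (fun _ => D))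
    (hrel : A d * y i ^ d = - ∑ j ∈ range d, A j * y i ^ j) (he : e ≤ q) :
    A d ^ q * y i ^ e ∈ Mo θ (fun _ => q * D) * Mo y (fun l => if l = i then D else 0) := by
  have h1 := pow_red hd hA hrel e
  have h2 : A d ^ q * y i ^ e = A d ^ (q - e) * (A d ^ e * y i ^ e) := by
    rw [← mul_assoc, ← pow_add, Nat.sub_add_cancel he]
  rw [h2]
  have h3 := Submodule.mul_mem_mul (pow_mem (hA d) (q - e)) h1
  rw [← mul_assoc] at h3
  refine mm ?_ ?_ h3
  · refine (Mo_mul _ _).trans (Mo_mono fun l => ?_)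
    rw [← add_mul, Nat.sub_add_cancel he]
  · rw [Submodule.span_le]
    rintro _ ⟨β, hβ, rfl⟩
    have h4 := mono_mem (x := y) (e := fun l => if l = i then D else 0)
      (α := fun l => if l = i then β else 0) (fun l => by
        split_ifs
        · omega
        · exact le_rfl)
    have h5 : ∏ l, y l ^ (if l = i then β else 0) = y i ^ β := by
      rw [Finset.prod_eq_single i]
      · rw [if_pos rfl]
      · intro b _ hb; rw [if_neg hb, pow_zero]
      · intro h; exact absurd (Finset.mem_univ i) h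
    rw [h5] at h4
    exact h4

/-- product over a set of indices -/
theorem prod_red {k s D q : ℕ} {θ : Fin k → ℂ} {y : Fin s → ℂ} {b : Fin s → ℂ}
    (hb : ∀ i, ∀ e ≤ q, b i * y i ^ e ∈
      Mo θ (fun _ => q * D) * Mo y (fun l => if l = i then D else 0))
    (α : Fin s → ℕ) (hα : ∀ i, α i ≤ q) (t : Finset (Fin s)) :
    ∏ i ∈ t, (b i * y i ^ α i) ∈
      Mo θ (fun _ => t.card * (q * D)) * Mo y (fun l => if l ∈ t then D else 0) := by
  induction t using Finset.induction_on with
  | empty =>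
    rw [Finset.prod_empty, ← one_mul (1 : ℂ)]
    exact Submodule.mul_mem_mul (one_mem _) (one_mem _)
  | insert a t ha ih =>
    rw [Finset.prod_insert ha]
    have h1 := Submodule.mul_mem_mul (hb a (α a) (hα a)) ih
    rw [mul_mul_mul_comm] at h1
    refine mm ((Mo_mul _ _).trans (Mo_mono fun i => ?_))
      ((Mo_mul _ _).trans (Mo_mono fun l => ?_)) h1
    · rw [Finset.card_insert_of_notMem ha]
      exact le_of_eq (by ring)
    · by_cases h2 : l = a
      · rw [if_pos h2, if_neg (by rw [h2]; exact ha), if_pos (by rw [h2]; simp)]; simp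
      · rw [if_neg h2]
        by_cases h3 : l ∈ t
        · rw [if_pos h3, if_pos (Finset.mem_insert_of_mem h3)]; simp
        · rw [if_neg h3]; simp

/-- the differences -/
theorem diff_mem {k B : ℕ} {y : Fin (k + 2) → ℂ} (J : Bx (k + 1) B) :
    ∏ i, (y (Fin.succ i) - y 0) ^ (J i : ℕ) ∈ Mo y (fun _ => (k + 1) * B) := by
  have h0 : ∀ i : Fin (k + 1), y (Fin.succ i) - y 0 ∈
      Mo y (fun l => if l = 0 then 1 else if l = Fin.succ i then 1 else 0) := by
    intro i
    have h1 : ∀ j : Fin (k + 2), (j = 0 ∨ j = Fin.succ i) → y j ∈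
        Mo y (fun l => if l = 0 then 1 else if l = Fin.succ i then 1 else 0) := by
      intro j hj
      have h4 := mono_mem (x := y)
        (e := fun l => if l = 0 then 1 else if l = Fin.succ i then 1 else 0)
        (α := fun l => if l = j then 1 else 0) (fun l => by
          by_cases hl : l = j
          · rw [if_pos hl]
            rcases hj with h | h
            · rw [if_pos (hl.trans h)]
            · rw [if_pos (hl.trans h)]; split_ifs <;> exact le_rfl
          · rw [if_neg hl]; exact Nat.zero_le _)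
      have h5 : ∏ l, y l ^ (if l = j then 1 else 0) = y j := by
        rw [Finset.prod_eq_single j]
        · rw [if_pos rfl, pow_one]
        · intro b _ hb; rw [if_neg hb, pow_zero]
        · intro h; exact absurd (Finset.mem_univ j) h
      rw [h5] at h4
      exact h4
    exact Submodule.sub_mem _ (h1 _ (Or.inr rfl)) (h1 _ (Or.inl rfl))
  have h2 := prod_mem (x := y) (Finset.univ : Finset (Fin (k + 1))) _
    (fun i => (y (Fin.succ i) - y 0) ^ (J i : ℕ)) (fun i _ => pow_mem (h0 i) (J i : ℕ))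
  refine Mo_mono (fun l => ?_) h2
  calc ∑ i : Fin (k + 1), (J i : ℕ) * (if l = 0 then 1 else if l = Fin.succ i then 1 else 0)
      ≤ ∑ _i : Fin (k + 1), B := by
        refine Finset.sum_le_sum fun i _ => ?_
        have h3 := Nat.lt_succ_iff.1 (J i).isLt
        split_ifs <;> omega
    _ = (k + 1) * B := by simp

theorem dim_count (k D : ℕ) :
    ((k + 2) * ((k + 1) * BE k D * D) + 1) ^ k * (D + 1) ^ (k + 2) < (BE k D + 1) ^ (k + 1) := by
  set B := BE k D with hB
  have hB1 : 1 ≤ B := by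
    rw [hB]; unfold BE; exact Nat.one_le_iff_ne_zero.2 (by positivity)
  have h1 : (k + 2) * ((k + 1) * B * D) + 1 ≤ B * ((k + 2) * (k + 1) * D + 1) := by
    nlinarith
  have h2 : ((k + 2) * ((k + 1) * B * D) + 1) ^ k * (D + 1) ^ (k + 2) ≤
      (B * ((k + 2) * (k + 1) * D + 1)) ^ k * (D + 1) ^ (k + 2) :=
    Nat.mul_le_mul (Nat.pow_le_pow_left h1 k) le_rfl
  have h3 : (B * ((k + 2) * (k + 1) * D + 1)) ^ k * (D + 1) ^ (k + 2) = B ^ (k + 1) := by
    rw [mul_pow, mul_assoc, pow_succ]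
    congr 1
  have h4 : B ^ (k + 1) < (B + 1) ^ (k + 1) := Nat.pow_lt_pow_left (Nat.lt_succ_self B) (by omega)
  omega

/-- the finite dimensional space -/
theorem fin_span {k s E D : ℕ} (θ : Fin k → ℂ) (y : Fin s → ℂ) :
    Mo θ (fun _ => E) * Mo y (fun _ => D) ≤ Submodule.span ℚ (Set.range
      (fun p : Bx k E × Bx s D => (∏ i, θ i ^ (p.1 i : ℕ)) * ∏ i, y i ^ (p.2 i : ℕ))) := by
  unfold Mo
  rw [Submodule.span_mul_span]
  apply Submodule.span_mono
  rintro _ ⟨_, ⟨α, hα, rfl⟩, _, ⟨β, hβ, rfl⟩, rfl⟩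
  exact ⟨(fun i => ⟨α i, Nat.lt_succ_iff.2 (hα i)⟩, fun i => ⟨β i, Nat.lt_succ_iff.2 (hβ i)⟩), rfl⟩

end ELIM_

open ELIM_ in
theorem p_ELIM : T_ELIM := by
  intro k D θ y hrel
  set B := BE k D with hB
  set q := (k + 1) * B with hq
  choose A d hd hdD hA0 hA hr using fun i => rel_data (hrel i)
  set b : Fin (k + 2) → ℂ := fun i => A i (d i) ^ q with hb
  have hbi : ∀ i, ∀ e ≤ q, b i * y i ^ e ∈
      Mo θ (fun _ => q * D) * Mo y (fun l => if l = i then D else 0) :=
    fun i e he => pow_red' (hd i) (hdD i) (hA i) (hr i) he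
  set bb : ℂ := ∏ i, b i with hbb
  have hbb0 : bb ≠ 0 := by
    rw [hbb]
    exact Finset.prod_ne_zero_iff.2 fun i _ => pow_ne_zero q (hA0 i)
  set E := (k + 2) * (q * D) with hE
  set F : Bx k E × Bx (k + 2) D → ℂ :=
    fun p => (∏ i, θ i ^ (p.1 i : ℕ)) * ∏ i, y i ^ (p.2 i : ℕ) with hF
  set W : Submodule ℚ ℂ := Submodule.span ℚ (Set.range F) with hW
  have key : ∀ z ∈ Mo y (fun _ => q), bb * z ∈ W := by
    intro z hz
    unfold Mo at hz
    induction hz using Submodule.span_induction with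
    | mem z hz =>
      obtain ⟨α, hα, rfl⟩ := hz
      rw [hbb, ← Finset.prod_mul_distrib]
      have h1 := prod_red hbi α hα Finset.univ
      refine fin_span θ y ?_
      refine mm (Mo_mono fun _ => ?_) (Mo_mono fun l => ?_) h1
      · rw [Finset.card_univ, Fintype.card_fin]
      · rw [if_pos (Finset.mem_univ l)]
    | zero => rw [mul_zero]; exact Submodule.zero_mem _
    | add z z' _ _ h1 h2 => rw [mul_add]; exact Submodule.add_mem _ h1 h2
    | smul r z _ h1 =>
      rw [mul_smul_comm]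
      exact Submodule.smul_mem _ r h1
  have hmem : ∀ J : Bx (k + 1) B, bb * ∏ i, (y (Fin.succ i) - y 0) ^ (J i : ℕ) ∈ W :=
    fun J => key _ (diff_mem J)
  set v : Bx (k + 1) B → W := fun J => ⟨_, hmem J⟩ with hv
  have : FiniteDimensional ℚ W := FiniteDimensional.span_of_finite ℚ (Set.finite_range F)
  have hdim : Module.finrank ℚ W < Fintype.card (Bx (k + 1) B) := by
    have h1 : Module.finrank ℚ W ≤ Fintype.card (Bx k E × Bx (k + 2) D) :=
      finrank_range_le_card F
    have h2 : Fintype.card (Bx k E × Bx (k + 2) D) = (E + 1) ^ k * (D + 1) ^ (k + 2) := by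
      simp [Fintype.card_prod]
    have h3 : Fintype.card (Bx (k + 1) B) = (B + 1) ^ (k + 1) := by simp
    rw [h3]
    rw [h2] at h1
    exact lt_of_le_of_lt h1 (dim_count k D)
  have hli : ¬ LinearIndependent ℚ v := by
    intro h
    have := h.fintype_card_le_finrank
    omega
  obtain ⟨g, hg, j0, hj0⟩ := Fintype.not_linearIndependent_iff.1 hli
  obtain ⟨m, hm⟩ := IsLocalization.exist_integer_multiples_of_finite (nonZeroDivisors ℤ) g
  choose c hc using hm
  have hc' : ∀ J, ((c J : ℤ) : ℚ) = ((m : ℤ) : ℚ) * g J := by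
    intro J
    have := hc J
    rw [eq_intCast] at this
    rw [this, zsmul_eq_mul]
  have hm0 : ((m : ℤ) : ℚ) ≠ 0 := by
    exact_mod_cast nonZeroDivisors.coe_ne_zero m
  refine ⟨c, ?_, ?_⟩
  · intro h0
    have := hc' j0
    rw [h0] at this
    simp only [Pi.zero_apply, Int.cast_zero] at this
    rcases mul_eq_zero.1 this.symm with h | h
    · exact hm0 h
    · exact hj0 h
  · have h1 := congrArg (fun w : W => (w : ℂ)) hg
    simp only [Submodule.coe_sum, Submodule.coe_smul, ZeroMemClass.coe_zero, hv] at h1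
    have h2 : bb * ∑ J, (c J : ℂ) * ∏ i, (y (Fin.succ i) - y 0) ^ (J i : ℕ) = 0 := by
      have h3 : ∀ J, (c J : ℂ) = ((m : ℤ) : ℂ) * (g J : ℂ) := by
        intro J
        have := congrArg (fun r : ℚ => (r : ℂ)) (hc' J)
        push_cast at this
        exact this
      rw [Finset.mul_sum]
      calc ∑ J, bb * ((c J : ℂ) * ∏ i, (y (Fin.succ i) - y 0) ^ (J i : ℕ))
          = ((m : ℤ) : ℂ) * ∑ J, g J • (bb * ∏ i, (y (Fin.succ i) - y 0) ^ (J i : ℕ)) := by
            rw [Finset.mul_sum]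
            refine Finset.sum_congr rfl fun J _ => ?_
            rw [h3, Rat.smul_def]
            ring
        _ = 0 := by rw [h1, mul_zero]
    exact (mul_eq_zero.1 h2).resolve_left hbb0

end Pool.Agent.KBD
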