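import Pool.Agent.KBD.Targets

set_option autoImplicit false

/-! Kummer periods, bounded degree: algebraic independence of `log (1 + a_i / N)` in bounded
degree. -/

namespace Pool.Agent.KBD.G_

open Finset
open scoped BigOperators

theorem trivialCase (r B : ℕ) (h : (B + 1) ^ r = 1) (x : Fin r → ℝ) (c : Bx r B → ℤ)
    (hc : ∑ J, (c J : ℝ) * ∏ i, x i ^ (J i : ℕ) = 0) : c = 0 := by
  have h0 : ∀ (J : Bx r B) (i : Fin r), (J i : ℕ) = 0 := by
    intro J i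
    have hr : r ≠ 0 := by
      rintro rfl
      exact i.elim0
    have h1 : B + 1 = 1 := (Nat.pow_eq_one.mp h).resolve_right hr
    have := (J i).isLt
    omega
  have hs : Subsingleton (Bx r B) := by
    refine ⟨fun J J' => funext fun i => Fin.ext ?_⟩
    rw [h0 J i, h0 J' i]
  funext J
  have h1 : ∑ J', (c J' : ℝ) * ∏ i, x i ^ (J' i : ℕ) = (c J : ℝ) := by
    rw [Fintype.sum_subsingleton _ J]
    simp [h0]
  rw [h1] at hc
  exact_mod_cast hc

theorem expo (r B M L n m k σ : ℕ) (hM : 2 ≤ M) (hL : L = (r + 1) * M + 2)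
    (hm : m ≤ M * L * n) (hk : k ≤ M * L * n) (hσ : σ ≤ M * L * n) :
    r * B * (m + k) + r * k + σ + (r * B + 1) * (σ * L) + σ ≤
      12 * (r + 1) ^ 3 * (B + 1) * M ^ 3 * n := by
  set Y := M * L * n with hY
  have hL1 : 1 ≤ L := by omega
  have hL2 : L ≤ 2 * ((r + 1) * M) := by
    have : 2 ≤ (r + 1) * M := by nlinarith
    omega
  have e1 : r * B * (m + k) ≤ r * B * (2 * Y) := Nat.mul_le_mul_left _ (by omega)
  have e2 : r * k ≤ r * Y := Nat.mul_le_mul_left _ hk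
  have e3 : (r * B + 1) * (σ * L) ≤ (r * B + 1) * (Y * L) :=
    Nat.mul_le_mul_left _ (Nat.mul_le_mul_right _ hσ)
  have e4 : r * B * (2 * Y) + r * Y + Y + Y ≤ (2 * (r * B) + r + 2) * (Y * L) := by
    have : Y ≤ Y * L := Nat.le_mul_of_pos_right _ hL1
    calc r * B * (2 * Y) + r * Y + Y + Y = (2 * (r * B) + r + 2) * Y := by ring
      _ ≤ _ := Nat.mul_le_mul_left _ this
  have e5 : (2 * (r * B) + r + 2) * (Y * L) + (r * B + 1) * (Y * L) ≤
      3 * (r + 1) * (B + 1) * (Y * L) := by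
    rw [← Nat.add_mul]
    refine Nat.mul_le_mul_right _ ?_
    nlinarith
  have e6 : Y * L ≤ 4 * (r + 1) ^ 2 * M ^ 3 * n := by
    calc Y * L = M * n * (L * L) := by rw [hY]; ring
      _ ≤ M * n * ((2 * ((r + 1) * M)) * (2 * ((r + 1) * M))) :=
          Nat.mul_le_mul_left _ (Nat.mul_le_mul hL2 hL2)
      _ = _ := by ring
  calc r * B * (m + k) + r * k + σ + (r * B + 1) * (σ * L) + σ
      ≤ (r * B * (2 * Y) + r * Y + Y + Y) + (r * B + 1) * (Y * L) := by omega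
    _ ≤ (2 * (r * B) + r + 2) * (Y * L) + (r * B + 1) * (Y * L) := by omega
    _ ≤ 3 * (r + 1) * (B + 1) * (Y * L) := e5
    _ ≤ 3 * (r + 1) * (B + 1) * (4 * (r + 1) ^ 2 * M ^ 3 * n) := Nat.mul_le_mul_left _ e6
    _ = _ := by ring

/-- the size estimate -/
theorem size (r B M L n m k σ t A N : ℕ) (Λ X : ℝ) (hM : 2 ≤ M) (hL : L = (r + 1) * M + 2)
    (hA : 1 ≤ A) (hN : (880 * A) ^ (12 * (r + 1) ^ 3 * (B + 1) * M ^ 3) ≤ N)
    (hm : m ≤ M * L * n) (hk : k ≤ M * L * n) (hσ : σ ≤ M * L * n) (hmσ : m + 1 ≤ σ)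
    (ht : n + m + (r + 1) * k + t ≤ σ) (hX0 : 0 ≤ X)
    (hΛ : Λ ≤ (N : ℝ) ^ m * (220 ^ m) ^ (r * B) * (220 ^ k) ^ (r * B) * ((2 * N) ^ r) ^ k)
    (hX : X ≤ 2 ^ (r * B + 1) * (m + 1) * ((4 * 220 ^ (r * B) * A : ℕ) : ℝ) ^ (σ * L) *
      (N : ℝ) ^ k * (4 * (A : ℝ) / N) ^ σ) :
    Λ * X ≤ 2 ^ (r * B + 1) / 2 ^ t := by
  set G : ℝ := 880 * A with hG
  have hA' : (1 : ℝ) ≤ A := by exact_mod_cast hA
  have hG1 : 880 ≤ G := by rw [hG]; linarith
  have hG0 : (0 : ℝ) < G := by linarith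
  have hNG : G ^ (12 * (r + 1) ^ 3 * (B + 1) * M ^ 3) ≤ N := by
    rw [hG]; exact_mod_cast hN
  have hE1 : 1 ≤ 12 * (r + 1) ^ 3 * (B + 1) * M ^ 3 := by
    have : 0 < 12 * (r + 1) ^ 3 * (B + 1) * M ^ 3 := by positivity
    omega
  have hN1 : G ≤ N := by
    refine le_trans ?_ hNG
    calc G = G ^ 1 := by ring
      _ ≤ _ := pow_le_pow_right₀ (by linarith) hE1
  have hN0 : (0 : ℝ) < N := by linarith
  have hN2 : (2 : ℝ) ≤ N := by linarith
  -- the bracket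
  have c1 : ((220 : ℝ) ^ m) ^ (r * B) * (220 ^ k) ^ (r * B) ≤ G ^ (r * B * (m + k)) := by
    rw [← mul_pow, ← pow_add, ← pow_mul, mul_comm (m + k)]
    exact pow_le_pow_left₀ (by norm_num) (by linarith) _
  have c2 : (2 : ℝ) ^ (r * k) ≤ G ^ (r * k) := pow_le_pow_left₀ (by norm_num) (by linarith) _
  have c3 : (m : ℝ) + 1 ≤ G ^ σ := by
    have h1 : (m : ℝ) + 1 ≤ σ := by exact_mod_cast hmσ
    have h2 : (σ : ℝ) ≤ 2 ^ σ := by exact_mod_cast (Nat.lt_two_pow_self).le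
    exact h1.trans (h2.trans (pow_le_pow_left₀ (by norm_num) (by linarith) _))
  have c4 : ((4 * 220 ^ (r * B) * A : ℕ) : ℝ) ^ (σ * L) ≤ G ^ ((r * B + 1) * (σ * L)) := by
    rw [pow_mul G]
    refine pow_le_pow_left₀ (by positivity) ?_ _
    push_cast
    rw [pow_succ]
    have h1 : (220 : ℝ) ^ (r * B) ≤ G ^ (r * B) := pow_le_pow_left₀ (by norm_num) (by linarith) _
    have h2 : 4 * (A : ℝ) ≤ G := by rw [hG]; linarith
    calc 4 * (220 : ℝ) ^ (r * B) * A = 220 ^ (r * B) * (4 * A) := by ring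
      _ ≤ G ^ (r * B) * G := mul_le_mul h1 h2 (by positivity) (by positivity)
  have c5 : (4 * (A : ℝ)) ^ σ ≤ G ^ σ :=
    pow_le_pow_left₀ (by positivity) (by rw [hG]; linarith) _
  have hbr : ((220 : ℝ) ^ m) ^ (r * B) * (220 ^ k) ^ (r * B) * 2 ^ (r * k) * (m + 1) *
      ((4 * 220 ^ (r * B) * A : ℕ) : ℝ) ^ (σ * L) * (4 * (A : ℝ)) ^ σ ≤ (N : ℝ) ^ n := by
    have hle : G ^ (r * B * (m + k)) * G ^ (r * k) * G ^ σ * G ^ ((r * B + 1) * (σ * L)) * G ^ σ =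
        G ^ (r * B * (m + k) + r * k + σ + (r * B + 1) * (σ * L) + σ) := by
      rw [← pow_add, ← pow_add, ← pow_add, ← pow_add]
    calc _ ≤ G ^ (r * B * (m + k)) * G ^ (r * k) * G ^ σ * G ^ ((r * B + 1) * (σ * L)) * G ^ σ := by
          gcongr
      _ = G ^ (r * B * (m + k) + r * k + σ + (r * B + 1) * (σ * L) + σ) := hle
      _ ≤ G ^ (12 * (r + 1) ^ 3 * (B + 1) * M ^ 3 * n) :=
          pow_le_pow_right₀ (by linarith) (expo r B M L n m k σ hM hL hm hk hσ)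
      _ = (G ^ (12 * (r + 1) ^ 3 * (B + 1) * M ^ 3)) ^ n := by rw [pow_mul]
      _ ≤ (N : ℝ) ^ n := pow_le_pow_left₀ (by positivity) hNG n
  have hΛX : Λ * X ≤ ((N : ℝ) ^ m * (220 ^ m) ^ (r * B) * (220 ^ k) ^ (r * B) * ((2 * N) ^ r) ^ k) *
      (2 ^ (r * B + 1) * (m + 1) * ((4 * 220 ^ (r * B) * A : ℕ) : ℝ) ^ (σ * L) *
      (N : ℝ) ^ k * (4 * (A : ℝ) / N) ^ σ) :=
    mul_le_mul hΛ hX hX0 (by positivity)
  have hre : ((N : ℝ) ^ m * (220 ^ m) ^ (r * B) * (220 ^ k) ^ (r * B) * ((2 * N) ^ r) ^ k) *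
      (2 ^ (r * B + 1) * (m + 1) * ((4 * 220 ^ (r * B) * A : ℕ) : ℝ) ^ (σ * L) *
      (N : ℝ) ^ k * (4 * (A : ℝ) / N) ^ σ) =
      2 ^ (r * B + 1) * (((220 : ℝ) ^ m) ^ (r * B) * (220 ^ k) ^ (r * B) * 2 ^ (r * k) * (m + 1) *
      ((4 * 220 ^ (r * B) * A : ℕ) : ℝ) ^ (σ * L) * (4 * (A : ℝ)) ^ σ) *
      ((N : ℝ) ^ (m + (r + 1) * k) / N ^ σ) := by
    rw [← pow_mul, mul_pow 2 (N : ℝ), div_pow, pow_add (N : ℝ), add_mul, pow_add (N : ℝ), one_mul]
    ring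
  rw [hre] at hΛX
  refine hΛX.trans ?_
  have hlast : (N : ℝ) ^ n * ((N : ℝ) ^ (m + (r + 1) * k) / N ^ σ) ≤ 1 / 2 ^ t := by
    rw [← mul_div_assoc, div_le_div_iff₀ (by positivity) (by positivity), one_mul]
    calc (N : ℝ) ^ n * (N : ℝ) ^ (m + (r + 1) * k) * 2 ^ t
        ≤ (N : ℝ) ^ n * (N : ℝ) ^ (m + (r + 1) * k) * (N : ℝ) ^ t := by gcongr
      _ = (N : ℝ) ^ (n + m + (r + 1) * k + t) := by
          rw [← pow_add, ← pow_add]; congr 1; ring
      _ ≤ (N : ℝ) ^ σ := pow_le_pow_right₀ (by linarith) ht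
  calc _ ≤ 2 ^ (r * B + 1) * (N : ℝ) ^ n * ((N : ℝ) ^ (m + (r + 1) * k) / N ^ σ) := by gcongr
    _ = 2 ^ (r * B + 1) * ((N : ℝ) ^ n * ((N : ℝ) ^ (m + (r + 1) * k) / N ^ σ)) := by ring
    _ ≤ 2 ^ (r * B + 1) * (1 / 2 ^ t) := by gcongr
    _ = _ := by ring

/-- an integer combination of the rational approximations which is small vanishes -/
theorem vanish {r B : ℕ} (c : Bx r B → ℤ) (p : Bx r B → ℚ) (Λ : ℚ) (hΛ : 0 < Λ) (q : ℝ)
    (f : Bx r B → ℝ) (X : ℝ) (hint : ∀ J, ∃ x : ℤ, Λ * p J = x)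
    (hrel : ∑ J, (c J : ℝ) * f J = 0) (hsm : ∀ J, |q * f J - (p J : ℝ)| ≤ X)
    (hlt : (∑ J, |(c J : ℝ)|) * ((Λ : ℝ) * X) < 1) : ∑ J, (c J : ℚ) * p J = 0 := by
  choose x hx using hint
  have h1 : Λ * ∑ J, (c J : ℚ) * p J = ((∑ J, c J * x J : ℤ) : ℚ) := by
    push_cast
    rw [Finset.mul_sum]
    refine Finset.sum_congr rfl (fun J _ => ?_)
    rw [← hx J]; ring
  have h2 : |(((∑ J, c J * x J : ℤ)) : ℝ)| < 1 := by
    have e1 : (((∑ J, c J * x J : ℤ)) : ℝ) = (Λ : ℝ) * ∑ J, (c J : ℝ) * (p J : ℝ) := by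
      have := congrArg (fun y : ℚ => (y : ℝ)) h1
      push_cast at this ⊢
      linarith
    have e2 : ∑ J, (c J : ℝ) * (p J : ℝ) = -∑ J, (c J : ℝ) * (q * f J - (p J : ℝ)) := by
      have : ∑ J, (c J : ℝ) * (q * f J - (p J : ℝ)) =
          q * (∑ J, (c J : ℝ) * f J) - ∑ J, (c J : ℝ) * (p J : ℝ) := by
        rw [Finset.mul_sum, ← Finset.sum_sub_distrib]
        refine Finset.sum_congr rfl (fun J _ => by ring)
      rw [this, hrel]; ring
    have hΛ' : (0 : ℝ) < Λ := by exact_mod_cast hΛ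
    rw [e1, e2, abs_mul, abs_neg, abs_of_pos hΛ']
    have e3 : |∑ J, (c J : ℝ) * (q * f J - (p J : ℝ))| ≤ (∑ J, |(c J : ℝ)|) * X := by
      refine (Finset.abs_sum_le_sum_abs _ _).trans ?_
      rw [Finset.sum_mul]
      refine Finset.sum_le_sum (fun J _ => ?_)
      rw [abs_mul]
      exact mul_le_mul_of_nonneg_left (hsm J) (abs_nonneg _)
    calc (Λ : ℝ) * |∑ J, (c J : ℝ) * (q * f J - (p J : ℝ))| ≤ Λ * ((∑ J, |(c J : ℝ)|) * X) :=
          mul_le_mul_of_nonneg_left e3 hΛ'.le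
      _ = (∑ J, |(c J : ℝ)|) * ((Λ : ℝ) * X) := by ring
      _ < 1 := hlt
  have h3 : (∑ J, c J * x J : ℤ) = 0 := by
    have : |(∑ J, c J * x J : ℤ)| < 1 := by exact_mod_cast h2
    exact Int.abs_lt_one_iff.mp this
  rw [h3] at h1
  simp only [Int.cast_zero, mul_eq_zero] at h1
  exact h1.resolve_left hΛ.ne'

theorem main (h1 : T_ZE) (h2 : T_LCM) (h3 : T_SIEG) (h4 : T_DEN) (h5 : T_AN) : T_G := by
  intro r B A N a hinj ha hA hN c hc
  set M := (B + 1) ^ r with hM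
  have hM1 : 1 ≤ M := Nat.one_le_pow _ _ (by omega)
  rcases Nat.lt_or_ge M 2 with hM2 | hM2
  · exact trivialCase r B (by omega) _ c hc
  by_contra hne
  set L := (r + 1) * M + 2 with hL
  set C1 := (r + 1) * M ^ 2 with hC1
  -- the choice of `t` and `n`
  obtain ⟨t, ht⟩ : ∃ t : ℕ, (∑ J, |(c J : ℝ)|) * 2 ^ (r * B + 1) < 2 ^ t := pow_unbounded_of_one_lt _ one_lt_two
  set n := C1 + 1 + t with hn
  have hn1 : 1 ≤ n := by omega
  obtain ⟨M', hM'⟩ : ∃ M', M = M' + 1 := ⟨M - 1, by omega⟩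
  obtain ⟨P, hP, hPH, hPd⟩ := h3 r B A L n a hM2 hA (fun i => (ha i).2) (by omega) hn1
  rw [← hM] at hP hPH hPd
  set m := (M - 1) * L * n with hm
  set σ := m + 1 + (L - 1) * n with hσ
  set K0 := (M - 1) * n + C1 with hK0
  have hσY : σ + n = M * L * n + 1 := by
    obtain ⟨L', hL'⟩ : ∃ L', L = L' + 1 := ⟨L - 1, by omega⟩
    rw [hσ, hm, hM', hL']
    simp only [Nat.add_sub_cancel]
    ring
  have hσle : σ ≤ M * L * n := by omega
  have hmle : m ≤ M * L * n := by omega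
  have hK0le : K0 ≤ M * L * n := by
    have e1 : K0 ≤ M * n := by
      rw [hK0, hM']
      simp only [Nat.add_sub_cancel]
      have : C1 ≤ n := by omega
      nlinarith
    have e2 : M * n ≤ M * L * n := by
      have : 1 ≤ L := by omega
      nlinarith [Nat.zero_le (M * n)]
    exact e1.trans e2
  have hAN : 8 * A ≤ N := by
    refine le_trans ?_ hN
    have hE1 : 1 ≤ 12 * (r + 1) ^ 3 * (B + 1) * M ^ 3 := by
      have : 0 < 12 * (r + 1) ^ 3 * (B + 1) * M ^ 3 := by positivity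
      omega
    calc 8 * A ≤ (880 * A) ^ 1 := by rw [pow_one]; omega
      _ ≤ _ := Nat.pow_le_pow_right (by omega) hE1
  have hN1 : 1 ≤ N := by omega
  have hN0 : (0 : ℝ) < N := by exact_mod_cast hN1
  have hvan : ∀ k, k ≤ K0 → ∑ J, (c J : ℚ) * pk a (1 / (N : ℚ)) P k J = 0 := by
    intro k hk
    set Λ : ℚ := (N : ℚ) ^ m * (Nat.lcmUpto m : ℚ) ^ (r * B) * (Nat.lcmUpto k : ℚ) ^ (r * B) *
      (∏ i, ((N : ℚ) + a i)) ^ k with hΛdef
    have hNq : (0 : ℚ) < N := by exact_mod_cast hN1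
    have hl : ∀ s, (0 : ℚ) < (Nat.lcmUpto s : ℚ) := fun s => by exact_mod_cast Nat.lcmUpto_pos s
    have hΛ : 0 < Λ := by
      have h1 : 0 < ∏ i, ((N : ℚ) + a i) := Finset.prod_pos (fun i _ => by positivity)
      have h2 := hl m
      have h3 := hl k
      positivity
    set H : ℝ := ((4 * 220 ^ (r * B) * A : ℕ) : ℝ) ^ (σ * L) with hH
    have hPH' : ∀ s, |((P 0).coeff s : ℝ)| ≤ H := by
      intro s
      have := hPH s
      rw [hH]
      exact_mod_cast this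
    set X : ℝ := 2 ^ (r * B + 1) * (m + 1) * H * (N : ℝ) ^ k * (4 * (A : ℝ) / N) ^ σ with hX
    have hsm := h5 r B A N m σ H a P hA (fun i => (ha i).2) hAN hP (by omega) hPH' k
    have hΛr : (Λ : ℝ) ≤ (N : ℝ) ^ m * (220 ^ m) ^ (r * B) * (220 ^ k) ^ (r * B) *
        ((2 * N) ^ r) ^ k := by
      rw [hΛdef]
      push_cast
      have e1 : ∀ s, (Nat.lcmUpto s : ℝ) ≤ 220 ^ s := fun s => by exact_mod_cast h2 s
      have e2 : ∏ i, ((N : ℝ) + a i) ≤ (2 * N) ^ r := by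
        calc ∏ i, ((N : ℝ) + a i) ≤ ∏ _i : Fin r, (2 * (N : ℝ)) := by
              refine Finset.prod_le_prod (fun i _ => by positivity) (fun i _ => ?_)
              have h6 : ((a i : ℕ) : ℝ) ≤ N := by
                have := (ha i).2
                exact_mod_cast (by omega : a i ≤ N)
              linarith
          _ = (2 * N) ^ r := by simp
      have e3 : 0 ≤ ∏ i, ((N : ℝ) + a i) := Finset.prod_nonneg (fun i _ => by positivity)
      have f1 := e1 m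
      have f2 := e1 k
      gcongr
    have hX0 : 0 ≤ X := by rw [hX, hH]; positivity
    have hsize := size r B M L n m k σ t A N (Λ : ℝ) X hM2 rfl hA hN hmle (hk.trans hK0le) hσle
      (by omega) (by
        have e1 : (r + 1) * k ≤ (r + 1) * K0 := Nat.mul_le_mul_left _ hk
        have e2 : n + m + (r + 1) * K0 + t ≤ σ := by
          rw [hσ, hK0, hL, hM']
          simp only [Nat.add_sub_cancel]
          have e3 : (r + 1) * (M' + 1) + 2 - 1 = (r + 1) * (M' + 1) + 1 := by omega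
          rw [e3]
          have e4 : (r + 1) * n = (r + 1) * C1 + (r + 1) * (1 + t) := by rw [hn]; ring
          nlinarith
        omega) hX0 hΛr (le_of_eq hX)
    refine vanish c _ Λ hΛ ((Polynomial.taylor (1 / (N : ℚ)) (P 0)).coeff k : ℝ)
      (fun J => ∏ i, Real.log (1 + (a i : ℝ) / N) ^ (J i : ℕ)) X
      (h4 r B m k N a P hN1 hP.deg hPd) hc hsm ?_
    have hs0 : 0 ≤ ∑ J, |(c J : ℝ)| := Finset.sum_nonneg (fun _ _ => abs_nonneg _)
    calc (∑ J, |(c J : ℝ)|) * ((Λ : ℝ) * X) ≤ (∑ J, |(c J : ℝ)|) * (2 ^ (r * B + 1) / 2 ^ t) :=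
          mul_le_mul_of_nonneg_left hsize hs0
      _ = ((∑ J, |(c J : ℝ)|) * 2 ^ (r * B + 1)) / 2 ^ t := by ring
      _ < 1 := by rw [div_lt_one (by positivity)]; exact ht
  have hz := h1 r B m σ K0 a (1 / (N : ℚ)) P (fun J => (c J : ℚ)) hinj (fun i => (ha i).1)
    (by
      have : (0 : ℚ) < N := by exact_mod_cast hN1
      positivity) hP (by
      intro h0
      apply hne
      funext J
      have := congrFun h0 J
      simpa using this) hvan
  rw [← hM] at hz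
  have hmdef : m = M' * L * n := by rw [hm, hM']; simp
  rw [hσ, hK0, hC1, hM'] at hz
  simp only [Nat.add_sub_cancel] at hz
  obtain ⟨L', hL'⟩ : ∃ L', L = L' + 1 := ⟨L - 1, by omega⟩
  rw [hL'] at hz hmdef
  simp only [Nat.add_sub_cancel] at hz
  have hM'1 : 1 ≤ M' := by omega
  nlinarith

end Pool.Agent.KBD.G_

namespace Pool.Agent.KBD

theorem p_G (h1 : T_ZE) (h2 : T_LCM) (h3 : T_SIEG) (h4 : T_DEN) (h5 : T_AN) : T_G :=
  G_.main h1 h2 h3 h4 h5

end Pool.Agent.KBD
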