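import Pool.Agent.KBD.Targets

set_option autoImplicit false

/-!
# GAU: in the gauge at `z0` the vectors are derivatives
-/

namespace Pool.Agent.KBD

open Finset
open scoped BigOperators

namespace GAU_

/-- Taylor expansion as a ring homomorphism -/
noncomputable def tyH (z0 : ℚ) : Polynomial ℚ →+* PowerSeries ℚ :=
  (Polynomial.coeToPowerSeries.ringHom).comp
    ((Polynomial.taylorAlgHom z0 : Polynomial ℚ →ₐ[ℚ] Polynomial ℚ) : Polynomial ℚ →+* Polynomial ℚ)

lemma ty_eq (z0 : ℚ) (p : Polynomial ℚ) : ty z0 p = tyH z0 p := rfl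

lemma ty_deriv (z0 : ℚ) (p : Polynomial ℚ) :
    PowerSeries.derivative ℚ (ty z0 p) = ty z0 (Polynomial.derivative p) := by
  unfold ty
  rw [PowerSeries.derivative_coe, Polynomial.taylor_apply, Polynomial.taylor_apply,
    Polynomial.derivative_comp]
  simp

lemma lg_deriv (b : ℚ) :
    (1 + PowerSeries.C b * PowerSeries.X) * PowerSeries.derivative ℚ (lg b) = PowerSeries.C b := by
  have hc : ∀ n, PowerSeries.coeff n (PowerSeries.derivative ℚ (lg b)) = b * (-b) ^ n := by
    intro n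
    rw [PowerSeries.coeff_derivative]
    unfold lg
    rw [PowerSeries.coeff_mk]
    have h : ((n : ℚ) + 1) ≠ 0 := by positivity
    push_cast
    field_simp
    ring
  ext n
  rw [add_mul, one_mul, mul_assoc, map_add, PowerSeries.coeff_C_mul, hc]
  cases n with
  | zero =>
    rw [PowerSeries.coeff_zero_X_mul]
    simp
  | succ n =>
    rw [PowerSeries.coeff_succ_X_mul, hc, PowerSeries.coeff_C]
    simp only [Nat.succ_ne_zero, if_false]
    ring

lemma t_lg {r : ℕ} (a : Fin r → ℕ) (z0 : ℚ) (hz : 0 ≤ z0) (i : Fin r) :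
    ty z0 (TT a) * PowerSeries.derivative ℚ (lg (sl a z0 i)) = ty z0 (Ti a i) := by
  have hne : (1 + (a i : ℚ) * z0) ≠ 0 := by positivity
  have h1 : ty z0 (TT a) = ty z0 (1 + Polynomial.C (a i : ℚ) * Polynomial.X) *
      ty z0 (∏ l ∈ Finset.univ.erase i, (1 + Polynomial.C (a l : ℚ) * Polynomial.X)) := by
    rw [ty_eq, ty_eq, ty_eq, ← map_mul]
    congr 1
    unfold TT
    rw [← Finset.mul_prod_erase _ _ (Finset.mem_univ i)]
  have h2 : ty z0 (1 + Polynomial.C (a i : ℚ) * Polynomial.X) =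
      PowerSeries.C (1 + (a i : ℚ) * z0) *
        (1 + PowerSeries.C (sl a z0 i) * PowerSeries.X) := by
    unfold ty
    have h3 : Polynomial.taylor z0 (1 + Polynomial.C (a i : ℚ) * Polynomial.X) =
        Polynomial.C (1 + (a i : ℚ) * z0) *
          (1 + Polynomial.C (sl a z0 i) * Polynomial.X) := by
      have h4 : (a i : ℚ) = (1 + (a i : ℚ) * z0) * sl a z0 i := by
        unfold sl
        field_simp
      have h7 : Polynomial.C (1 + (a i : ℚ) * z0) * Polynomial.C (sl a z0 i) =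
          Polynomial.C (a i : ℚ) := by
        rw [← Polynomial.C_mul, ← h4]
      have h8 : Polynomial.C (1 + (a i : ℚ) * z0) =
          1 + Polynomial.C (a i : ℚ) * Polynomial.C z0 := by
        rw [Polynomial.C_add, Polynomial.C_mul, Polynomial.C_1]
      rw [map_add, Polynomial.taylor_mul, Polynomial.taylor_one, Polynomial.taylor_C,
        Polynomial.taylor_X, mul_add, mul_add, ← mul_assoc, h7, h8, Polynomial.C_1]
      ring
    rw [h3]
    push_cast
    rfl
  have h5 : ty z0 (Ti a i) = PowerSeries.C (a i : ℚ) *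
      ty z0 (∏ l ∈ Finset.univ.erase i, (1 + Polynomial.C (a l : ℚ) * Polynomial.X)) := by
    unfold Ti
    rw [ty_eq, ty_eq, map_mul]
    congr 1
    unfold tyH
    simp
  have h6 : PowerSeries.C (1 + (a i : ℚ) * z0) * PowerSeries.C (sl a z0 i) =
      PowerSeries.C (a i : ℚ) := by
    rw [← map_mul]
    congr 1
    unfold sl
    field_simp
  rw [h1, h2, h5, ← h6]
  calc PowerSeries.C (1 + (a i : ℚ) * z0) * (1 + PowerSeries.C (sl a z0 i) * PowerSeries.X) *
        ty z0 (∏ l ∈ Finset.univ.erase i, (1 + Polynomial.C (a l : ℚ) * Polynomial.X)) *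
        PowerSeries.derivative ℚ (lg (sl a z0 i))
      = PowerSeries.C (1 + (a i : ℚ) * z0) *
        ((1 + PowerSeries.C (sl a z0 i) * PowerSeries.X) *
          PowerSeries.derivative ℚ (lg (sl a z0 i))) *
        ty z0 (∏ l ∈ Finset.univ.erase i, (1 + Polynomial.C (a l : ℚ) * Polynomial.X)) := by ring
    _ = _ := by rw [lg_deriv]

lemma D_prod {r : ℕ} (D : Derivation ℚ (PowerSeries ℚ) (PowerSeries ℚ)) (s : Finset (Fin r))
    (f : Fin r → PowerSeries ℚ) :
    D (∏ i ∈ s, f i) = ∑ i ∈ s, (∏ j ∈ s.erase i, f j) * D (f i) := by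
  induction s using Finset.induction_on with
  | empty => simp
  | insert b s hb ih =>
    rw [Finset.prod_insert hb, D.leibniz, Finset.sum_insert hb, Finset.erase_insert hb, ih,
      smul_eq_mul, smul_eq_mul, Finset.mul_sum, add_comm]
    congr 1
    refine Finset.sum_congr rfl fun i hi => ?_
    have hne : b ≠ i := by
      rintro rfl
      exact hb hi
    rw [Finset.erase_insert_of_ne hne, Finset.prod_insert (by
      intro h
      exact hb (Finset.mem_of_mem_erase h)), mul_assoc]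

/-- `I + e_i` -/
def up {r B : ℕ} (I : Bx r B) (i : Fin r) : Bx r B :=
  Function.update I i ⟨min ((I i : ℕ) + 1) B, by omega⟩

lemma bin_eq {r B : ℕ} (I J : Bx r B) (i : Fin r) :
    bin I J = (J i : ℕ).choose (I i : ℕ) *
      ∏ j ∈ Finset.univ.erase i, (J j : ℕ).choose (I j : ℕ) := by
  unfold bin
  rw [← Finset.mul_prod_erase _ _ (Finset.mem_univ i)]

/-- The reindexing. -/
lemma reindex {r B : ℕ} (l : Fin r → PowerSeries ℚ) (Q : Bx r B → PowerSeries ℚ) (J : Bx r B)
    (i : Fin r) :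
    ∑ I : Bx r B, (bin I J : PowerSeries ℚ) *
      ((∏ j ∈ Finset.univ.erase i, (-l j) ^ ((J j : ℕ) - (I j : ℕ))) *
        ((((J i : ℕ) - (I i : ℕ) : ℕ) : PowerSeries ℚ) *
          (-l i) ^ ((J i : ℕ) - (I i : ℕ) - 1))) * Q I =
    ∑ I : Bx r B, (bin I J : PowerSeries ℚ) * (∏ j, (-l j) ^ ((J j : ℕ) - (I j : ℕ))) *
      (((I i : ℕ) : PowerSeries ℚ) * Q (dn I i)) := by
  have hA : ∑ I : Bx r B, (bin I J : PowerSeries ℚ) *
      ((∏ j ∈ Finset.univ.erase i, (-l j) ^ ((J j : ℕ) - (I j : ℕ))) *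
        ((((J i : ℕ) - (I i : ℕ) : ℕ) : PowerSeries ℚ) *
          (-l i) ^ ((J i : ℕ) - (I i : ℕ) - 1))) * Q I =
    ∑ I ∈ Finset.univ.filter (fun I : Bx r B => (I i : ℕ) < B), (bin I J : PowerSeries ℚ) *
      ((∏ j ∈ Finset.univ.erase i, (-l j) ^ ((J j : ℕ) - (I j : ℕ))) *
        ((((J i : ℕ) - (I i : ℕ) : ℕ) : PowerSeries ℚ) *
          (-l i) ^ ((J i : ℕ) - (I i : ℕ) - 1))) * Q I := by
    symm
    refine Finset.sum_filter_of_ne fun I _ hne => ?_
    by_contra hcon
    refine hne ?_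
    have h1 : (J i : ℕ) - (I i : ℕ) = 0 := by
      have := (J i).isLt
      omega
    rw [h1]
    simp
  have hB : ∑ I : Bx r B, (bin I J : PowerSeries ℚ) *
      (∏ j, (-l j) ^ ((J j : ℕ) - (I j : ℕ))) * (((I i : ℕ) : PowerSeries ℚ) * Q (dn I i)) =
    ∑ I ∈ Finset.univ.filter (fun I : Bx r B => (I i : ℕ) ≠ 0), (bin I J : PowerSeries ℚ) *
      (∏ j, (-l j) ^ ((J j : ℕ) - (I j : ℕ))) * (((I i : ℕ) : PowerSeries ℚ) * Q (dn I i)) := by
    symm
    refine Finset.sum_filter_of_ne fun I _ hne => ?_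
    intro h0
    refine hne ?_
    rw [h0]
    simp
  rw [hA, hB]
  refine Finset.sum_bij' (fun I _ => up I i) (fun I _ => dn I i) ?_ ?_ ?_ ?_ ?_
  · intro I hI
    rw [Finset.mem_filter]
    refine ⟨Finset.mem_univ _, ?_⟩
    have := (Finset.mem_filter.mp hI).2
    simp only [up, Function.update_self]
    omega
  · intro I hI
    rw [Finset.mem_filter]
    refine ⟨Finset.mem_univ _, ?_⟩
    have := (Finset.mem_filter.mp hI).2
    have := (I i).isLt
    simp only [dn, Function.update_self]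
    omega
  · intro I hI
    have := (Finset.mem_filter.mp hI).2
    funext j
    by_cases hj : j = i
    · subst hj
      apply Fin.ext
      simp only [up, dn, Function.update_self]
      omega
    · simp only [up, dn, Function.update_of_ne hj]
  · intro I hI
    have := (Finset.mem_filter.mp hI).2
    funext j
    by_cases hj : j = i
    · subst hj
      apply Fin.ext
      have := (I j).isLt
      simp only [up, dn, Function.update_self]
      omega
    · simp only [up, dn, Function.update_of_ne hj]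
  · intro I hI
    have hlt := (Finset.mem_filter.mp hI).2
    have hdn : dn (up I i) i = I := by
      funext j
      by_cases hj : j = i
      · subst hj
        apply Fin.ext
        simp only [up, dn, Function.update_self]
        omega
      · simp only [up, dn, Function.update_of_ne hj]
    have hupi : ((up I i) i : ℕ) = (I i : ℕ) + 1 := by
      simp only [up, Function.update_self]
      omega
    have hupj : ∀ j, j ≠ i → (up I i) j = I j := fun j hj => by
      simp only [up, Function.update_of_ne hj]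
    have hbin : bin (up I i) J = (J i : ℕ).choose ((I i : ℕ) + 1) *
        ∏ j ∈ Finset.univ.erase i, (J j : ℕ).choose (I j : ℕ) := by
      rw [bin_eq (up I i) J i, hupi]
      congr 1
      refine Finset.prod_congr rfl fun j hj => ?_
      rw [hupj j (Finset.ne_of_mem_erase hj)]
    have hprod : ∏ j, (-l j) ^ ((J j : ℕ) - ((up I i) j : ℕ)) =
        (-l i) ^ ((J i : ℕ) - (I i : ℕ) - 1) *
          ∏ j ∈ Finset.univ.erase i, (-l j) ^ ((J j : ℕ) - (I j : ℕ)) := by
      rw [← Finset.mul_prod_erase _ _ (Finset.mem_univ i), hupi, Nat.sub_sub]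
      congr 1
      refine Finset.prod_congr rfl fun j hj => ?_
      rw [hupj j (Finset.ne_of_mem_erase hj)]
    rw [hdn, hupi, hbin, hprod, bin_eq I J i]
    have hch := Nat.choose_succ_right_eq (J i : ℕ) (I i : ℕ)
    have hch' : (((J i : ℕ).choose ((I i : ℕ) + 1) : ℕ) : PowerSeries ℚ) *
        (((I i : ℕ) + 1 : ℕ) : PowerSeries ℚ) =
        (((J i : ℕ).choose (I i : ℕ) : ℕ) : PowerSeries ℚ) *
          (((J i : ℕ) - (I i : ℕ) : ℕ) : PowerSeries ℚ) := by
      rw [← Nat.cast_mul, ← Nat.cast_mul, hch]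
    rw [Nat.cast_mul, Nat.cast_mul]
    linear_combination (-1 : PowerSeries ℚ) * ((∏ j ∈ Finset.univ.erase i,
      (J j : ℕ).choose (I j : ℕ) : ℕ) : PowerSeries ℚ) *
      (∏ j ∈ Finset.univ.erase i, (-l j) ^ ((J j : ℕ) - (I j : ℕ))) *
      (-l i) ^ ((J i : ℕ) - (I i : ℕ) - 1) * Q I * hch'

/-- The derivative of the change of gauge. -/
lemma gg_deriv {r B : ℕ} (D : Derivation ℚ (PowerSeries ℚ) (PowerSeries ℚ))
    (l : Fin r → PowerSeries ℚ) (t : PowerSeries ℚ) (u : Fin r → PowerSeries ℚ)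
    (ht : ∀ i, t * D (l i) = u i) (Q : Bx r B → PowerSeries ℚ) (J : Bx r B) :
    t * D (gg l Q J) =
      gg l (fun I => t * D (Q I) - ∑ i, ((I i : ℕ) : PowerSeries ℚ) * u i * Q (dn I i)) J := by
  have hD : ∀ I : Bx r B, t * D ((bin I J : PowerSeries ℚ) *
      (∏ i, (-l i) ^ ((J i : ℕ) - (I i : ℕ))) * Q I) =
      (bin I J : PowerSeries ℚ) * (∏ i, (-l i) ^ ((J i : ℕ) - (I i : ℕ))) * (t * D (Q I)) -
      ∑ i, u i * ((bin I J : PowerSeries ℚ) *
      ((∏ j ∈ Finset.univ.erase i, (-l j) ^ ((J j : ℕ) - (I j : ℕ))) *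
        ((((J i : ℕ) - (I i : ℕ) : ℕ) : PowerSeries ℚ) *
          (-l i) ^ ((J i : ℕ) - (I i : ℕ) - 1))) * Q I) := by
    intro I
    have h1 : t * D (∏ i, (-l i) ^ ((J i : ℕ) - (I i : ℕ))) =
        -∑ i, u i * ((∏ j ∈ Finset.univ.erase i, (-l j) ^ ((J j : ℕ) - (I j : ℕ))) *
          ((((J i : ℕ) - (I i : ℕ) : ℕ) : PowerSeries ℚ) *
            (-l i) ^ ((J i : ℕ) - (I i : ℕ) - 1))) := by
      rw [D_prod, Finset.mul_sum, ← Finset.sum_neg_distrib]
      refine Finset.sum_congr rfl fun i _ => ?_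
      rw [D.leibniz_pow, map_neg, ← ht i, nsmul_eq_mul, smul_eq_mul]
      ring
    rw [mul_assoc, D.leibniz, D.map_natCast, smul_zero, add_zero, smul_eq_mul, D.leibniz,
      smul_eq_mul, smul_eq_mul]
    have h2 : t * ((bin I J : PowerSeries ℚ) *
        ((∏ i, (-l i) ^ ((J i : ℕ) - (I i : ℕ))) * D (Q I) +
          Q I * D (∏ i, (-l i) ^ ((J i : ℕ) - (I i : ℕ))))) =
        (bin I J : PowerSeries ℚ) * (∏ i, (-l i) ^ ((J i : ℕ) - (I i : ℕ))) * (t * D (Q I)) +
        (bin I J : PowerSeries ℚ) * Q I *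
          (t * D (∏ i, (-l i) ^ ((J i : ℕ) - (I i : ℕ)))) := by ring
    rw [h2, h1, mul_neg, ← sub_eq_add_neg, Finset.mul_sum]
    congr 1
    refine Finset.sum_congr rfl fun i _ => ?_
    ring
  unfold gg
  rw [map_sum, Finset.mul_sum]
  rw [Finset.sum_congr rfl (fun I _ => hD I), Finset.sum_sub_distrib, Finset.sum_comm]
  have h3 : ∀ i : Fin r, ∑ I : Bx r B, u i * ((bin I J : PowerSeries ℚ) *
      ((∏ j ∈ Finset.univ.erase i, (-l j) ^ ((J j : ℕ) - (I j : ℕ))) *
        ((((J i : ℕ) - (I i : ℕ) : ℕ) : PowerSeries ℚ) *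
          (-l i) ^ ((J i : ℕ) - (I i : ℕ) - 1))) * Q I) =
      ∑ I : Bx r B, (bin I J : PowerSeries ℚ) * (∏ j, (-l j) ^ ((J j : ℕ) - (I j : ℕ))) *
        (((I i : ℕ) : PowerSeries ℚ) * u i * Q (dn I i)) := by
    intro i
    rw [← Finset.mul_sum, reindex, Finset.mul_sum]
    refine Finset.sum_congr rfl fun I _ => ?_
    ring
  rw [Finset.sum_congr rfl (fun i _ => h3 i), Finset.sum_comm, ← Finset.sum_sub_distrib]
  refine Finset.sum_congr rfl fun I _ => ?_
  rw [mul_sub, Finset.mul_sum]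

lemma gg_sub_smul {r B : ℕ} (l : Fin r → PowerSeries ℚ) (Q R : Bx r B → PowerSeries ℚ)
    (c : PowerSeries ℚ) (J : Bx r B) :
    gg l (fun I => Q I - c * R I) J = gg l Q J - c * gg l R J := by
  unfold gg
  rw [Finset.mul_sum, ← Finset.sum_sub_distrib]
  refine Finset.sum_congr rfl fun I _ => ?_
  ring

end GAU_

open GAU_ in
/-- Z2: in the gauge at `z0` the vectors are derivatives -/
theorem p_GAU : T_GAU := by
  intro r B a z0 P hz k
  induction k with
  | zero =>
    intro J
    simp [VV]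
  | succ k ih =>
    intro J
    set D := PowerSeries.derivative ℚ with hD
    set l : Fin r → PowerSeries ℚ := fun i => lg (sl a z0 i) with hl
    set t := ty z0 (TT a) with ht
    have h1 : g0 a z0 (VV a P (k + 1)) J =
        gg l (fun I => (t * D (ty z0 (VV a P k I)) -
          ∑ i, ((I i : ℕ) : PowerSeries ℚ) * ty z0 (Ti a i) * ty z0 (VV a P k (dn I i))) -
          ((k : PowerSeries ℚ) * D t) * ty z0 (VV a P k I)) J := by
      unfold g0
      congr 1
      funext I
      have h2 : VV a P (k + 1) I = TT a * Polynomial.derivative (VV a P k I) -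
          (k : Polynomial ℚ) * Polynomial.derivative (TT a) * VV a P k I -
          ∑ i, ((I i : ℕ) : Polynomial ℚ) * Ti a i * VV a P k (dn I i) := rfl
      rw [h2, hD, ht, ty_deriv, ty_deriv]
      simp only [ty_eq, map_sub, map_mul, map_sum, map_natCast]
      ring
    have h3 : t * D (g0 a z0 (VV a P k) J) = gg l (fun I => t * D (ty z0 (VV a P k I)) -
          ∑ i, ((I i : ℕ) : PowerSeries ℚ) * ty z0 (Ti a i) * ty z0 (VV a P k (dn I i))) J :=
      gg_deriv D l t (fun i => ty z0 (Ti a i)) (fun i => t_lg a z0 hz i)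
        (fun I => ty z0 (VV a P k I)) J
    have h4 : g0 a z0 (VV a P (k + 1)) J = t * D (g0 a z0 (VV a P k) J) -
        ((k : PowerSeries ℚ) * D t) * g0 a z0 (VV a P k) J := by
      rw [h1, gg_sub_smul, h3]
      rfl
    rw [h4, ih J, D.leibniz, D.leibniz_pow, Function.iterate_succ_apply', smul_eq_mul,
      nsmul_eq_mul, smul_eq_mul]
    rcases Nat.eq_zero_or_pos k with hk | hk
    · subst hk
      simp
    · obtain ⟨j, rfl⟩ : ∃ j, k = j + 1 := ⟨k - 1, by omega⟩
      simp only [Nat.add_sub_cancel]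
      ring

end Pool.Agent.KBD
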