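import Pool.Agent.KBD.Targets

set_option autoImplicit false

/-!
Reduction of the `n` variable count to the one variable count (`T_MULTI`).
-/

namespace Pool.Agent.KBD

namespace MULTI_

open Finset

/-- the coefficients after moving the first variable to the base -/
def cp (n k D : ℕ) (c : Bx (n + 1) D → Bx k D → ℤ) : Bx n D → Bx (k + 1) D → ℤ :=
  fun β γ => c (Fin.cons (γ 0) β) (Fin.tail γ)

theorem sum_cp (n k D : ℕ) (c : Bx (n + 1) D → Bx k D → ℤ) (θ : Fin k → ℂ) (z : ℂ)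
    (β : Bx n D) :
    ∑ γ, (cp n k D c β γ : ℂ) * ∏ i, (Fin.cons z θ : Fin (k + 1) → ℂ) i ^ (γ i : ℕ) =
      ∑ j : Fin (D + 1), (∑ α, (c (Fin.cons j β) α : ℂ) * ∏ i, θ i ^ (α i : ℕ)) *
        z ^ (j : ℕ) := by
  rw [← (Fin.consEquiv (fun _ : Fin (k + 1) => Fin (D + 1))).sum_comp, Fintype.sum_prod_type]
  refine Finset.sum_congr rfl fun j _ => ?_
  rw [Finset.sum_mul]
  refine Finset.sum_congr rfl fun α _ => ?_
  have hce : (Fin.consEquiv (fun _ : Fin (k + 1) => Fin (D + 1))) (j, α) =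
      (Fin.cons j α : Fin (k + 1) → Fin (D + 1)) := rfl
  rw [Fin.prod_univ_succ, hce]
  simp only [Fin.cons_zero, Fin.cons_succ, cp, Fin.tail_cons]
  ring

theorem sum_split (n k D : ℕ) (c : Bx (n + 1) D → Bx k D → ℤ)
    (θ : Fin k → ℂ) (y : Fin (n + 1) → ℂ) :
    ∑ β : Bx (n + 1) D, (∑ α, (c β α : ℂ) * ∏ i, θ i ^ (α i : ℕ)) * ∏ l, y l ^ (β l : ℕ) =
      ∑ β : Bx n D, (∑ γ, (cp n k D c β γ : ℂ) *
        ∏ i, (Fin.cons (y 0) θ : Fin (k + 1) → ℂ) i ^ (γ i : ℕ)) *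
        ∏ l, (Fin.tail y) l ^ (β l : ℕ) := by
  rw [← (Fin.consEquiv (fun _ : Fin (n + 1) => Fin (D + 1))).sum_comp, Fintype.sum_prod_type,
    Finset.sum_comm]
  refine Finset.sum_congr rfl fun β _ => ?_
  rw [sum_cp, Finset.sum_mul]
  refine Finset.sum_congr rfl fun j _ => ?_
  have hce : (Fin.consEquiv (fun _ : Fin (n + 1) => Fin (D + 1))) (j, β) =
      (Fin.cons j β : Fin (n + 1) → Fin (D + 1)) := rfl
  rw [Fin.prod_univ_succ, hce]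
  simp only [Fin.cons_zero, Fin.cons_succ, Fin.tail]
  ring

theorem exc_cases (n k D : ℕ) (θ : Fin k → ℂ) (y : Fin (n + 1) → ℂ) (h : MRel D θ y) :
    Rel D θ (y 0) ∨ MRel D (Fin.cons (y 0) θ : Fin (k + 1) → ℂ) (Fin.tail y) := by
  obtain ⟨c, ⟨β, hβ⟩, hs⟩ := h
  by_cases hQ : ∀ β' : Bx n D, ∑ γ, (cp n k D c β' γ : ℂ) *
      ∏ i, (Fin.cons (y 0) θ : Fin (k + 1) → ℂ) i ^ (γ i : ℕ) = 0
  · left
    refine ⟨fun j α => c (Fin.cons j (Fin.tail β)) α, ⟨β 0, ?_⟩, ?_⟩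
    · have hcs : (Fin.cons (β 0) (Fin.tail β) : Fin (n + 1) → Fin (D + 1)) = β :=
        Fin.cons_self_tail β
      change ∑ α, (c (Fin.cons (β 0) (Fin.tail β)) α : ℂ) * ∏ i, θ i ^ (α i : ℕ) ≠ 0
      rw [hcs]
      exact hβ
    · have := hQ (Fin.tail β)
      rw [sum_cp] at this
      exact this
  · right
    push Not at hQ
    obtain ⟨β', hβ'⟩ := hQ
    refine ⟨cp n k D c, ⟨β', hβ'⟩, ?_⟩
    rw [sum_split] at hs
    exact hs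

/-- the box -/
def box (n T : ℕ) : Set (Fin n → ℕ) := {t | ∀ i, 1 ≤ t i ∧ t i ≤ T}

theorem box_eq (n T : ℕ) : box n T =
    ((Fintype.piFinset (fun _ : Fin n => Finset.Icc 1 T) : Finset (Fin n → ℕ)) :
        Set (Fin n → ℕ)) := by
  ext x
  simp only [box, Set.mem_ofPred_eq, Finset.mem_coe, Fintype.mem_piFinset, Finset.mem_Icc]

theorem ncard_box (n T : ℕ) : (box n T).ncard = T ^ n := by
  rw [box_eq, Set.ncard_coe_finset, Fintype.card_piFinset]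
  simp

theorem finite_box (n T : ℕ) : (box n T).Finite := by
  rw [box_eq]
  exact Finset.finite_toSet _

/-- exceptional numbers -/
def E1 {k : ℕ} (D T : ℕ) (θ : Fin k → ℂ) : Set ℕ :=
  {t : ℕ | (1 ≤ t ∧ t ≤ T) ∧ Rel D θ (Real.log t : ℂ)}

/-- exceptional tuples -/
def En (n : ℕ) {k : ℕ} (D T : ℕ) (θ : Fin k → ℂ) : Set (Fin n → ℕ) :=
  {t : Fin n → ℕ | (∀ i, 1 ≤ t i ∧ t i ≤ T) ∧ MRel D θ (fun i => (Real.log (t i) : ℂ))}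

theorem count_le (n k D : ℕ) (θ : Fin k → ℂ) (T : ℕ) (M : ℝ)
    (hM : ∀ z : ℂ, ((En n D T (Fin.cons z θ : Fin (k + 1) → ℂ)).ncard : ℝ) ≤ M) :
    ((En (n + 1) D T θ).ncard : ℝ) ≤ ((E1 D T θ).ncard : ℝ) * (T : ℝ) ^ n + T * M := by
  classical
  set A : Set ℕ := E1 D T θ with hA
  set B : Set (Fin n → ℕ) := box n T with hB
  set E : ℕ → Set (Fin n → ℕ) := fun t0 =>
    En n D T (Fin.cons (Real.log t0 : ℂ) θ : Fin (k + 1) → ℂ) with hE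
  have hAf : A.Finite := (Set.finite_Icc 1 T).subset fun t ht => ht.1
  have hBf : B.Finite := finite_box n T
  have hEf : ∀ t0, (E t0).Finite := fun t0 => hBf.subset fun t ht => ht.1
  let cn : ℕ → (Fin n → ℕ) → (Fin (n + 1) → ℕ) := fun a b => Fin.cons a b
  let U1 : Set (Fin (n + 1) → ℕ) := (fun p : ℕ × (Fin n → ℕ) => cn p.1 p.2) '' (A ×ˢ B)
  let U2 : Set (Fin (n + 1) → ℕ) := ⋃ a ∈ Finset.Icc 1 T, (cn a) '' (E a)
  have hU1f : U1.Finite := (hAf.prod hBf).image _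
  have hU2f : U2.Finite := Set.Finite.biUnion (Finset.finite_toSet _) fun a _ => (hEf a).image _
  have hsub : En (n + 1) D T θ ⊆ U1 ∪ U2 := by
    rintro t ⟨htp, ht⟩
    have h0 : 1 ≤ t 0 ∧ t 0 ≤ T := htp 0
    have htl : Fin.tail t ∈ B := fun i => htp i.succ
    rcases exc_cases n k D θ _ ht with h | h
    · left
      exact ⟨(t 0, Fin.tail t), ⟨⟨h0, h⟩, htl⟩, Fin.cons_self_tail t⟩
    · right
      simp only [U2, Set.mem_iUnion]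
      exact ⟨t 0, Finset.mem_Icc.2 h0, Fin.tail t, ⟨htl, h⟩, Fin.cons_self_tail t⟩
  have hc1 : U1.ncard ≤ A.ncard * T ^ n := by
    calc U1.ncard ≤ (A ×ˢ B).ncard := Set.ncard_image_le (hAf.prod hBf)
      _ = A.ncard * B.ncard := Set.ncard_prod
      _ = A.ncard * T ^ n := by rw [hB, ncard_box]
  have hc2 : U2.ncard ≤ ∑ a ∈ Finset.Icc 1 T, (E a).ncard := by
    calc U2.ncard ≤ ∑ a ∈ Finset.Icc 1 T, ((cn a) '' (E a)).ncard :=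
          Finset.set_ncard_biUnion_le _ _
      _ ≤ ∑ a ∈ Finset.Icc 1 T, (E a).ncard :=
          Finset.sum_le_sum fun a _ => Set.ncard_image_le (hEf a)
  have hc3 : (∑ a ∈ Finset.Icc 1 T, ((E a).ncard : ℝ)) ≤ T * M := by
    calc (∑ a ∈ Finset.Icc 1 T, ((E a).ncard : ℝ)) ≤ ∑ a ∈ Finset.Icc 1 T, M :=
          Finset.sum_le_sum fun a _ => hM _
      _ = T * M := by simp
  have hc4 : (En (n + 1) D T θ).ncard ≤ U1.ncard + U2.ncard :=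
    (Set.ncard_le_ncard hsub (hU1f.union hU2f)).trans (Set.ncard_union_le _ _)
  calc ((En (n + 1) D T θ).ncard : ℝ)
      ≤ (U1.ncard : ℝ) + (U2.ncard : ℝ) := by exact_mod_cast hc4
    _ ≤ (A.ncard : ℝ) * (T : ℝ) ^ n + ∑ a ∈ Finset.Icc 1 T, ((E a).ncard : ℝ) := by
        have h1 : (U1.ncard : ℝ) ≤ (A.ncard : ℝ) * (T : ℝ) ^ n := by exact_mod_cast hc1
        have h2 : (U2.ncard : ℝ) ≤ ∑ a ∈ Finset.Icc 1 T, ((E a).ncard : ℝ) := by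
          exact_mod_cast hc2
        linarith
    _ ≤ (A.ncard : ℝ) * (T : ℝ) ^ n + T * M := by linarith

/-- the statement for fixed `n`, `k` -/
def Mu (n k : ℕ) : Prop := ∃ K : ℕ, 1 ≤ K ∧ ∀ (D T : ℕ) (θ : Fin k → ℂ), 1 ≤ D → 1 ≤ T →
  ((En n D T θ).ncard : ℝ) ≤ K * (T : ℝ) ^ ((n : ℝ) - 1 / (K * (D : ℝ) ^ K))

theorem mu_zero (k : ℕ) : Mu 0 k := by
  refine ⟨1, le_refl 1, fun D T θ hD hT => ?_⟩
  have h : En 0 D T θ = ∅ := by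
    ext t
    simp only [Set.mem_empty_iff_false, iff_false]
    rintro ⟨-, c, ⟨β, hβ⟩, hs⟩
    apply hβ
    rw [Fintype.sum_eq_single β (fun b hb => absurd (Subsingleton.elim b β) hb)] at hs
    simpa using hs
  rw [h, Set.ncard_empty]
  have h1 : (0 : ℝ) ≤ (T : ℝ) ^ (((0 : ℕ) : ℝ) - 1 / (((1 : ℕ) : ℝ) * (D : ℝ) ^ 1)) :=
    Real.rpow_nonneg (Nat.cast_nonneg T) _
  have h2 : (0 : ℝ) ≤ ((1 : ℕ) : ℝ) := by norm_num
  simpa using mul_nonneg h2 h1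

theorem inv_le {K1 K D : ℕ} (h1 : 1 ≤ K1) (h : K1 ≤ K) (hD : 1 ≤ D) :
    1 / ((K : ℝ) * (D : ℝ) ^ K) ≤ 1 / ((K1 : ℝ) * (D : ℝ) ^ K1) := by
  have hD' : (1 : ℝ) ≤ (D : ℝ) := by exact_mod_cast hD
  have h1' : (1 : ℝ) ≤ (K1 : ℝ) := by exact_mod_cast h1
  have h' : (K1 : ℝ) ≤ (K : ℝ) := by exact_mod_cast h
  have hpos : (0 : ℝ) < (K1 : ℝ) * (D : ℝ) ^ K1 := by positivity
  apply one_div_le_one_div_of_le hpos
  apply mul_le_mul h' (pow_le_pow_right₀ hD' h) (by positivity) (by positivity)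

theorem mu_succ (hone : T_ONE) (n : ℕ) (ih : ∀ k : ℕ, Mu n k) (k : ℕ) : Mu (n + 1) k := by
  obtain ⟨K1, hK1, h1⟩ := hone k
  obtain ⟨K2, hK2, h2⟩ := ih (k + 1)
  refine ⟨K1 + K2, by omega, fun D T θ hD hT => ?_⟩
  have hT1 : (1 : ℝ) ≤ (T : ℝ) := by exact_mod_cast hT
  have hT0 : (0 : ℝ) < (T : ℝ) := by linarith
  refine (count_le n k D θ T _ (fun z => h2 D T (Fin.cons z θ) hD hT)).trans ?_
  have ha : ((E1 D T θ).ncard : ℝ) ≤ K1 * (T : ℝ) ^ (1 - 1 / (K1 * (D : ℝ) ^ K1)) :=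
    h1 D T θ hD hT
  have i1 : 1 / (((K1 + K2 : ℕ) : ℝ) * (D : ℝ) ^ (K1 + K2)) ≤
      1 / ((K1 : ℝ) * (D : ℝ) ^ K1) := inv_le hK1 (Nat.le_add_right _ _) hD
  have i2 : 1 / (((K1 + K2 : ℕ) : ℝ) * (D : ℝ) ^ (K1 + K2)) ≤
      1 / ((K2 : ℝ) * (D : ℝ) ^ K2) := inv_le hK2 (Nat.le_add_left _ _) hD
  set κ : ℝ := 1 / (((K1 + K2 : ℕ) : ℝ) * (D : ℝ) ^ (K1 + K2)) with hκ
  set κ1 : ℝ := 1 / ((K1 : ℝ) * (D : ℝ) ^ K1) with hκ1
  set κ2 : ℝ := 1 / ((K2 : ℝ) * (D : ℝ) ^ K2) with hκ2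
  have p1 : (T : ℝ) ^ (1 - κ1) * (T : ℝ) ^ n ≤ (T : ℝ) ^ (((n + 1 : ℕ) : ℝ) - κ) := by
    rw [← Real.rpow_natCast, ← Real.rpow_add hT0]
    apply Real.rpow_le_rpow_of_exponent_le hT1
    push_cast
    linarith
  have p2 : (T : ℝ) * (T : ℝ) ^ ((n : ℝ) - κ2) ≤ (T : ℝ) ^ (((n + 1 : ℕ) : ℝ) - κ) := by
    nth_rewrite 1 [← Real.rpow_one (T : ℝ)]
    rw [← Real.rpow_add hT0]
    apply Real.rpow_le_rpow_of_exponent_le hT1
    push_cast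
    linarith
  have hK1' : (0 : ℝ) ≤ (K1 : ℝ) := Nat.cast_nonneg _
  have hK2' : (0 : ℝ) ≤ (K2 : ℝ) := Nat.cast_nonneg _
  have q1 : ((E1 D T θ).ncard : ℝ) * (T : ℝ) ^ n ≤
      K1 * (T : ℝ) ^ (((n + 1 : ℕ) : ℝ) - κ) := by
    calc ((E1 D T θ).ncard : ℝ) * (T : ℝ) ^ n
        ≤ (K1 * (T : ℝ) ^ (1 - κ1)) * (T : ℝ) ^ n := by gcongr
      _ = K1 * ((T : ℝ) ^ (1 - κ1) * (T : ℝ) ^ n) := by ring
      _ ≤ K1 * (T : ℝ) ^ (((n + 1 : ℕ) : ℝ) - κ) := by gcongr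
  have q2 : (T : ℝ) * (K2 * (T : ℝ) ^ ((n : ℝ) - κ2)) ≤
      K2 * (T : ℝ) ^ (((n + 1 : ℕ) : ℝ) - κ) := by
    calc (T : ℝ) * (K2 * (T : ℝ) ^ ((n : ℝ) - κ2))
        = K2 * ((T : ℝ) * (T : ℝ) ^ ((n : ℝ) - κ2)) := by ring
      _ ≤ K2 * (T : ℝ) ^ (((n + 1 : ℕ) : ℝ) - κ) := by gcongr
  calc _ ≤ K1 * (T : ℝ) ^ (((n + 1 : ℕ) : ℝ) - κ) +
        K2 * (T : ℝ) ^ (((n + 1 : ℕ) : ℝ) - κ) := add_le_add q1 q2
    _ = ((K1 + K2 : ℕ) : ℝ) * (T : ℝ) ^ (((n + 1 : ℕ) : ℝ) - κ) := by push_cast; ring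

end MULTI_

theorem p_MULTI (h : T_ONE) : T_MULTI := by
  have key : ∀ n k : ℕ, MULTI_.Mu n k := by
    intro n
    induction n with
    | zero => exact MULTI_.mu_zero
    | succ n ih => exact MULTI_.mu_succ h n ih
  exact key

end Pool.Agent.KBD
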