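import Pool.Agent.KBD.Targets

set_option autoImplicit false

/-!
# KBD-NONZ: the determinant of the iterates does not vanish
-/

open Finset Polynomial
open scoped BigOperators

namespace Pool.Agent.KBD

namespace NONZ_

variable {r B : ℕ}

/-- the size of an exponent -/
def sz (J : Bx r B) : ℕ := ∑ i, (J i : ℕ)

/-- the dual connection -/
noncomputable def dl (a : Fin r → ℕ) (F : Bx r B → ℚ[X]) (I : Bx r B) : ℚ[X] :=
  TT a * derivative (F I) +
    ∑ J : Bx r B, ∑ i, if dn J i = I then ((J i : ℕ) : ℚ[X]) * Ti a i * F J else 0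

theorem sum_dl (a : Fin r → ℕ) (V F : Bx r B → ℚ[X]) :
    ∑ I, V I * dl a F I = ∑ I, V I * (TT a * derivative (F I)) +
      ∑ J, ∑ i, ((J i : ℕ) : ℚ[X]) * Ti a i * V (dn J i) * F J := by
  simp only [dl, mul_add, Finset.sum_add_distrib, Finset.mul_sum]
  congr 1
  rw [Finset.sum_comm]
  refine Finset.sum_congr rfl fun J _ => ?_
  rw [Finset.sum_comm]
  refine Finset.sum_congr rfl fun i _ => ?_
  simp only [mul_ite, mul_zero]
  rw [Finset.sum_ite_eq]
  simp only [Finset.mem_univ, if_true]
  ring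

theorem ident (a : Fin r → ℕ) (P : Bx r B → ℚ[X]) (k : ℕ) (F : Bx r B → ℚ[X]) :
    ∑ J, VV a P (k + 1) J * F J = TT a * derivative (∑ J, VV a P k J * F J) -
      (k : ℚ[X]) * derivative (TT a) * (∑ J, VV a P k J * F J) - ∑ I, VV a P k I * dl a F I := by
  rw [sum_dl, derivative_sum]
  simp only [VV, derivative_mul, Finset.mul_sum, sub_mul, Finset.sum_mul, mul_add,
    Finset.sum_add_distrib, Finset.sum_sub_distrib]
  have e1 : ∑ J, TT a * derivative (VV a P k J) * F J =
      ∑ J, TT a * (derivative (VV a P k J) * F J) := by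
    refine Finset.sum_congr rfl fun J _ => ?_
    ring
  have e2 : ∑ J, VV a P k J * (TT a * derivative (F J)) =
      ∑ J, TT a * (VV a P k J * derivative (F J)) := by
    refine Finset.sum_congr rfl fun J _ => ?_
    ring
  have e3 : ∑ J, (k : ℚ[X]) * derivative (TT a) * VV a P k J * F J =
      ∑ J, (k : ℚ[X]) * derivative (TT a) * (VV a P k J * F J) := by
    refine Finset.sum_congr rfl fun J _ => ?_
    ring
  rw [e1, e2, e3]
  ring

theorem dn_apply_ne (J : Bx r B) {i x : Fin r} (h : x ≠ i) : dn J i x = J x := by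
  simp [dn, Function.update_of_ne h]

theorem dn_apply_self (J : Bx r B) (i : Fin r) : ((dn J i i : Fin (B + 1)) : ℕ) = (J i : ℕ) - 1 := by
  simp [dn]

theorem sz_dn (J : Bx r B) (i : Fin r) (h : (J i : ℕ) ≠ 0) : sz J = sz (dn J i) + 1 := by
  unfold sz
  rw [← Finset.add_sum_erase _ _ (Finset.mem_univ i),
    ← Finset.add_sum_erase (a := i) (f := fun x => ((dn J i x : Fin (B + 1)) : ℕ)) _
      (Finset.mem_univ i)]
  rw [dn_apply_self]
  have : ∑ x ∈ Finset.univ.erase i, ((dn J i x : Fin (B + 1)) : ℕ) =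
      ∑ x ∈ Finset.univ.erase i, (J x : ℕ) := by
    refine Finset.sum_congr rfl fun x hx => ?_
    rw [dn_apply_ne J (Finset.ne_of_mem_erase hx)]
  rw [this]
  omega

theorem dn_inj (J J' : Bx r B) (i : Fin r) (h : (J i : ℕ) ≠ 0) (h' : (J' i : ℕ) ≠ 0)
    (e : dn J i = dn J' i) : J = J' := by
  funext x
  by_cases hx : x = i
  · subst hx
    have := congrArg (fun f => ((f x : Fin (B + 1)) : ℕ)) e
    simp only [dn_apply_self] at this
    apply Fin.ext
    omega
  · have := congrFun e x
    rwa [dn_apply_ne J hx, dn_apply_ne J' hx] at this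

theorem sz_eq_zero {J : Bx r B} (h : sz J = 0) : J = 0 := by
  funext i
  have := (Finset.sum_eq_zero_iff.1 h) i (Finset.mem_univ i)
  apply Fin.ext
  simpa using this

/-- the measure -/
noncomputable def mu (F : Bx r B → ℚ[X]) : ℕ := by
  classical
  exact ∑ J ∈ Finset.univ.filter (fun J => F J ≠ 0), (Fintype.card (Bx r B) + 1) ^ sz J

theorem dl_top (a : Fin r → ℕ) (F : Bx r B → ℚ[X]) (d : ℕ) (hd : ∀ J, d < sz J → F J = 0)
    (I : Bx r B) (hI : d ≤ sz I) : dl a F I = TT a * derivative (F I) := by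
  unfold dl
  rw [add_eq_left]
  refine Finset.sum_eq_zero fun J _ => Finset.sum_eq_zero fun i _ => ?_
  split_ifs with h
  · by_cases h0 : (J i : ℕ) = 0
    · rw [h0]; simp
    · have := sz_dn J i h0
      rw [h] at this
      rw [hd J (by omega), mul_zero]
  · rfl

theorem mu_lt (F G : Bx r B → ℚ[X]) (Js : Bx r B) (hJs : F Js ≠ 0) (h1 : 1 ≤ sz Js)
    (hG1 : ∀ J, sz Js < sz J → G J = 0) (hG2 : ∀ J, sz J = sz Js → F J = 0 → G J = 0)
    (hG3 : G Js = 0) : mu G < mu F := by
  classical
  unfold mu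
  set M := Fintype.card (Bx r B) with hM
  set d := sz Js with hd
  have hsub : Finset.univ.filter (fun J => G J ≠ 0) ⊆
      ((Finset.univ.filter (fun J => F J ≠ 0)).filter (fun J => sz J = d)).erase Js ∪
        Finset.univ.filter (fun J => sz J < d) := by
    intro J hJ
    rw [Finset.mem_filter] at hJ
    rw [Finset.mem_union, Finset.mem_erase, Finset.mem_filter, Finset.mem_filter, Finset.mem_filter]
    rcases lt_trichotomy (sz J) d with h | h | h
    · right; exact ⟨Finset.mem_univ _, h⟩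
    · left
      refine ⟨fun e => hJ.2 (by rw [e]; exact hG3), ⟨Finset.mem_univ _, fun e => hJ.2 (hG2 J h e)⟩, h⟩
    · exact absurd (hG1 J h) hJ.2
  have hlow : ∑ J ∈ Finset.univ.filter (fun J : Bx r B => sz J < d), (M + 1) ^ sz J < (M + 1) ^ d := by
    calc ∑ J ∈ Finset.univ.filter (fun J : Bx r B => sz J < d), (M + 1) ^ sz J
        ≤ ∑ J ∈ Finset.univ.filter (fun J : Bx r B => sz J < d), (M + 1) ^ (d - 1) := by
          refine Finset.sum_le_sum fun J hJ => ?_
          rw [Finset.mem_filter] at hJ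
          exact Nat.pow_le_pow_right (by omega) (by omega)
      _ = (Finset.univ.filter (fun J : Bx r B => sz J < d)).card * (M + 1) ^ (d - 1) := by
          rw [Finset.sum_const, smul_eq_mul]
      _ ≤ M * (M + 1) ^ (d - 1) := by
          refine Nat.mul_le_mul_right _ ?_
          rw [hM]
          exact Finset.card_le_univ _
      _ < (M + 1) * (M + 1) ^ (d - 1) := Nat.mul_lt_mul_of_pos_right (by omega) (by positivity)
      _ = (M + 1) ^ d := by
          rw [← pow_succ']
          congr 1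
          omega
  have hmem : Js ∈ (Finset.univ.filter (fun J => F J ≠ 0)).filter (fun J => sz J = d) := by
    simp [hJs, hd]
  calc ∑ J ∈ Finset.univ.filter (fun J => G J ≠ 0), (M + 1) ^ sz J
      ≤ ∑ J ∈ ((Finset.univ.filter (fun J => F J ≠ 0)).filter (fun J => sz J = d)).erase Js ∪
        Finset.univ.filter (fun J => sz J < d), (M + 1) ^ sz J := Finset.sum_le_sum_of_subset hsub
    _ ≤ ∑ J ∈ ((Finset.univ.filter (fun J => F J ≠ 0)).filter (fun J => sz J = d)).erase Js,
          (M + 1) ^ sz J + ∑ J ∈ Finset.univ.filter (fun J : Bx r B => sz J < d), (M + 1) ^ sz J := by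
        rw [← Finset.sum_union_inter]
        exact Nat.le_add_right _ _
    _ < ∑ J ∈ ((Finset.univ.filter (fun J => F J ≠ 0)).filter (fun J => sz J = d)).erase Js,
          (M + 1) ^ sz J + (M + 1) ^ sz Js := Nat.add_lt_add_left hlow _
    _ = ∑ J ∈ (Finset.univ.filter (fun J => F J ≠ 0)).filter (fun J => sz J = d),
          (M + 1) ^ sz J := Finset.sum_erase_add _ _ hmem
    _ ≤ ∑ J ∈ Finset.univ.filter (fun J => F J ≠ 0), (M + 1) ^ sz J :=
        Finset.sum_le_sum_of_subset (Finset.filter_subset _ _)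

/-- the multiplicity identity -/
theorem wr (ζ : ℚ) (n u : ℕ) (V U : ℚ[X]) :
    (X - C ζ) * (derivative ((X - C ζ) ^ n * V) * ((X - C ζ) ^ u * U) -
      (X - C ζ) ^ n * V * derivative ((X - C ζ) ^ u * U)) =
    (X - C ζ) ^ (n + u) * (((n : ℚ[X]) - (u : ℚ[X])) * (V * U) +
      (X - C ζ) * (derivative V * U - V * derivative U)) := by
  have h : ∀ n : ℕ, (X - C ζ) * derivative ((X - C ζ) ^ n) = (n : ℚ[X]) * (X - C ζ) ^ n := by
    intro n
    rw [derivative_X_sub_C_pow]
    rcases n with _ | n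
    · simp
    · simp only [Nat.add_sub_cancel, pow_succ, Nat.cast_add, Nat.cast_one]
      simp
      ring
  have hn := h n
  have hu := h u
  rw [derivative_mul, derivative_mul, pow_add]
  linear_combination (V * U * (X - C ζ) ^ u) * hn - (V * U * (X - C ζ) ^ n) * hu

theorem fac (ζ : ℚ) (n : ℕ) (p : ℚ[X]) : ∃ (u : ℕ) (U : ℚ[X]), p = (X - C ζ) ^ u * U ∧
    (U.eval ζ ≠ 0 ∨ u = n) := by
  by_cases hp : p = 0
  · exact ⟨n, 0, by simp [hp], Or.inr rfl⟩
  · obtain ⟨q, h1, h2⟩ := exists_eq_pow_rootMultiplicity_mul_and_not_dvd p hp ζ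
    refine ⟨_, q, h1, Or.inl ?_⟩
    rw [dvd_iff_isRoot] at h2
    exact h2

theorem pow_ne (ζ : ℚ) (n : ℕ) : ((X - C ζ : ℚ[X])) ^ n ≠ 0 := pow_ne_zero _ (X_sub_C_ne_zero ζ)

theorem top_dvd (ζ : ℚ) (n : ℕ) (V1 F : ℚ[X]) (h1 : V1.eval ζ ≠ 0)
    (h : (X - C ζ) ^ n * V1 * derivative F = derivative ((X - C ζ) ^ n * V1) * F) :
    (X - C ζ) ^ n ∣ F := by
  obtain ⟨u, U, hU, hor⟩ := fac ζ n F
  rcases hor with hne | rfl
  · have e := wr ζ n u V1 U
    rw [← hU, ← h, sub_self, mul_zero] at e
    have e2 := (mul_eq_zero.1 e.symm).resolve_left (pow_ne ζ _)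
    have e3 := congrArg (eval ζ) e2
    simp only [eval_add, eval_mul, eval_sub, eval_natCast, eval_X, eval_C, sub_self, zero_mul,
      add_zero, eval_zero, mul_eq_zero, h1, hne, or_false] at e3
    have : n = u := by
      have : (n : ℚ) = u := by linarith
      exact_mod_cast this
    rw [hU, this]
    exact dvd_mul_right _ _
  · rw [hU]; exact dvd_mul_right _ _

theorem contra (ζ : ℚ) (n c : ℕ) (V1 E τ FI : ℚ[X]) (h1 : V1.eval ζ ≠ 0) (hτ : τ.eval ζ ≠ 0)
    (hc : c ≠ 0)
    (h : (X - C ζ) * τ * (derivative ((X - C ζ) ^ n * V1) * FI -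
      (X - C ζ) ^ n * V1 * derivative FI) =
      (X - C ζ) ^ (n + n) * (V1 * ((c : ℚ[X]) * τ * V1 + (X - C ζ) * E))) : False := by
  obtain ⟨u, U, hU, hor⟩ := fac ζ n FI
  have e := wr ζ n u V1 U
  rw [← hU] at e
  have e1 : τ * ((X - C ζ) ^ (n + u) * (((n : ℚ[X]) - (u : ℚ[X])) * (V1 * U) +
      (X - C ζ) * (derivative V1 * U - V1 * derivative U))) =
      (X - C ζ) ^ (n + n) * (V1 * ((c : ℚ[X]) * τ * V1 + (X - C ζ) * E)) := by
    rw [← e, ← h]; ring
  rcases lt_or_ge u n with hlt | hge
  · have hne : U.eval ζ ≠ 0 := hor.resolve_right (by omega)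
    obtain ⟨w, rfl⟩ := Nat.exists_eq_add_of_lt hlt
    have e2 : (X - C ζ) ^ (u + w + 1 + u) * (τ * (((((u + w + 1 : ℕ)) : ℚ[X]) - (u : ℚ[X])) * (V1 * U) +
      (X - C ζ) * (derivative V1 * U - V1 * derivative U))) = (X - C ζ) ^ (u + w + 1 + u) *
        ((X - C ζ) ^ (w + 1) * (V1 * ((c : ℚ[X]) * τ * V1 + (X - C ζ) * E))) := by
      rw [← mul_assoc ((X - C ζ) ^ (u + w + 1 + u)) ((X - C ζ) ^ (w + 1)), ← pow_add]
      rw [show u + w + 1 + u + (w + 1) = u + w + 1 + (u + w + 1) by ring, ← e1]
      ring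
    have e3 := congrArg (eval ζ) (mul_left_cancel₀ (pow_ne ζ _) e2)
    simp only [eval_add, eval_mul, eval_sub, eval_natCast, eval_X, eval_C, sub_self, zero_mul,
      add_zero, eval_pow, pow_succ, mul_zero, mul_eq_zero, h1, hne, hτ, or_false, false_or] at e3
    push_cast at e3
    have : (w : ℚ) + 1 = 0 := by linarith
    have h0 : (0 : ℚ) ≤ w := Nat.cast_nonneg w
    linarith
  · obtain ⟨w, rfl⟩ := Nat.exists_eq_add_of_le hge
    have e2 : (X - C ζ) ^ (n + n) * ((X - C ζ) ^ w * (τ * (((n : ℚ[X]) - ((n + w : ℕ) : ℚ[X])) * (V1 * U) +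
      (X - C ζ) * (derivative V1 * U - V1 * derivative U)))) = (X - C ζ) ^ (n + n) *
        (V1 * ((c : ℚ[X]) * τ * V1 + (X - C ζ) * E)) := by
      rw [← e1, show n + (n + w) = n + n + w by ring, pow_add _ (n + n) w]
      ring
    have e3 := congrArg (eval ζ) (mul_left_cancel₀ (pow_ne ζ _) e2)
    simp only [eval_add, eval_mul, eval_sub, eval_natCast, eval_X, eval_C, sub_self, zero_mul,
      add_zero, eval_pow] at e3
    have hc' : (c : ℚ) ≠ 0 := by exact_mod_cast hc
    have hR : eval ζ V1 * ((c : ℚ) * eval ζ τ * eval ζ V1) ≠ 0 := by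
      simp [h1, hτ, hc]
    rw [← e3] at hR
    rcases w with _ | w
    · simp at hR
    · simp [pow_succ] at hR

/-- the core -/
theorem core (a : Fin r → ℕ) (ha : Function.Injective a) (ha1 : ∀ i, 1 ≤ a i)
    (N : (Bx r B → ℚ[X]) → Prop)
    (hlin : ∀ F G, N F → N G → ∀ p q : ℚ[X], N (fun J => p * F J + q * G J))
    (hdl : ∀ F, N F → N (dl a F))
    (hP : ∀ F, N F → (∀ J, J ≠ 0 → F J = 0) → F 0 = 0) :
    ∀ (m : ℕ) (F : Bx r B → ℚ[X]), mu F = m → N F → F = 0 := by
  classical
  intro m
  induction m using Nat.strong_induction_on with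
  | _ m ih =>
  intro F hm hF
  by_contra hne
  have hex : (Finset.univ.filter (fun J => F J ≠ 0)).Nonempty := by
    by_contra hh
    apply hne
    funext J
    by_contra hJ
    exact hh ⟨J, by simp only [Finset.mem_filter, Finset.mem_univ, true_and]; exact hJ⟩
  obtain ⟨Js, hJs, hmax⟩ := Finset.exists_max_image _ sz hex
  rw [Finset.mem_filter] at hJs
  have hVne := hJs.2
  have hmax' : ∀ J, sz Js < sz J → F J = 0 := by
    intro J hJ
    by_contra h
    have := hmax J (by simp [h])
    omega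
  rcases Nat.eq_zero_or_pos (sz Js) with h0 | h1
  · have : Js = 0 := sz_eq_zero h0
    rw [this] at hVne
    apply hVne
    refine hP F hF fun J hJ => ?_
    apply hmax'
    rw [h0]
    by_contra hh
    exact hJ (sz_eq_zero (by omega))
  · obtain ⟨i0, hi0⟩ : ∃ i, (Js i : ℕ) ≠ 0 := by
      by_contra hh
      push Not at hh
      have : sz Js = 0 := Finset.sum_eq_zero fun i _ => hh i
      omega
    have hG : N (fun J => F Js * dl a F J + (-(TT a * derivative (F Js))) * F J) :=
      hlin _ _ (hdl F hF) hF _ _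
    have htop := dl_top a F (sz Js) hmax'
    have hlt : mu (fun J => F Js * dl a F J + (-(TT a * derivative (F Js))) * F J) < mu F := by
      refine mu_lt F _ Js hVne h1 ?_ ?_ ?_
      · intro J hJ
        rw [htop J hJ.le, hmax' J hJ]
        simp
      · intro J hJ hFJ
        rw [htop J hJ.ge, hFJ]
        simp
      · rw [htop Js le_rfl]
        ring
    have hG0 := ih _ (by rw [← hm]; exact hlt) _ rfl hG
    have hEq : ∀ I, F Js * dl a F I = TT a * derivative (F Js) * F I := by
      intro I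
      have := congrFun hG0 I
      simp only [Pi.zero_apply] at this
      linear_combination this
    have hT0 : TT a ≠ 0 := by
      unfold TT
      refine Finset.prod_ne_zero_iff.2 fun i _ => ?_
      intro h
      have := congrArg (eval 0) h
      simp at this
    set ζ : ℚ := -1 / (a i0 : ℚ) with hζ
    have hai0 : (a i0 : ℚ) ≠ 0 := by
      have := ha1 i0
      positivity
    have hfac0 : (1 + C (a i0 : ℚ) * X : ℚ[X]) = (X - C ζ) * C (a i0 : ℚ) := by
      have : C (a i0 : ℚ) * C ζ = -1 := by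
        rw [← C_mul, hζ, mul_div_cancel₀ _ hai0]
        simp
      linear_combination this
    have hTfac : TT a = (X - C ζ) * Ti a i0 := by
      unfold TT Ti
      rw [← Finset.mul_prod_erase _ _ (Finset.mem_univ i0), hfac0]
      ring
    have hTi : ∀ i, i ≠ i0 → (X - C ζ) ∣ Ti a i := by
      intro i hi
      unfold Ti
      refine Dvd.dvd.mul_left ?_ _
      refine dvd_trans ?_ (Finset.dvd_prod_of_mem _ (Finset.mem_erase.2 ⟨hi.symm, Finset.mem_univ i0⟩))
      rw [hfac0]
      exact dvd_mul_right _ _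
    have hτ : (Ti a i0).eval ζ ≠ 0 := by
      unfold Ti
      rw [eval_mul, eval_C, eval_prod]
      refine mul_ne_zero hai0 (Finset.prod_ne_zero_iff.2 fun l hl => ?_)
      simp only [eval_add, eval_one, eval_mul, eval_C, eval_X]
      rw [hζ]
      intro h
      have hl' : l ≠ i0 := Finset.ne_of_mem_erase hl
      apply hl'
      apply ha
      field_simp at h
      have h' : (a l : ℚ) = a i0 := by linarith
      exact_mod_cast h'
    obtain ⟨n, V1, hV, hV1⟩ : ∃ (n : ℕ) (V1 : ℚ[X]), F Js = (X - C ζ) ^ n * V1 ∧ V1.eval ζ ≠ 0 := by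
      obtain ⟨q, h1, h2⟩ := exists_eq_pow_rootMultiplicity_mul_and_not_dvd (F Js) hVne ζ
      refine ⟨_, q, h1, ?_⟩
      rw [dvd_iff_isRoot] at h2
      exact h2
    have hdiv : ∀ J, sz J = sz Js → (X - C ζ) ^ n ∣ F J := by
      intro J hJ
      refine top_dvd ζ n V1 (F J) hV1 ?_
      rw [← hV]
      have := hEq J
      rw [htop J hJ.ge] at this
      refine mul_left_cancel₀ hT0 ?_
      linear_combination this
    -- the entry below
    set I := dn Js i0 with hI
    have hszI : sz Js = sz I + 1 := sz_dn Js i0 hi0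
    have hsum : ∃ E : ℚ[X], (∑ J : Bx r B, ∑ i,
        if dn J i = I then ((J i : ℕ) : ℚ[X]) * Ti a i * F J else 0) =
        ((Js i0 : ℕ) : ℚ[X]) * Ti a i0 * F Js + (X - C ζ) ^ (n + 1) * E := by
      rw [Finset.sum_comm, ← Finset.add_sum_erase _ _ (Finset.mem_univ i0)]
      have s1 : (∑ J : Bx r B, if dn J i0 = I then ((J i0 : ℕ) : ℚ[X]) * Ti a i0 * F J else 0) =
          ((Js i0 : ℕ) : ℚ[X]) * Ti a i0 * F Js := by
        rw [Finset.sum_eq_single Js]
        · rw [if_pos hI.symm]
        · intro J _ hJ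
          split_ifs with h
          · by_cases h0 : (J i0 : ℕ) = 0
            · rw [h0]; simp
            · exact absurd (dn_inj J Js i0 h0 hi0 h) hJ
          · rfl
        · intro h; exact absurd (Finset.mem_univ _) h
      rw [s1]
      have s2 : (X - C ζ) ^ (n + 1) ∣ ∑ i ∈ Finset.univ.erase i0, ∑ J : Bx r B,
          if dn J i = I then ((J i : ℕ) : ℚ[X]) * Ti a i * F J else 0 := by
        refine Finset.dvd_sum fun i hi => Finset.dvd_sum fun J _ => ?_
        split_ifs with h
        · by_cases h0 : (J i : ℕ) = 0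
          · rw [h0]; simp
          · have := sz_dn J i h0
            rw [h] at this
            rw [pow_succ', mul_assoc]
            exact Dvd.dvd.mul_left (mul_dvd_mul (hTi i (Finset.ne_of_mem_erase hi))
              (hdiv J (by omega))) _
        · exact dvd_zero _
      obtain ⟨E, hE⟩ := s2
      exact ⟨E, by rw [hE]⟩
    obtain ⟨E, hE⟩ := hsum
    have hfin := hEq I
    rw [dl, hE, hTfac, hV] at hfin
    refine contra ζ n (Js i0 : ℕ) V1 E (Ti a i0) (F I) hV1 hτ hi0 ?_
    rw [pow_add]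
    rw [pow_succ] at hfin
    linear_combination (-1 : ℚ[X]) * hfin

end NONZ_

open NONZ_

theorem p_NONZ : T_NONZ := by
  classical
  intro r B a P ha ha1 hP0 hW
  obtain ⟨F0, hF0, hF0'⟩ := Matrix.exists_mulVec_eq_zero_iff.2 hW
  obtain ⟨α, hα, hα'⟩ := Matrix.exists_vecMul_eq_zero_iff.2 hW
  have hex : (Finset.univ.filter (fun K => α K ≠ 0)).Nonempty := by
    by_contra hh
    apply hα
    funext J
    by_contra hJ
    exact hh ⟨J, by simp only [Finset.mem_filter, Finset.mem_univ, true_and]; exact hJ⟩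
  obtain ⟨K0, hK0, hmax⟩ := Finset.exists_max_image _ num hex
  rw [Finset.mem_filter] at hK0
  have hK0' := hK0.2
  set k0 := num K0 with hk0
  have hsurj : ∀ j, j ≤ k0 → ∃ K : Bx r B, num K = j := by
    intro j hj
    have h1 : k0 < Fintype.card (Bx r B) := (Fintype.equivFin (Bx r B) K0).isLt
    refine ⟨(Fintype.equivFin (Bx r B)).symm ⟨j, by omega⟩, ?_⟩
    simp [num]
  have hinj : ∀ K K' : Bx r B, num K = num K' → K = K' := by
    intro K K' h
    exact (Fintype.equivFin (Bx r B)).injective (Fin.ext h)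
  have hrow : ∀ F : Bx r B → ℚ[X], ∑ K, α K * ∑ J, VV a P (num K) J * F J = 0 := by
    intro F
    have : ∀ J, ∑ K, α K * VV a P (num K) J = 0 := fun J => congrFun hα' J
    calc ∑ K, α K * ∑ J, VV a P (num K) J * F J = ∑ J, (∑ K, α K * VV a P (num K) J) * F J := by
          simp only [Finset.mul_sum, Finset.sum_mul]
          rw [Finset.sum_comm]
          refine Finset.sum_congr rfl fun J _ => Finset.sum_congr rfl fun K _ => ?_
          ring
      _ = 0 := by simp [this]
  have hkey : ∀ F : Bx r B → ℚ[X], (∀ j, j < k0 → ∑ J, VV a P j J * F J = 0) →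
      ∑ J, VV a P k0 J * F J = 0 := by
    intro F hF
    have h := hrow F
    rw [Finset.sum_eq_single K0] at h
    · exact (mul_eq_zero.1 h).resolve_left hK0'
    · intro K _ hK
      rcases lt_trichotomy (num K) k0 with h1 | h1 | h1
      · rw [hF _ h1, mul_zero]
      · exact absurd (hinj K K0 h1) hK
      · have : α K = 0 := by
          by_contra hne
          have := hmax K (by simp [hne])
          omega
        rw [this, zero_mul]
    · intro h; exact absurd (Finset.mem_univ _) h
  have hk0pos : 0 < k0 := by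
    by_contra hh
    have h0 : k0 = 0 := by omega
    have h := hkey (fun J => if J = 0 then 1 else 0) (fun j hj => by omega)
    rw [h0] at h
    simp [VV] at h
    exact hP0 h
  refine hF0 (core a ha ha1 (fun F => ∀ j, j < k0 → ∑ J, VV a P j J * F J = 0) ?_ ?_ ?_ _ F0 rfl ?_)
  · intro F G hF hG p q j hj
    have e : ∑ J, VV a P j J * (p * F J + q * G J) =
        p * ∑ J, VV a P j J * F J + q * ∑ J, VV a P j J * G J := by
      simp only [Finset.mul_sum]
      rw [← Finset.sum_add_distrib]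
      refine Finset.sum_congr rfl fun J _ => ?_
      ring
    simp only
    rw [e, hF j hj, hG j hj]
    simp
  · intro F hF j hj
    have e := ident a P j F
    have e1 : ∑ J, VV a P (j + 1) J * F J = 0 := by
      rcases Nat.lt_or_ge (j + 1) k0 with h | h
      · exact hF _ h
      · have : j + 1 = k0 := by omega
        rw [this]
        exact hkey F hF
    rw [e1, hF j hj] at e
    simp only [derivative_zero, mul_zero, sub_zero, zero_sub, zero_eq_neg] at e
    exact e
  · intro F hF hJ
    have h := hF 0 hk0pos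
    rw [Finset.sum_eq_single 0] at h
    · simp only [VV] at h
      exact (mul_eq_zero.1 h).resolve_left hP0
    · intro J _ hJ0
      rw [hJ J hJ0, mul_zero]
    · intro h; exact absurd (Finset.mem_univ _) h
  · intro j hj
    obtain ⟨K, hK⟩ := hsurj j hj.le
    have := congrFun hF0' K
    rw [← hK]
    exact this

end Pool.Agent.KBD
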