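import Pool.Agent.KBD.Targets

set_option autoImplicit false

/-!
# Kummer periods: counting in short intervals
-/

namespace Pool.Agent.KBD

open Finset
open scoped BigOperators

namespace ONE_

/-- the exponent in `T_G` -/
def EE (k D : ℕ) : ℕ := 12 * (k + 1 + 1) ^ 3 * (BE k D + 1) * ((BE k D + 1) ^ (k + 1)) ^ 3

lemma EE_pos (k D : ℕ) : 1 ≤ EE k D := by
  unfold EE
  have : 0 < 12 * (k + 1 + 1) ^ 3 * (BE k D + 1) * ((BE k D + 1) ^ (k + 1)) ^ 3 := by positivity
  exact this

/-- the constant in the bound of `BE` -/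
def C1 (k : ℕ) : ℕ := ((k + 2) * (k + 1) + 1) ^ k * 2 ^ (k + 2)

lemma BE_le (k D : ℕ) (hD : 1 ≤ D) : BE k D + 1 ≤ (C1 k + 1) * D ^ (2 * k + 2) := by
  have h1 : (k + 2) * (k + 1) * D + 1 ≤ ((k + 2) * (k + 1) + 1) * D := by
    have : ((k + 2) * (k + 1) + 1) * D = (k + 2) * (k + 1) * D + D := by ring
    omega
  have h2 : D + 1 ≤ 2 * D := by omega
  have h3 : BE k D ≤ C1 k * D ^ (2 * k + 2) := by
    unfold BE C1
    calc ((k + 2) * (k + 1) * D + 1) ^ k * (D + 1) ^ (k + 2)
        ≤ (((k + 2) * (k + 1) + 1) * D) ^ k * (2 * D) ^ (k + 2) :=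
          Nat.mul_le_mul (Nat.pow_le_pow_left h1 _) (Nat.pow_le_pow_left h2 _)
      _ = ((k + 2) * (k + 1) + 1) ^ k * 2 ^ (k + 2) * D ^ (2 * k + 2) := by
          rw [mul_pow, mul_pow, show 2 * k + 2 = k + (k + 2) by ring, pow_add]
          ring
  have h4 : 1 ≤ D ^ (2 * k + 2) := Nat.one_le_pow _ _ hD
  rw [add_mul, one_mul]
  exact Nat.add_le_add h3 h4

/-- the constant -/
def KK (k : ℕ) : ℕ :=
  24 * (k + 2) ^ 3 * (C1 k + 1) ^ (3 * k + 4) + (2 * k + 2) * (3 * k + 4) + 3600 * (k + 2)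

lemma two_EE_le (k D : ℕ) (hD : 1 ≤ D) : 2 * EE k D ≤ KK k * D ^ KK k := by
  have h1 : EE k D = 12 * (k + 2) ^ 3 * (BE k D + 1) ^ (3 * k + 4) := by
    unfold EE
    have h0 : (BE k D + 1) ^ (3 * k + 4) = (BE k D + 1) * ((BE k D + 1) ^ (k + 1)) ^ 3 := by
      rw [← pow_mul, ← pow_succ']
      congr 1
      ring
    rw [h0]
    ring
  have h2 : (BE k D + 1) ^ (3 * k + 4) ≤
      (C1 k + 1) ^ (3 * k + 4) * D ^ ((2 * k + 2) * (3 * k + 4)) := by
    calc (BE k D + 1) ^ (3 * k + 4) ≤ ((C1 k + 1) * D ^ (2 * k + 2)) ^ (3 * k + 4) :=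
          Nat.pow_le_pow_left (BE_le k D hD) _
      _ = _ := by rw [mul_pow, ← pow_mul]
  have h3 : D ^ ((2 * k + 2) * (3 * k + 4)) ≤ D ^ KK k := by
    apply Nat.pow_le_pow_right hD
    unfold KK
    omega
  have h4 : 24 * (k + 2) ^ 3 * (C1 k + 1) ^ (3 * k + 4) ≤ KK k := by
    unfold KK
    omega
  calc 2 * EE k D = 24 * (k + 2) ^ 3 * (BE k D + 1) ^ (3 * k + 4) := by rw [h1]; ring
    _ ≤ 24 * (k + 2) ^ 3 * ((C1 k + 1) ^ (3 * k + 4) * D ^ ((2 * k + 2) * (3 * k + 4))) :=
        Nat.mul_le_mul_left _ h2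
    _ = 24 * (k + 2) ^ 3 * (C1 k + 1) ^ (3 * k + 4) * D ^ ((2 * k + 2) * (3 * k + 4)) := by ring
    _ ≤ KK k * D ^ KK k := Nat.mul_le_mul h4 h3

/-- a block of `A` consecutive integers beyond `(880 A)^E` contains at most `k + 1` exceptions -/
lemma block (hG : T_G) (hE : T_ELIM) {k D A : ℕ} (hA : 1 ≤ A) (θ : Fin k → ℂ)
    (t : Fin (k + 2) → ℕ) (hmono : StrictMono t) (hlt : ∀ i, t i < t 0 + A + 1)
    (hbig : (880 * A) ^ EE k D ≤ t 0) (hrel : ∀ i, Rel D θ (Real.log (t i) : ℂ)) : False := by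
  obtain ⟨c, hc, hsum⟩ := hE k D θ (fun i => (Real.log (t i) : ℂ)) hrel
  have ht0 : 1 ≤ t 0 := by
    refine le_trans ?_ hbig
    exact Nat.one_le_pow _ _ (by omega)
  have hpos : ∀ i : Fin (k + 1), t 0 < t i.succ := fun i => hmono (Fin.succ_pos i)
  let a : Fin (k + 1) → ℕ := fun i => t i.succ - t 0
  have hainj : Function.Injective a := by
    intro i j hij
    have h1 := hpos i
    have h2 := hpos j
    simp only [a] at hij
    have h3 : t i.succ = t j.succ := by omega
    exact Fin.succ_injective _ (hmono.injective h3)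
  have ha : ∀ i, 1 ≤ a i ∧ a i ≤ A := by
    intro i
    have h1 := hpos i
    have h2 := hlt i.succ
    simp only [a]
    omega
  have hlog : ∀ i : Fin (k + 1), (Real.log (t i.succ) : ℂ) - (Real.log (t 0) : ℂ) =
      ((Real.log (1 + (a i : ℝ) / (t 0 : ℕ)) : ℝ) : ℂ) := by
    intro i
    have h1 := hpos i
    have h0 : (0 : ℝ) < t 0 := by exact_mod_cast ht0
    have h2 : (0 : ℝ) < t i.succ := by
      have : 0 < t i.succ := by omega
      exact_mod_cast this
    have h3 : (1 : ℝ) + (a i : ℝ) / (t 0 : ℕ) = (t i.succ : ℝ) / t 0 := by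
      simp only [a]
      rw [Nat.cast_sub h1.le]
      field_simp
      try ring
    rw [h3, Real.log_div h2.ne' h0.ne']
    push_cast
    ring
  have hzero : c = 0 := by
    refine hG (k + 1) (BE k D) A (t 0) a hainj ha hA ?_ c ?_
    · exact hbig
    · have h1 : ((∑ J, (c J : ℝ) * ∏ i, Real.log (1 + (a i : ℝ) / (t 0 : ℕ)) ^ (J i : ℕ) : ℝ) : ℂ)
          = 0 := by
        push_cast
        rw [← hsum]
        refine Finset.sum_congr rfl fun J _ => ?_
        congr 1
        refine Finset.prod_congr rfl fun i _ => ?_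
        rw [hlog i]
      exact_mod_cast h1
  exact hc hzero

end ONE_

open ONE_ in
open Classical in
theorem p_ONE (h1 : T_G) (h2 : T_ELIM) : T_ONE := by
  intro k
  refine ⟨KK k, ?_, ?_⟩
  · unfold KK
    omega
  intro D T θ hD hT
  have hT1 : (1 : ℝ) ≤ T := by exact_mod_cast hT
  have hT0 : (0 : ℝ) < T := by linarith
  set E := EE k D with hEdef
  have hE1 : 1 ≤ E := EE_pos k D
  have hE1r : (1 : ℝ) ≤ E := by exact_mod_cast hE1
  set S : Finset ℕ := (Finset.Icc 1 T).filter (fun t => Rel D θ (Real.log t : ℂ)) with hS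
  have hSeq : {t : ℕ | (1 ≤ t ∧ t ≤ T) ∧ Rel D θ (Real.log t : ℂ)} = (S : Set ℕ) := by
    ext t
    simp [hS]
  rw [hSeq, Set.ncard_coe_finset]
  -- comparison of exponents
  have hexp : (T : ℝ) ^ (1 - 1 / (2 * (E : ℝ))) ≤ (T : ℝ) ^ (1 - 1 / (KK k * (D : ℝ) ^ KK k)) := by
    apply Real.rpow_le_rpow_of_exponent_le hT1
    have h3 : (2 * (E : ℝ)) ≤ KK k * (D : ℝ) ^ KK k := by
      exact_mod_cast two_EE_le k D hD
    have h4 : 1 / (KK k * (D : ℝ) ^ KK k) ≤ 1 / (2 * (E : ℝ)) :=
      one_div_le_one_div_of_le (by positivity) h3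
    linarith
  have hKK : (3600 * ((k : ℝ) + 2)) ≤ KK k := by
    have : 3600 * (k + 2) ≤ KK k := by unfold KK; omega
    exact_mod_cast this
  set P : ℝ := (T : ℝ) ^ (1 - 1 / (2 * (E : ℝ))) with hP
  have hP1 : 1 ≤ P := by
    apply Real.one_le_rpow hT1
    have : 1 / (2 * (E : ℝ)) ≤ 1 := by
      rw [div_le_one (by positivity)]; linarith
    linarith
  suffices hmain : (S.card : ℝ) ≤ 3600 * ((k : ℝ) + 2) * P by
    refine hmain.trans ?_
    exact mul_le_mul hKK hexp (by positivity) (by positivity)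
  set x : ℝ := (T : ℝ) ^ (1 / (2 * (E : ℝ))) with hx
  have hx1 : 1 ≤ x := Real.one_le_rpow hT1 (by positivity)
  have hPx : P * x = T := by
    rw [hP, hx, ← Real.rpow_add hT0]
    simp
  have hcardT : S.card ≤ T := by
    calc S.card ≤ (Finset.Icc 1 T).card := Finset.card_filter_le _ _
      _ = T := by simp
  have hk0 : (0 : ℝ) ≤ k := Nat.cast_nonneg k
  by_cases hx880 : x < 880
  · have h3 : (S.card : ℝ) ≤ T := by exact_mod_cast hcardT
    calc (S.card : ℝ) ≤ T := h3
      _ = P * x := hPx.symm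
      _ ≤ P * 880 := by gcongr
      _ ≤ 3600 * ((k : ℝ) + 2) * P := by nlinarith
  rw [not_lt] at hx880
  set A : ℕ := ⌊x / 880⌋₊ with hAdef
  have hy1 : 1 ≤ x / 880 := by rw [le_div_iff₀ (by norm_num)]; linarith
  have hA1 : 1 ≤ A := (Nat.one_le_floor_iff _).2 hy1
  have hA1r : (1 : ℝ) ≤ A := by exact_mod_cast hA1
  have hAle : (A : ℝ) ≤ x / 880 := Nat.floor_le (by positivity)
  have hAge : x / 1760 ≤ A := by
    have h3 : x / 880 < A + 1 := Nat.lt_floor_add_one _
    have h4 : x / 880 ≤ 2 * A := by linarith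
    linarith
  set N0 : ℕ := (880 * A) ^ E with hN0
  have hN0T : (N0 : ℝ) ≤ P := by
    have h3 : (880 * (A : ℝ)) ≤ x := by
      rw [le_div_iff₀ (by norm_num)] at hAle; linarith
    have h4 : (N0 : ℝ) ≤ x ^ E := by
      rw [hN0]; push_cast
      exact pow_le_pow_left₀ (by positivity) h3 _
    have h5 : x ^ E = (T : ℝ) ^ (1 / 2 : ℝ) := by
      rw [hx, ← Real.rpow_natCast, ← Real.rpow_mul hT0.le]
      congr 1
      field_simp
    rw [h5] at h4
    refine h4.trans ?_
    rw [hP]
    apply Real.rpow_le_rpow_of_exponent_le hT1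
    have : 1 / (2 * (E : ℝ)) ≤ 1 / 2 := by
      apply one_div_le_one_div_of_le (by norm_num); linarith
    linarith
  -- split
  have hsplit : S.card ≤ N0 + (k + 1) * (T / A + 1) := by
    have h3 : S = S.filter (fun t => t < N0) ∪ S.filter (fun t => ¬ t < N0) :=
      (Finset.filter_union_filter_not_eq _ S).symm
    have h4 : (S.filter (fun t => t < N0)).card ≤ N0 := by
      calc _ ≤ (Finset.range N0).card := by
            apply Finset.card_le_card
            intro t ht
            simp only [Finset.mem_filter] at ht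
            exact Finset.mem_range.2 ht.2
        _ = N0 := Finset.card_range _
    have h5 : (S.filter (fun t => ¬ t < N0)).card ≤ (k + 1) * (T / A + 1) := by
      have h6 : (S.filter (fun t => ¬ t < N0)).card ≤ (k + 1) *
          ((S.filter (fun t => ¬ t < N0)).image (fun t => t / A)).card := by
        apply Finset.card_le_mul_card_image
        intro q _
        by_contra hcon
        rw [not_le] at hcon
        set F := (S.filter (fun t => ¬ t < N0)).filter (fun t => t / A = q) with hF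
        have hcard : k + 2 ≤ F.card := hcon
        let t := F.orderEmbOfCardLe hcard
        have hmem : ∀ i, t i ∈ F := fun i => Finset.orderEmbOfCardLe_mem F hcard i
        have hprop : ∀ i, (Rel D θ (Real.log (t i) : ℂ)) ∧ N0 ≤ t i ∧ t i / A = q := by
          intro i
          have h7 := hmem i
          simp only [hF, hS, Finset.mem_filter] at h7
          exact ⟨h7.1.1.2, not_lt.1 h7.1.2, h7.2⟩
        refine block h1 h2 (k := k) (D := D) hA1 θ t t.strictMono (fun i => ?_) ?_
          (fun i => (hprop i).1)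
        · have h7 := (hprop i).2.2
          have h8 := (hprop 0).2.2
          have h9 : t i < A * (q + 1) := by
            rw [← h7]; exact Nat.lt_mul_div_succ _ (by omega)
          have h10 : A * q ≤ t 0 := by
            rw [← h8]; exact Nat.mul_div_le _ _
          have h11 : A * (q + 1) = A * q + A := by ring
          omega
        · exact (hprop 0).2.1
      refine h6.trans (Nat.mul_le_mul_left _ ?_)
      calc _ ≤ (Finset.range (T / A + 1)).card := by
            apply Finset.card_le_card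
            intro q hq
            simp only [Finset.mem_image, Finset.mem_filter, hS, Finset.mem_Icc] at hq
            obtain ⟨t, ht, rfl⟩ := hq
            rw [Finset.mem_range]
            have := Nat.div_le_div_right (c := A) ht.1.1.2
            omega
        _ = T / A + 1 := Finset.card_range _
    calc S.card ≤ (S.filter (fun t => t < N0)).card + (S.filter (fun t => ¬ t < N0)).card := by
          conv_lhs => rw [h3]
          exact Finset.card_union_le _ _
      _ ≤ _ := Nat.add_le_add h4 h5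
  have hTA : ((T / A : ℕ) : ℝ) ≤ 1760 * P := by
    calc ((T / A : ℕ) : ℝ) ≤ (T : ℝ) / A := Nat.cast_div_le
      _ ≤ 1760 * P := by
        rw [div_le_iff₀ (by linarith), ← hPx]
        have h3 : P * x ≤ P * (1760 * A) := by
          apply mul_le_mul_of_nonneg_left _ (by positivity)
          linarith
        linarith
  calc (S.card : ℝ) ≤ ((N0 + (k + 1) * (T / A + 1) : ℕ) : ℝ) := by exact_mod_cast hsplit
    _ = N0 + ((k : ℝ) + 1) * (((T / A : ℕ) : ℝ) + 1) := by push_cast; ring
    _ ≤ P + ((k : ℝ) + 1) * (1760 * P + P) := by gcongr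
    _ ≤ 3600 * ((k : ℝ) + 2) * P := by nlinarith

end Pool.Agent.KBD
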