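import Pool.Agent.KBD.Targets

set_option autoImplicit false

/-!
# KBD-ORD0: order of the determinant at zero
-/

namespace Pool.Agent.KBD

open Finset
open scoped BigOperators

namespace ORD0_

/-- the matrix of the gauge transformation -/
noncomputable def U {r B : ℕ} (l : Fin r → PowerSeries ℚ) (I J : Bx r B) : PowerSeries ℚ :=
  (bin I J : PowerSeries ℚ) * (∏ i, (-l i) ^ ((J i : ℕ) - (I i : ℕ)))

theorem lg_const (b : ℚ) : PowerSeries.constantCoeff (lg b) = 0 := by
  rw [← PowerSeries.coeff_zero_eq_constantCoeff_apply]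
  simp [lg]

theorem bin_self {r B : ℕ} (J : Bx r B) : bin J J = 1 := by
  simp [bin]

theorem constU {r B : ℕ} (l : Fin r → PowerSeries ℚ)
    (hl : ∀ i, PowerSeries.constantCoeff (l i) = 0) (I J : Bx r B) :
    PowerSeries.constantCoeff (U l I J) = if I = J then 1 else 0 := by
  rw [U, map_mul, map_prod, map_natCast]
  simp only [map_pow, map_neg, hl, neg_zero]
  split_ifs with h
  · subst h
    simp [bin_self]
  · by_cases h1 : ∀ i, (I i : ℕ) ≤ J i
    · have h2 : ∃ i, (I i : ℕ) ≠ J i := by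
        by_contra hcon
        push Not at hcon
        exact h (funext fun i => Fin.ext (hcon i))
      obtain ⟨i, hi⟩ := h2
      have h3 : (J i : ℕ) - (I i : ℕ) ≠ 0 := by
        have := h1 i
        omega
      rw [Finset.prod_eq_zero (mem_univ i) (zero_pow h3), mul_zero]
    · push Not at h1
      obtain ⟨i, hi⟩ := h1
      have : bin I J = 0 := by
        rw [bin]
        exact Finset.prod_eq_zero (mem_univ i) (Nat.choose_eq_zero_of_lt hi)
      rw [this, Nat.cast_zero, zero_mul]

theorem detU {r B : ℕ} (l : Fin r → PowerSeries ℚ)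
    (hl : ∀ i, PowerSeries.constantCoeff (l i) = 0) :
    IsUnit (Matrix.det (fun (I J : Bx r B) => U l I J)) := by
  rw [PowerSeries.isUnit_iff_constantCoeff]
  have h1 : PowerSeries.constantCoeff (Matrix.det (fun (I J : Bx r B) => U l I J)) =
      Matrix.det ((PowerSeries.constantCoeff (R := ℚ)).mapMatrix (fun (I J : Bx r B) => U l I J)) :=
    RingHom.map_det _ _
  have h2 : (PowerSeries.constantCoeff (R := ℚ)).mapMatrix (fun (I J : Bx r B) => U l I J) =
      (1 : Matrix (Bx r B) (Bx r B) ℚ) := by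
    ext I J
    rw [RingHom.mapMatrix_apply, Matrix.map_apply, constU l hl, Matrix.one_apply]
  rw [h1, h2, Matrix.det_one]
  exact isUnit_one

theorem gg_eq {r B : ℕ} (l : Fin r → PowerSeries ℚ) (P : Bx r B → PowerSeries ℚ) (J : Bx r B) :
    gg l P J = ∑ I : Bx r B, P I * U l I J := by
  rw [gg]
  apply Finset.sum_congr rfl
  intro I _
  rw [U]
  ring

theorem ty_zero (p : Polynomial ℚ) : ty 0 p = (p : PowerSeries ℚ) := by
  rw [ty, Polynomial.taylor_zero]

theorem sl_zero {r : ℕ} (a : Fin r → ℕ) (i : Fin r) : sl a 0 i = (a i : ℚ) := by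
  simp [sl]

/-- the product binomial theorem -/
theorem binomial {r B : ℕ} (l : Fin r → PowerSeries ℚ) (J : Bx r B) (hJ : J ≠ 0) :
    ∑ I : Bx r B, (∏ i, l i ^ (I i : ℕ)) * U l I J = 0 := by
  have h1 : ∀ I : Bx r B, (∏ i, l i ^ (I i : ℕ)) * U l I J =
      ∏ i, (l i ^ (I i : ℕ) * (-l i) ^ ((J i : ℕ) - (I i : ℕ)) * ((J i : ℕ).choose (I i : ℕ) :
        PowerSeries ℚ)) := by
    intro I
    rw [U, bin]
    push_cast
    rw [← Finset.prod_mul_distrib, ← Finset.prod_mul_distrib]
    apply Finset.prod_congr rfl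
    intro i _
    ring
  simp only [h1]
  have h2 := Finset.prod_univ_sum (fun _ : Fin r => (univ : Finset (Fin (B + 1))))
    (fun i t => (l i ^ (t : ℕ) * (-l i) ^ ((J i : ℕ) - (t : ℕ)) * ((J i : ℕ).choose (t : ℕ) :
        PowerSeries ℚ)))
  rw [Fintype.piFinset_univ] at h2
  rw [← h2]
  have h3 : ∃ i, J i ≠ 0 := by
    by_contra hcon
    push Not at hcon
    exact hJ (funext hcon)
  obtain ⟨i, hi⟩ := h3
  apply Finset.prod_eq_zero (mem_univ i)
  rw [Fin.sum_univ_eq_sum_range (fun t => l i ^ t * (-l i) ^ ((J i : ℕ) - t) *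
    ((J i : ℕ).choose t : PowerSeries ℚ)) (B + 1)]
  have h4 : ∑ t ∈ range ((J i : ℕ) + 1), l i ^ t * (-l i) ^ ((J i : ℕ) - t) *
    ((J i : ℕ).choose t : PowerSeries ℚ) = ∑ t ∈ range (B + 1), l i ^ t * (-l i) ^ ((J i : ℕ) - t) *
    ((J i : ℕ).choose t : PowerSeries ℚ) := by
    apply Finset.sum_subset
    · intro t ht
      rw [mem_range] at ht ⊢
      have := (J i).isLt
      omega
    · intro t _ ht
      rw [mem_range, not_lt] at ht
      rw [Nat.choose_eq_zero_of_lt (by omega), Nat.cast_zero, mul_zero]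
  rw [← h4, ← add_pow, add_neg_cancel, zero_pow]
  intro h
  exact hi (Fin.ext h)

theorem dvd_deriv {s : ℕ} {g : PowerSeries ℚ} (h : (PowerSeries.X : PowerSeries ℚ) ^ s ∣ g) :
    (PowerSeries.X : PowerSeries ℚ) ^ (s - 1) ∣ PowerSeries.derivative ℚ g := by
  rw [PowerSeries.X_pow_dvd_iff] at h ⊢
  intro m hm
  rw [PowerSeries.coeff_derivative, h (m + 1) (by omega), zero_mul]

theorem dvd_iter {s : ℕ} {g : PowerSeries ℚ} (h : (PowerSeries.X : PowerSeries ℚ) ^ s ∣ g) (k : ℕ) :
    (PowerSeries.X : PowerSeries ℚ) ^ (s - k) ∣ (PowerSeries.derivative ℚ)^[k] g := by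
  induction k with
  | zero => simpa using h
  | succ k ih =>
    rw [Function.iterate_succ_apply']
    have := dvd_deriv ih
    rwa [Nat.sub_sub] at this

theorem det_dvd {n : Type*} [Fintype n] [DecidableEq n] (G : Matrix n n (PowerSeries ℚ)) (j₀ : n)
    (s : ℕ) (h : ∀ i j, j ≠ j₀ → (PowerSeries.X : PowerSeries ℚ) ^ s ∣ G i j) :
    (PowerSeries.X : PowerSeries ℚ) ^ ((Fintype.card n - 1) * s) ∣ Matrix.det G := by
  classical
  choose! q hq using h
  set G' : Matrix n n (PowerSeries ℚ) := Matrix.of fun i j => if j = j₀ then G i j else q i j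
  have h1 : G = Matrix.of fun i j =>
      (fun j => if j = j₀ then 1 else (PowerSeries.X : PowerSeries ℚ) ^ s) j * G' i j := by
    ext1 i j
    simp only [Matrix.of_apply, G']
    split_ifs with hj
    · rw [one_mul]
    · exact hq i j hj
  rw [h1, Matrix.det_mul_row]
  apply Dvd.dvd.mul_right
  rw [Finset.prod_ite]
  simp only [prod_const_one, one_mul, prod_const]
  rw [← pow_mul, mul_comm s]
  apply pow_dvd_pow
  apply Nat.mul_le_mul_right
  apply le_of_eq
  rw [Finset.filter_not, Finset.filter_eq' univ j₀]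
  simp [Finset.card_sdiff]

end ORD0_

open ORD0_ in
theorem p_ORD0 (h : T_GAU) : T_ORD0 := by
  intro r B m σ a P hP
  set l : Fin r → PowerSeries ℚ := fun i => lg (sl a 0 i) with hl
  have hl0 : ∀ i, PowerSeries.constantCoeff (l i) = 0 := fun i => lg_const _
  have hcard : Fintype.card (Bx r B) = (B + 1) ^ r := by simp
  -- order of the gauge of P
  have h1 : ∀ J : Bx r B, J ≠ 0 → (PowerSeries.X : PowerSeries ℚ) ^ σ ∣ g0 a 0 P J := by
    intro J hJ
    rw [g0, gg_eq]
    have h2 : ∀ I : Bx r B, ty 0 (P I) * U l I J =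
        (P 0 : PowerSeries ℚ) * ((∏ i, l i ^ (I i : ℕ)) * U l I J) -
        ((P 0 : PowerSeries ℚ) * ff a I - (P I : PowerSeries ℚ)) * U l I J := by
      intro I
      have : ff a I = ∏ i, l i ^ (I i : ℕ) := by
        simp only [ff, hl, sl_zero]
      rw [ty_zero, this]
      ring
    rw [Finset.sum_congr rfl (fun I _ => h2 I), Finset.sum_sub_distrib, ← Finset.mul_sum,
      binomial l J hJ, mul_zero, zero_sub, dvd_neg]
    apply Finset.dvd_sum
    intro I _
    exact (hP.ord I).mul_right _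
  -- the product of matrices
  set G : Matrix (Bx r B) (Bx r B) (PowerSeries ℚ) := fun K J => g0 a 0 (VV a P (num K)) J with hG
  have h3 : Matrix.det G = ((WW a P : Polynomial ℚ) : PowerSeries ℚ) *
      Matrix.det (fun (I J : Bx r B) => U l I J) := by
    have h4 : ((WW a P : Polynomial ℚ) : PowerSeries ℚ) =
        Matrix.det (fun (K J : Bx r B) => ((VV a P (num K) J : Polynomial ℚ) : PowerSeries ℚ)) := by
      have := RingHom.map_det (Polynomial.coeToPowerSeries.ringHom (R := ℚ))
        (fun (K J : Bx r B) => VV a P (num K) J)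
      exact this
    rw [h4, ← Matrix.det_mul]
    congr 1
    ext1 K J
    rw [Matrix.mul_apply]
    simp only [hG]
    rw [g0, gg_eq]
    apply Finset.sum_congr rfl
    intro I _
    rw [ty_zero]
  have h5 : (PowerSeries.X : PowerSeries ℚ) ^ (((B + 1) ^ r - 1) * (σ - ((B + 1) ^ r - 1))) ∣
      Matrix.det G := by
    have := det_dvd G 0 (σ - ((B + 1) ^ r - 1)) ?_
    · rwa [hcard] at this
    · intro K J hJ
      simp only [hG]
      rw [h r B a 0 P le_rfl]
      apply Dvd.dvd.mul_left
      refine dvd_trans (pow_dvd_pow _ ?_) (dvd_iter (h1 J hJ) (num K))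
      have : num K < (B + 1) ^ r := by
        rw [← hcard]
        exact (Fintype.equivFin (Bx r B) K).isLt
      omega
  rw [h3, (detU l hl0).dvd_mul_right] at h5
  rw [PowerSeries.X_pow_dvd_iff] at h5
  rw [Polynomial.X_pow_dvd_iff]
  intro n hn
  have := h5 n hn
  rwa [Polynomial.coeff_coe] at this

end Pool.Agent.KBD
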