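import Pool.Agent.KBD.Targets

set_option autoImplicit false

/-!
# KBD, job ORD1: order of the determinant at `z0`
-/

namespace Pool.Agent.KBD

open Finset
open scoped BigOperators

namespace ORD1_

/-- `ty z0` as a ring homomorphism -/
noncomputable def tyh (z0 : ℚ) : Polynomial ℚ →+* PowerSeries ℚ :=
  (Polynomial.coeToPowerSeries.ringHom (R := ℚ)).comp
    ((Polynomial.taylorAlgHom z0 : Polynomial ℚ →ₐ[ℚ] Polynomial ℚ) : Polynomial ℚ →+* Polynomial ℚ)

theorem tyh_apply (z0 : ℚ) (p : Polynomial ℚ) : tyh z0 p = ty z0 p := rfl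

/-- the matrix of the change of gauge -/
noncomputable def UU {r B : ℕ} (l : Fin r → PowerSeries ℚ) :
    Matrix (Bx r B) (Bx r B) (PowerSeries ℚ) := fun I J =>
  (bin I J : PowerSeries ℚ) * (∏ i, (-l i) ^ ((J i : ℕ) - (I i : ℕ)))

theorem bin_self {r B : ℕ} (I : Bx r B) : bin I I = 1 := by
  unfold bin
  exact Finset.prod_eq_one fun i _ => Nat.choose_self _

theorem cc_UU {r B : ℕ} (l : Fin r → PowerSeries ℚ)
    (hl : ∀ i, PowerSeries.constantCoeff (l i) = 0) (I J : Bx r B) :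
    PowerSeries.constantCoeff (UU l I J) = if I = J then 1 else 0 := by
  unfold UU
  rw [map_mul, map_natCast, map_prod]
  split_ifs with h
  · subst h
    rw [bin_self, Nat.cast_one, one_mul]
    refine Finset.prod_eq_one fun i _ => ?_
    rw [Nat.sub_self, pow_zero, map_one]
  · obtain ⟨i, hi⟩ := Function.ne_iff.mp h
    have hi' : (I i : ℕ) ≠ (J i : ℕ) := fun h' => hi (Fin.ext h')
    rcases lt_or_gt_of_ne hi' with h1 | h1
    · have h2 : (∏ i, PowerSeries.constantCoeff ((-l i) ^ ((J i : ℕ) - (I i : ℕ)))) = 0 := by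
        refine Finset.prod_eq_zero (Finset.mem_univ i) ?_
        rw [map_pow, map_neg, hl, neg_zero, zero_pow (by omega)]
      rw [h2, mul_zero]
    · have h2 : bin I J = 0 :=
        Finset.prod_eq_zero (Finset.mem_univ i) (Nat.choose_eq_zero_of_lt h1)
      rw [h2, Nat.cast_zero, zero_mul]

theorem isUnit_det_UU {r B : ℕ} (l : Fin r → PowerSeries ℚ)
    (hl : ∀ i, PowerSeries.constantCoeff (l i) = 0) :
    IsUnit (Matrix.det (UU l : Matrix (Bx r B) (Bx r B) (PowerSeries ℚ))) := by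
  rw [PowerSeries.isUnit_iff_constantCoeff, RingHom.map_det]
  have h : (PowerSeries.constantCoeff (R := ℚ)).mapMatrix
      (UU l : Matrix (Bx r B) (Bx r B) (PowerSeries ℚ)) = 1 := by
    ext I J
    rw [RingHom.mapMatrix_apply, Matrix.map_apply, cc_UU l hl, Matrix.one_apply]
  rw [h, Matrix.det_one]
  exact isUnit_one

theorem cc_lg (b : ℚ) : PowerSeries.constantCoeff (lg b) = 0 := by
  unfold lg
  rw [← PowerSeries.coeff_zero_eq_constantCoeff_apply, PowerSeries.coeff_mk]
  simp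

/-- the matrix `G` -/
noncomputable def GG {r B : ℕ} (a : Fin r → ℕ) (z0 : ℚ) (P : Bx r B → Polynomial ℚ) :
    Matrix (Bx r B) (Bx r B) (PowerSeries ℚ) := fun K J => g0 a z0 (VV a P (num K)) J

/-- the matrix of `WW` -/
noncomputable def MV {r B : ℕ} (a : Fin r → ℕ) (P : Bx r B → Polynomial ℚ) :
    Matrix (Bx r B) (Bx r B) (Polynomial ℚ) := fun K J => VV a P (num K) J

theorem GG_eq {r B : ℕ} (a : Fin r → ℕ) (z0 : ℚ) (P : Bx r B → Polynomial ℚ) :
    GG a z0 P = (tyh z0).mapMatrix (MV a P) * UU (fun i => lg (sl a z0 i)) := by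
  ext1 K J
  rw [Matrix.mul_apply]
  show ∑ I : Bx r B, ((bin I J : PowerSeries ℚ) *
    (∏ i, (-lg (sl a z0 i)) ^ ((J i : ℕ) - (I i : ℕ)))) * ty z0 (VV a P (num K) I) = _
  refine Finset.sum_congr rfl fun I _ => ?_
  exact mul_comm _ _

theorem det_GG {r B : ℕ} (a : Fin r → ℕ) (z0 : ℚ) (P : Bx r B → Polynomial ℚ) :
    (GG a z0 P).det = ty z0 (WW a P) *
      (UU (fun i => lg (sl a z0 i)) : Matrix (Bx r B) (Bx r B) (PowerSeries ℚ)).det := by
  rw [GG_eq, Matrix.det_mul, ← RingHom.map_det, tyh_apply]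
  rfl

theorem dvd_det_of_mulVec {ι : Type} [Fintype ι] [DecidableEq ι] (s : ℕ)
    (G : Matrix ι ι (PowerSeries ℚ)) (lam : ι → ℚ) (hlam : lam ≠ 0)
    (h : ∀ K, (PowerSeries.X : PowerSeries ℚ) ^ s ∣
      G.mulVec (fun J => PowerSeries.C (lam J)) K) :
    (PowerSeries.X : PowerSeries ℚ) ^ s ∣ G.det := by
  obtain ⟨J, hJ⟩ := Function.ne_iff.mp hlam
  have h1 : G.adjugate.mulVec (G.mulVec (fun J => PowerSeries.C (lam J))) J =
      G.det * PowerSeries.C (lam J) := by
    rw [Matrix.mulVec_mulVec, Matrix.adjugate_mul, Matrix.smul_mulVec, Matrix.one_mulVec,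
      Pi.smul_apply, smul_eq_mul]
  have h2 : (PowerSeries.X : PowerSeries ℚ) ^ s ∣ G.det * PowerSeries.C (lam J) := by
    rw [← h1]
    unfold Matrix.mulVec dotProduct
    exact Finset.dvd_sum fun K _ => (h K).mul_left _
  have h3 : IsUnit (PowerSeries.C (lam J)) :=
    (isUnit_iff_ne_zero.mpr hJ).map (PowerSeries.C (R := ℚ))
  exact (h3.dvd_mul_right).mp h2

theorem dvd_deriv (n k : ℕ) (H : PowerSeries ℚ) (h : (PowerSeries.X : PowerSeries ℚ) ^ n ∣ H) :
    (PowerSeries.X : PowerSeries ℚ) ^ (n - k) ∣ (PowerSeries.derivative ℚ)^[k] H := by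
  rw [PowerSeries.X_pow_dvd_iff] at h ⊢
  intro m hm
  rw [PowerSeries.coeff_iterate_derivative, h (m + k) (by omega)]
  simp

theorem iter_sum {ι : Type} (s : Finset ι) (f : ι → PowerSeries ℚ) (k : ℕ) :
    (PowerSeries.derivative ℚ)^[k] (∑ i ∈ s, f i) =
      ∑ i ∈ s, (PowerSeries.derivative ℚ)^[k] (f i) := by
  have h : ∀ x, (PowerSeries.derivative ℚ)^[k] x =
      (((PowerSeries.derivative ℚ : PowerSeries ℚ →ₗ[ℚ] PowerSeries ℚ)) ^ k) x := by
    intro x
    rw [Module.End.pow_apply]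
    rfl
  rw [h, map_sum]
  exact Finset.sum_congr rfl fun i _ => (h _).symm

theorem iter_C_mul (c : ℚ) (f : PowerSeries ℚ) (k : ℕ) :
    (PowerSeries.derivative ℚ)^[k] (PowerSeries.C c * f) =
      PowerSeries.C c * (PowerSeries.derivative ℚ)^[k] f := by
  induction k generalizing f with
  | zero => rfl
  | succ k ih =>
    rw [Function.iterate_succ_apply, Function.iterate_succ_apply, Derivation.leibniz,
      PowerSeries.derivative_C, smul_zero, add_zero, smul_eq_mul, ih]

end ORD1_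

open ORD1_ in
theorem p_ORD1 (hG : T_GAU) : T_ORD1 := by
  intro r B K0 a z0 P lam hz0 hlam hk
  set s := K0 + 1 - ((B + 1) ^ r - 1) with hs
  set H : PowerSeries ℚ := ∑ J, PowerSeries.C (lam J) * g0 a z0 P J with hH
  have hH1 : (PowerSeries.X : PowerSeries ℚ) ^ (K0 + 1) ∣ H := by
    rw [PowerSeries.X_pow_dvd_iff]
    intro k hk1
    rw [hH, map_sum]
    rw [← hk k (by omega)]
    refine Finset.sum_congr rfl fun J _ => ?_
    rw [PowerSeries.coeff_C_mul]
    rfl
  have hcard : Fintype.card (Bx r B) = (B + 1) ^ r := by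
    rw [Fintype.card_fun, Fintype.card_fin, Fintype.card_fin]
  have hnum : ∀ K : Bx r B, num K < (B + 1) ^ r := by
    intro K
    have := (Fintype.equivFin (Bx r B) K).isLt
    unfold num
    omega
  have h1 : (PowerSeries.X : PowerSeries ℚ) ^ s ∣ (GG a z0 P).det := by
    refine dvd_det_of_mulVec s _ lam hlam fun K => ?_
    have h2 : (GG a z0 P).mulVec (fun J => PowerSeries.C (lam J)) K =
        ty z0 (TT a) ^ (num K) * (PowerSeries.derivative ℚ)^[num K] H := by
      show ∑ J, g0 a z0 (VV a P (num K)) J * PowerSeries.C (lam J) = _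
      rw [hH, iter_sum, Finset.mul_sum]
      refine Finset.sum_congr rfl fun J _ => ?_
      rw [hG r B a z0 P hz0, iter_C_mul]
      ring
    rw [h2]
    refine Dvd.dvd.mul_left ?_ _
    refine (pow_dvd_pow _ ?_).trans (dvd_deriv (K0 + 1) (num K) H hH1)
    have := hnum K
    omega
  rw [det_GG] at h1
  have h2 := (isUnit_det_UU (r := r) (B := B) (fun i => lg (sl a z0 i))
    (fun i => cc_lg _)).dvd_mul_right.mp h1
  rw [Polynomial.X_sub_C_pow_dvd_iff, Polynomial.X_pow_dvd_iff]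
  rw [PowerSeries.X_pow_dvd_iff] at h2
  intro d hd
  have h3 := h2 d hd
  unfold ty at h3
  rw [Polynomial.coeff_coe, Polynomial.taylor_apply] at h3
  exact h3

end Pool.Agent.KBD
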