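import Pool.Agent.KBD.Targets

set_option autoImplicit false

/-! Kummer periods, bounded degree: Chebyshev bound and the zero estimate. -/

namespace Pool.Agent.KBD

open Finset

theorem p_LCM : T_LCM := by
  intro n
  have h1 := Chebyshev.psi_le_const_mul_self (x := (n : ℝ)) (by positivity)
  rw [Chebyshev.psi_eq_log_lcmUpto] at h1
  have hpos : (0 : ℝ) < Nat.lcmUpto n := by exact_mod_cast Nat.lcmUpto_pos n
  have h2 : (Nat.lcmUpto n : ℝ) ≤ Real.exp ((Real.log 4 + 4) * n) := by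
    rw [← Real.log_le_iff_le_exp hpos]
    exact h1
  have h3 : Real.exp ((Real.log 4 + 4) * n) = (4 * Real.exp 4) ^ n := by
    rw [mul_comm, Real.exp_nat_mul, Real.exp_add, Real.exp_log (by norm_num)]
  have h4 : Real.exp 4 ≤ 55 := by
    have h5 := Real.exp_one_lt_d9
    have h6 : Real.exp 4 = Real.exp 1 ^ 4 := by
      rw [← Real.exp_nat_mul]; norm_num
    rw [h6]
    calc Real.exp 1 ^ 4 ≤ (2.7182818286 : ℝ) ^ 4 :=
          pow_le_pow_left₀ (Real.exp_pos _).le h5.le 4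
      _ ≤ 55 := by norm_num
  have h5 : (Nat.lcmUpto n : ℝ) ≤ (220 : ℝ) ^ n := by
    rw [h3] at h2
    refine h2.trans (pow_le_pow_left₀ (by positivity) ?_ n)
    linarith
  exact_mod_cast h5

theorem p_ZE (h1 : T_NONZ) (h2 : T_ORD0) (h3 : T_ORD1) (h4 : T_DEG) : T_ZE := by
  intro r B m σ K0 a z0 P lam ha ha1 hz0 hP hlam hk
  set M := (B + 1) ^ r with hM
  have hM1 : 1 ≤ M := Nat.one_le_pow _ _ (by omega)
  have hW := h1 r B a P ha ha1 hP.ne
  have d0 := h2 r B m σ a P hP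
  have d1 := h3 r B K0 a z0 P lam hz0.le hlam hk
  have dg := h4 r B m a P hP.deg
  rw [← hM] at d0 d1 dg
  have hco : IsCoprime (Polynomial.X ^ ((M - 1) * (σ - (M - 1))) : Polynomial ℚ)
      ((Polynomial.X - Polynomial.C z0) ^ (K0 + 1 - (M - 1))) := by
    apply IsCoprime.pow
    have := Polynomial.isCoprime_X_sub_C_of_isUnit_sub (R := ℚ) (a := 0) (b := z0)
      (by simpa using hz0.ne')
    simpa using this
  have hdvd := hco.mul_dvd d0 d1
  have hdeg := Polynomial.natDegree_le_of_dvd hdvd hW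
  rw [Polynomial.natDegree_mul (pow_ne_zero _ Polynomial.X_ne_zero)
    (pow_ne_zero _ (Polynomial.X_sub_C_ne_zero z0)), Polynomial.natDegree_pow,
    Polynomial.natDegree_pow, Polynomial.natDegree_X, Polynomial.natDegree_X_sub_C,
    mul_one, mul_one] at hdeg
  have h5 := hdeg.trans dg
  obtain ⟨M', hM'⟩ : ∃ M', M = M' + 1 := ⟨M - 1, by omega⟩
  rw [hM'] at h5 ⊢
  simp only [Nat.add_sub_cancel] at h5 ⊢
  have h6 : M' * σ ≤ M' * (σ - M') + M' * M' := by
    rw [← Nat.mul_add]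
    exact Nat.mul_le_mul_left _ (by omega)
  have h7 : K0 + 1 ≤ (K0 + 1 - M') + M' := by omega
  nlinarith

end Pool.Agent.KBD
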