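import Pool.Agent.KBD.Targets
import Pool.Agent.KBD.ZE
import Pool.Agent.KBD.G
import Pool.Agent.KBD.NONZ
import Pool.Agent.KBD.GAU
import Pool.Agent.KBD.ORD0
import Pool.Agent.KBD.ORD1
import Pool.Agent.KBD.DEG
import Pool.Agent.KBD.COEF
import Pool.Agent.KBD.SIEG
import Pool.Agent.KBD.DEN
import Pool.Agent.KBD.AN
import Pool.Agent.KBD.ELIM
import Pool.Agent.KBD.ONE
import Pool.Agent.KBD.MULTI
import Pool.Agent.KAA.PI

set_option autoImplicit false

/-!
# Almost all Kummer motives have no period relation of bounded degree, of any height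

The motive `H^1(G_m, {1, t_1, ..., t_n})` has the periods `2 π i, log t_1, ..., log t_n`.  For every
finite family `θ` of complex numbers (for instance `θ = 2 π i`, or all periods of a fixed motive)
and all but `O(T^(n - 1/(K D^K)))` tuples `t` of positive integers `≤ T`, the numbers
`log t_1, ..., log t_n` satisfy no polynomial relation over `ℤ[θ]` of degree `≤ D`, whatever the
size of its coefficients.
-/

namespace Pool.Agent.KBD.KummerBoundedDegree

open Finset

/-- The polynomial `P(θ, y)` in the variables `y_1, …, y_n`, obtained from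
`P ∈ ℤ[x_1, …, x_k, y_1, …, y_n]` by putting `x = θ`. -/
noncomputable def specialise {k n : ℕ} (θ : Fin k → ℂ) (P : MvPolynomial (Fin k ⊕ Fin n) ℤ) :
    MvPolynomial (Fin n) ℂ :=
  MvPolynomial.aeval (Sum.elim (fun i => MvPolynomial.C (θ i)) MvPolynomial.X) P

/-- `v = (v_1, …, v_n)` satisfies a nontrivial polynomial relation over `ℤ[θ]` of degree `≤ D`:
there is `P ∈ ℤ[x_1, …, x_k, y_1, …, y_n]` of total degree at most `D` (and with arbitrary
coefficients) such that the polynomial `P(θ, y)` is not zero and `P(θ, v) = 0`. -/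
def HasRelation {k n : ℕ} (D : ℕ) (θ : Fin k → ℂ) (v : Fin n → ℂ) : Prop :=
  ∃ P : MvPolynomial (Fin k ⊕ Fin n) ℤ, P.totalDegree ≤ D ∧ specialise θ P ≠ 0 ∧
    MvPolynomial.aeval (Sum.elim θ v) P = 0

/-- If `θ` is algebraically independent over `ℤ`, then `P(θ, y)` is nonzero for every nonzero `P`. -/
theorem specialise_ne_zero {k n : ℕ} (θ : Fin k → ℂ) (hθ : AlgebraicIndependent ℤ θ)
    (P : MvPolynomial (Fin k ⊕ Fin n) ℤ) (hP : P ≠ 0) : specialise θ P ≠ 0 := by
  let F : MvPolynomial (Fin k ⊕ Fin n) ℤ →ₐ[ℤ] MvPolynomial (Fin n) ℂ :=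
    ((MvPolynomial.mapAlgHom (σ := Fin n)
      (MvPolynomial.aeval θ : MvPolynomial (Fin k) ℤ →ₐ[ℤ] ℂ)).comp
      ((MvPolynomial.sumAlgEquiv ℤ (Fin n) (Fin k)).toAlgHom)).comp
      (MvPolynomial.rename Sum.swap)
  have hF : F = MvPolynomial.aeval
      (Sum.elim (fun i => MvPolynomial.C (θ i)) MvPolynomial.X) := by
    apply MvPolynomial.algHom_ext
    intro i
    rcases i with i | i
    · simp [F]
    · simp [F]
  have h1 : specialise θ P = F P := by rw [hF]; rfl
  rw [h1]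
  intro h0
  have hinj : Function.Injective F := by
    have hi1 : Function.Injective (MvPolynomial.map (σ := Fin n)
        ((MvPolynomial.aeval θ : MvPolynomial (Fin k) ℤ →ₐ[ℤ] ℂ) : MvPolynomial (Fin k) ℤ →+* ℂ)) :=
      MvPolynomial.map_injective _ hθ
    have hi2 : Function.Injective (MvPolynomial.rename (R := ℤ)
        (Sum.swap : Fin k ⊕ Fin n → Fin n ⊕ Fin k)) :=
      MvPolynomial.rename_injective _ (Equiv.sumComm _ _).injective
    intro a b hab
    apply hi2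
    apply (MvPolynomial.sumAlgEquiv ℤ (Fin n) (Fin k)).injective
    exact hi1 hab
  exact hP (hinj (by rw [h0, map_zero]))

/-- Lindemann: `2 π i` is transcendental; so `specialise_ne_zero` applies to `k = 1`, `θ = 2 π i`. -/
theorem algInd_two_pi_I :
    AlgebraicIndependent ℤ (fun _ : Fin 1 => (2 * Real.pi * Complex.I : ℂ)) := by
  rw [algebraicIndependent_unique_type_iff]
  intro h
  obtain ⟨p, hp, hp0⟩ := h
  exact KAA.tPI p hp hp0

/-- Expansion of a polynomial of degree at most `D` over the box of exponents at most `D`. -/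
theorem aeval_box {ι : Type} [Fintype ι] [DecidableEq ι] {S : Type} [CommRing S] [Algebra ℤ S]
    (D : ℕ) (P : MvPolynomial ι ℤ) (hP : P.totalDegree ≤ D) (u : ι → S) :
    MvPolynomial.aeval u P = ∑ γ : ι → Fin (D + 1),
      algebraMap ℤ S (P.coeff (Finsupp.equivFunOnFinite.symm (fun i => (γ i : ℕ)))) *
        ∏ i, u i ^ (γ i : ℕ) := by
  classical
  rw [MvPolynomial.aeval_def, MvPolynomial.eval₂_eq']
  symm
  refine Finset.sum_bij_ne_zero
    (fun γ _ _ => Finsupp.equivFunOnFinite.symm (fun i => (γ i : ℕ))) ?_ ?_ ?_ ?_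
  · intro γ _ hγ
    rw [MvPolynomial.mem_support_iff]
    intro h0
    apply hγ
    rw [h0]; simp
  · intro γ₁ _ _ γ₂ _ _ h
    have h1 := Finsupp.equivFunOnFinite.symm.injective h
    funext i
    exact Fin.ext (congrFun h1 i)
  · intro m hm hne
    have hdeg : ∀ i, m i < D + 1 := by
      intro i
      have h1 := MvPolynomial.le_totalDegree hm
      have h2 : m i ≤ m.sum (fun _ e => e) := by
        by_cases hi : i ∈ m.support
        · exact Finset.single_le_sum (f := fun i => m i) (fun _ _ => Nat.zero_le _) hi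
        · rw [Finsupp.notMem_support_iff.mp hi]; exact Nat.zero_le _
      omega
    refine ⟨fun i => ⟨m i, hdeg i⟩, mem_univ _, ?_, ?_⟩
    · have h3 : Finsupp.equivFunOnFinite.symm (fun i => ((⟨m i, hdeg i⟩ : Fin (D + 1)) : ℕ)) = m := by
        ext i; simp
      rw [h3]; exact hne
    · ext i; simp
  · intro γ _ _
    simp

theorem hasRelation_mrel {k n : ℕ} (D : ℕ) (θ : Fin k → ℂ) (v : Fin n → ℂ)
    (h : HasRelation D θ v) : KBD.MRel D θ v := by
  classical
  obtain ⟨P, hPdeg, hPne, hP0⟩ := h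
  let mon : (Fin n → Fin (D + 1)) → (Fin k → Fin (D + 1)) → ((Fin k ⊕ Fin n) →₀ ℕ) :=
    fun β α => Finsupp.equivFunOnFinite.symm
      (fun x => ((Sum.elim α β x : Fin (D + 1)) : ℕ))
  have hexp : ∀ {S : Type} [CommRing S] [Algebra ℤ S] (u : Fin k ⊕ Fin n → S),
      MvPolynomial.aeval u P = ∑ β : Fin n → Fin (D + 1),
        (∑ α : Fin k → Fin (D + 1), algebraMap ℤ S (P.coeff (mon β α)) *
            ∏ i, u (Sum.inl i) ^ (α i : ℕ)) * ∏ l, u (Sum.inr l) ^ (β l : ℕ) := by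
    intro S _ _ u
    rw [aeval_box D P hPdeg u]
    rw [← (Equiv.sumArrowEquivProdArrow (Fin k) (Fin n) (Fin (D + 1))).symm.sum_comp,
      Fintype.sum_prod_type, Finset.sum_comm]
    refine Finset.sum_congr rfl fun β _ => ?_
    rw [Finset.sum_mul]
    refine Finset.sum_congr rfl fun a _ => ?_
    rw [Fintype.prod_sum_type, mul_assoc]
    rfl
  refine ⟨fun β α => P.coeff (mon β α), ?_, ?_⟩
  · by_contra hcon
    push Not at hcon
    apply hPne
    unfold specialise
    rw [hexp]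
    apply Finset.sum_eq_zero
    intro β _
    have h2 : (∑ α : Fin k → Fin (D + 1),
          algebraMap ℤ (MvPolynomial (Fin n) ℂ) (P.coeff (mon β α)) *
            ∏ i, (Sum.elim (fun i => MvPolynomial.C (θ i)) MvPolynomial.X :
              Fin k ⊕ Fin n → MvPolynomial (Fin n) ℂ) (Sum.inl i) ^ (α i : ℕ)) =
        MvPolynomial.C (∑ α : Fin k → Fin (D + 1), ((P.coeff (mon β α) : ℤ) : ℂ) *
          ∏ i, θ i ^ (α i : ℕ)) := by
      rw [map_sum]
      refine Finset.sum_congr rfl fun a _ => ?_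
      simp [map_mul, map_prod, map_pow]
    rw [h2, hcon β]
    simp
  · have h3 := hexp (S := ℂ) (Sum.elim θ v)
    rw [hP0] at h3
    rw [h3]
    refine Finset.sum_congr rfl fun β _ => ?_
    simp

theorem final (hmain : KBD.T_MULTI) (n k : ℕ) : ∃ K : ℕ, 1 ≤ K ∧
    ∀ (D T : ℕ) (θ : Fin k → ℂ), 1 ≤ D → 1 ≤ T →
      ({t : Fin n → ℕ | (∀ i, 1 ≤ t i ∧ t i ≤ T) ∧
        HasRelation D θ (fun i => (Real.log (t i) : ℂ))}.ncard : ℝ) ≤
        K * (T : ℝ) ^ ((n : ℝ) - 1 / (K * (D : ℝ) ^ K)) := by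
  obtain ⟨K, hK, hmain⟩ := hmain n k
  refine ⟨K, hK, fun D T θ hD hT => ?_⟩
  refine le_trans ?_ (hmain D T θ hD hT)
  have hfin : ({t : Fin n → ℕ | (∀ i, 1 ≤ t i ∧ t i ≤ T) ∧
      KBD.MRel D θ (fun i => (Real.log (t i) : ℂ))}).Finite := by
    refine (Set.Finite.pi (fun _ : Fin n => Set.finite_Icc 1 T)).subset ?_
    rintro t ⟨ht, _⟩ i _
    exact Set.mem_Icc.mpr (ht i)
  have hsub : {t : Fin n → ℕ | (∀ i, 1 ≤ t i ∧ t i ≤ T) ∧
      HasRelation D θ (fun i => (Real.log (t i) : ℂ))} ⊆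
      {t : Fin n → ℕ | (∀ i, 1 ≤ t i ∧ t i ≤ T) ∧
      KBD.MRel D θ (fun i => (Real.log (t i) : ℂ))} := by
    rintro t ⟨h1, h2⟩
    exact ⟨h1, hasRelation_mrel D θ _ h2⟩
  exact_mod_cast Set.ncard_le_ncard hsub hfin

/-- For all `n, k` there is `K` such that for all `D, T ≥ 1` and all `θ ∈ ℂ^k`, at most
`K · T^(n - 1/(K D^K))` tuples `t ∈ {1, …, T}^n` are such that `(log t_1, …, log t_n)` satisfies
a nontrivial polynomial relation over `ℤ[θ]` of degree at most `D`. -/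
theorem result (n k : ℕ) : ∃ K : ℕ, 1 ≤ K ∧
    ∀ (D T : ℕ) (θ : Fin k → ℂ), 1 ≤ D → 1 ≤ T →
      ({t : Fin n → ℕ | (∀ i, 1 ≤ t i ∧ t i ≤ T) ∧
        HasRelation D θ (fun i => (Real.log (t i) : ℂ))}.ncard : ℝ) ≤
        K * (T : ℝ) ^ ((n : ℝ) - 1 / (K * (D : ℝ) ^ K)) :=
  final (KBD.p_MULTI (KBD.p_ONE (KBD.p_G
    (KBD.p_ZE KBD.p_NONZ (KBD.p_ORD0 KBD.p_GAU) (KBD.p_ORD1 KBD.p_GAU) KBD.p_DEG)
    KBD.p_LCM (KBD.p_SIEG KBD.p_COEF KBD.p_LCM) KBD.p_DEN (KBD.p_AN KBD.p_COEF)) KBD.p_ELIM)) n k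

end Pool.Agent.KBD.KummerBoundedDegree
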