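import Mathlib

set_option autoImplicit false

/-!
# Kummer periods: relations of bounded degree and arbitrary height (MP_5d33ca_ag)

Definitions and exact targets. The complete proofs are in `Blueprint.lean.txt`.
-/

namespace Pool.Agent.KBD

open Finset
open scoped BigOperators

/-- exponents: `r` numbers between `0` and `B` -/
abbrev Bx (r B : ℕ) : Type := Fin r → Fin (B + 1)

/-- the power series of `log (1 + b w)` -/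
noncomputable def lg (b : ℚ) : PowerSeries ℚ := PowerSeries.mk fun s => -((-b) ^ s / (s : ℚ))

/-- `∏ binom (J i) (I i)`; it is zero unless `I ≤ J` -/
def bin {r B : ℕ} (I J : Bx r B) : ℕ := ∏ i, (J i : ℕ).choose (I i : ℕ)

/-- change of gauge `∑_I binom(J, I) (-l)^(J-I) P_I` -/
noncomputable def gg {r B : ℕ} (l : Fin r → PowerSeries ℚ) (P : Bx r B → PowerSeries ℚ)
    (J : Bx r B) : PowerSeries ℚ :=
  ∑ I : Bx r B, (bin I J : PowerSeries ℚ) * (∏ i, (-l i) ^ ((J i : ℕ) - (I i : ℕ))) * P I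

/-- `f_J = ∏ log (1 + a_i z)^(J_i)` as a power series at `0` -/
noncomputable def ff {r B : ℕ} (a : Fin r → ℕ) (J : Bx r B) : PowerSeries ℚ :=
  ∏ i, lg (a i : ℚ) ^ (J i : ℕ)

/-- `log (1 + a_i z) - log (1 + a_i z0) = log (1 + sl (z - z0))` -/
def sl {r : ℕ} (a : Fin r → ℕ) (z0 : ℚ) (i : Fin r) : ℚ := (a i : ℚ) / (1 + a i * z0)

/-- Taylor expansion of a polynomial at `z0`, as a power series -/
noncomputable def ty (z0 : ℚ) (p : Polynomial ℚ) : PowerSeries ℚ :=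
  ((Polynomial.taylor z0 p : Polynomial ℚ) : PowerSeries ℚ)

/-- the gauge at `z0` -/
noncomputable def g0 {r B : ℕ} (a : Fin r → ℕ) (z0 : ℚ) (P : Bx r B → Polynomial ℚ) (J : Bx r B) :
    PowerSeries ℚ :=
  gg (fun i => lg (sl a z0 i)) (fun I => ty z0 (P I)) J

/-- `k`-th Taylor coefficient at `z0` in the gauge at `z0` -/
noncomputable def pk {r B : ℕ} (a : Fin r → ℕ) (z0 : ℚ) (P : Bx r B → Polynomial ℚ) (k : ℕ)
    (J : Bx r B) : ℚ :=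
  PowerSeries.coeff k (g0 a z0 P J)

/-- simultaneous approximation: `P_J = Q f_J + O(z^σ)`, `Q = P_0` -/
structure Pade {r B : ℕ} (a : Fin r → ℕ) (m σ : ℕ) (P : Bx r B → Polynomial ℚ) : Prop where
  ne : P 0 ≠ 0
  deg : ∀ J, (P J).natDegree ≤ m
  ord : ∀ J, (PowerSeries.X : PowerSeries ℚ) ^ σ ∣
    (P 0 : PowerSeries ℚ) * ff a J - (P J : PowerSeries ℚ)

/-! ## zero estimate -/

/-- `T = ∏ (1 + a_i z)` -/
noncomputable def TT {r : ℕ} (a : Fin r → ℕ) : Polynomial ℚ :=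
  ∏ i, (1 + Polynomial.C (a i : ℚ) * Polynomial.X)

/-- `T_i = a_i ∏_{l ≠ i} (1 + a_l z)` -/
noncomputable def Ti {r : ℕ} (a : Fin r → ℕ) (i : Fin r) : Polynomial ℚ :=
  Polynomial.C (a i : ℚ) * ∏ l ∈ Finset.univ.erase i, (1 + Polynomial.C (a l : ℚ) * Polynomial.X)

/-- `J - e_i` (unchanged if `J i = 0`) -/
def dn {r B : ℕ} (J : Bx r B) (i : Fin r) : Bx r B :=
  Function.update J i ⟨(J i : ℕ) - 1, lt_of_le_of_lt (Nat.sub_le _ _) (J i).isLt⟩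

/-- the vectors `T^k ∇^k P` -/
noncomputable def VV {r B : ℕ} (a : Fin r → ℕ) (P : Bx r B → Polynomial ℚ) :
    ℕ → Bx r B → Polynomial ℚ
  | 0 => P
  | (k + 1) => fun J => TT a * Polynomial.derivative (VV a P k J) -
      (k : Polynomial ℚ) * Polynomial.derivative (TT a) * VV a P k J -
      ∑ i, ((J i : ℕ) : Polynomial ℚ) * Ti a i * VV a P k (dn J i)

/-- a numbering of the box by `0, 1, ..., M-1` -/
noncomputable def num {r B : ℕ} (K : Bx r B) : ℕ := (Fintype.equivFin (Bx r B) K : ℕ)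

/-- the determinant of the first `M` vectors -/
noncomputable def WW {r B : ℕ} (a : Fin r → ℕ) (P : Bx r B → Polynomial ℚ) : Polynomial ℚ :=
  Matrix.det (fun (K J : Bx r B) => VV a P (num K) J)

/-- Z1: the determinant does not vanish -/
def T_NONZ : Prop := ∀ (r B : ℕ) (a : Fin r → ℕ) (P : Bx r B → Polynomial ℚ),
  Function.Injective a → (∀ i, 1 ≤ a i) → P 0 ≠ 0 → WW a P ≠ 0

/-- Z2: in the gauge at `z0` the vectors are derivatives -/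
def T_GAU : Prop := ∀ (r B : ℕ) (a : Fin r → ℕ) (z0 : ℚ) (P : Bx r B → Polynomial ℚ), 0 ≤ z0 →
  ∀ (k : ℕ) (J : Bx r B), g0 a z0 (VV a P k) J =
    ty z0 (TT a) ^ k * (PowerSeries.derivative ℚ)^[k] (g0 a z0 P J)

/-- Z3: order at zero -/
def T_ORD0 : Prop := ∀ (r B m σ : ℕ) (a : Fin r → ℕ) (P : Bx r B → Polynomial ℚ), Pade a m σ P →
  (Polynomial.X : Polynomial ℚ) ^ (((B + 1) ^ r - 1) * (σ - ((B + 1) ^ r - 1))) ∣ WW a P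

/-- Z4: order at `z0` -/
def T_ORD1 : Prop := ∀ (r B K0 : ℕ) (a : Fin r → ℕ) (z0 : ℚ) (P : Bx r B → Polynomial ℚ)
  (lam : Bx r B → ℚ), 0 ≤ z0 → lam ≠ 0 → (∀ k, k ≤ K0 → ∑ J, lam J * pk a z0 P k J = 0) →
  (Polynomial.X - Polynomial.C z0) ^ (K0 + 1 - ((B + 1) ^ r - 1)) ∣ WW a P

/-- Z5: degree -/
def T_DEG : Prop := ∀ (r B m : ℕ) (a : Fin r → ℕ) (P : Bx r B → Polynomial ℚ),
  (∀ J, (P J).natDegree ≤ m) →
  (WW a P).natDegree ≤ (B + 1) ^ r * m + r * ((B + 1) ^ r) ^ 2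

/-- Z6: zero estimate (from Z1, Z3, Z4, Z5) -/
def T_ZE : Prop := ∀ (r B m σ K0 : ℕ) (a : Fin r → ℕ) (z0 : ℚ) (P : Bx r B → Polynomial ℚ)
  (lam : Bx r B → ℚ), Function.Injective a → (∀ i, 1 ≤ a i) → 0 < z0 → Pade a m σ P → lam ≠ 0 →
  (∀ k, k ≤ K0 → ∑ J, lam J * pk a z0 P k J = 0) →
  ((B + 1) ^ r - 1) * σ + K0 ≤ (B + 1) ^ r * m + (r + 1) * ((B + 1) ^ r) ^ 2

/-! ## construction and sizes -/

/-- S1: Chebyshev -/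
def T_LCM : Prop := ∀ n : ℕ, Nat.lcmUpto n ≤ 220 ^ n

/-- S2: the coefficients of the `f_J` -/
def T_COEF : Prop := ∀ (r B A : ℕ) (a : Fin r → ℕ), 1 ≤ A → (∀ i, a i ≤ A) → ∀ J : Bx r B,
  (∀ s, |PowerSeries.coeff s (ff a J)| ≤ (2 * (A : ℚ)) ^ s) ∧
  ∀ S s, s ≤ S → ∃ x : ℤ, (Nat.lcmUpto S : ℚ) ^ (r * B) * PowerSeries.coeff s (ff a J) = x

/-- S3: Siegel's lemma (from S1, S2); here `M = (B+1)^r`, `m = (M-1) L n`,
`σ = m + 1 + (L-1) n` -/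
def T_SIEG : Prop := ∀ (r B A L n : ℕ) (a : Fin r → ℕ), 2 ≤ (B + 1) ^ r → 1 ≤ A →
  (∀ i, a i ≤ A) → 2 ≤ L → 1 ≤ n → ∃ P : Bx r B → Polynomial ℚ,
  Pade a (((B + 1) ^ r - 1) * L * n) (((B + 1) ^ r - 1) * L * n + 1 + (L - 1) * n) P ∧
  (∀ s, |(P 0).coeff s| ≤
    ((4 * 220 ^ (r * B) * A : ℕ) : ℚ) ^ ((((B + 1) ^ r - 1) * L * n + 1 + (L - 1) * n) * L)) ∧
  ∀ J s, ∃ x : ℤ, (Nat.lcmUpto (((B + 1) ^ r - 1) * L * n) : ℚ) ^ (r * B) * (P J).coeff s = x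

/-- S4: denominators -/
def T_DEN : Prop := ∀ (r B m k N : ℕ) (a : Fin r → ℕ) (P : Bx r B → Polynomial ℚ), 1 ≤ N →
  (∀ J, (P J).natDegree ≤ m) →
  (∀ J s, ∃ x : ℤ, (Nat.lcmUpto m : ℚ) ^ (r * B) * (P J).coeff s = x) →
  ∀ J, ∃ x : ℤ, ((N : ℚ) ^ m * (Nat.lcmUpto m : ℚ) ^ (r * B) * (Nat.lcmUpto k : ℚ) ^ (r * B) *
    (∏ i, ((N : ℚ) + a i)) ^ k) * pk a (1 / (N : ℚ)) P k J = x

/-- S5: smallness (from S2) -/
def T_AN : Prop := ∀ (r B A N m σ : ℕ) (H : ℝ) (a : Fin r → ℕ) (P : Bx r B → Polynomial ℚ),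
  1 ≤ A → (∀ i, a i ≤ A) → 8 * A ≤ N → Pade a m σ P → m < σ →
  (∀ s, |((P 0).coeff s : ℝ)| ≤ H) → ∀ (k : ℕ) (J : Bx r B),
  |((Polynomial.taylor (1 / (N : ℚ)) (P 0)).coeff k : ℝ) *
      ∏ i, Real.log (1 + (a i : ℝ) / N) ^ (J i : ℕ) - (pk a (1 / (N : ℚ)) P k J : ℝ)| ≤
    2 ^ (r * B + 1) * (m + 1) * H * (N : ℝ) ^ k * (4 * (A : ℝ) / N) ^ σ

/-- S6: logarithms of `1 + a_i / N` are algebraically independent in bounded degree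
(from Z6, S1, S3, S4, S5) -/
def T_G : Prop := ∀ (r B A N : ℕ) (a : Fin r → ℕ), Function.Injective a →
  (∀ i, 1 ≤ a i ∧ a i ≤ A) → 1 ≤ A →
  (880 * A) ^ (12 * (r + 1) ^ 3 * (B + 1) * ((B + 1) ^ r) ^ 3) ≤ N →
  ∀ c : Bx r B → ℤ, ∑ J, (c J : ℝ) * ∏ i, Real.log (1 + (a i : ℝ) / N) ^ (J i : ℕ) = 0 → c = 0

/-! ## elimination and counting -/

/-- `y` satisfies a nontrivial polynomial relation over `ℤ[θ]`, of degree at most `D` in each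
variable -/
def Rel {k : ℕ} (D : ℕ) (θ : Fin k → ℂ) (y : ℂ) : Prop :=
  ∃ c : Fin (D + 1) → Bx k D → ℤ, (∃ j, ∑ α, (c j α : ℂ) * ∏ i, θ i ^ (α i : ℕ) ≠ 0) ∧
    ∑ j, (∑ α, (c j α : ℂ) * ∏ i, θ i ^ (α i : ℕ)) * y ^ (j : ℕ) = 0

/-- the same for `n` numbers -/
def MRel {k n : ℕ} (D : ℕ) (θ : Fin k → ℂ) (y : Fin n → ℂ) : Prop :=
  ∃ c : Bx n D → Bx k D → ℤ, (∃ β, ∑ α, (c β α : ℂ) * ∏ i, θ i ^ (α i : ℕ) ≠ 0) ∧
    ∑ β, (∑ α, (c β α : ℂ) * ∏ i, θ i ^ (α i : ℕ)) * ∏ l, y l ^ (β l : ℕ) = 0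

/-- the degree after elimination -/
def BE (k D : ℕ) : ℕ := ((k + 2) * (k + 1) * D + 1) ^ k * (D + 1) ^ (k + 2)

/-- N1: elimination -/
def T_ELIM : Prop := ∀ (k D : ℕ) (θ : Fin k → ℂ) (y : Fin (k + 2) → ℂ), (∀ i, Rel D θ (y i)) →
  ∃ c : Bx (k + 1) (BE k D) → ℤ, c ≠ 0 ∧
    ∑ J, (c J : ℂ) * ∏ i, (y (Fin.succ i) - y 0) ^ (J i : ℕ) = 0

/-- N2: one variable (from S6, N1) -/
def T_ONE : Prop := ∀ k : ℕ, ∃ K : ℕ, 1 ≤ K ∧ ∀ (D T : ℕ) (θ : Fin k → ℂ), 1 ≤ D → 1 ≤ T →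
  (({t : ℕ | (1 ≤ t ∧ t ≤ T) ∧ Rel D θ (Real.log t : ℂ)}).ncard : ℝ) ≤
    K * (T : ℝ) ^ (1 - 1 / (K * (D : ℝ) ^ K))

/-- N3: several variables (from N2) -/
def T_MULTI : Prop := ∀ n k : ℕ, ∃ K : ℕ, 1 ≤ K ∧ ∀ (D T : ℕ) (θ : Fin k → ℂ), 1 ≤ D → 1 ≤ T →
  (({t : Fin n → ℕ | (∀ i, 1 ≤ t i ∧ t i ≤ T) ∧
    MRel D θ (fun i => (Real.log (t i) : ℂ))}).ncard : ℝ) ≤
    K * (T : ℝ) ^ ((n : ℝ) - 1 / (K * (D : ℝ) ^ K))

end Pool.Agent.KBD
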